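import Pool.Agent.Lib.MP_d57abb_nt.AS.Defs
import Pool.Agent.Lib.MP_d57abb_nt.TA.DilA
import Pool.Agent.Lib.MP_d57abb_nt.TZ.Supp

/-!
# JOB DilK: exact dilation at one scale (about 180 lines)

Let `Y = 4^j / p`, `M` large (`M ≥ 2^a Y + 1`, `M ≥ 2^(b+j)`).
(1) By `sum_div` (`F d = ..`, `nm x.1 = d`), `aa_mul` (`aa z x.1 * aa z x.2 = z ^ om k` for `kk = k`): `SK a φ ψ z Y = ∑_{x ∈ pr M 1, 1 ≤ kk x} (φ (p * kk x / 4^j) * ψ (nm x.1 / kk x) / kk x) aa z x.1 aa z x.2` (a nonzero term has `kk ≤ 2^a Y`, `PW.sp`; write `kk x` for `kk x.1 x.2`; proceed as in `Ts_frames`).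
(2) A nonzero term has `p kk x ≥ 4^j / 2^a > p²`, so `kk x > p`.  `Ph p` (`DilA`) is a bijection from the frames with `kk x > p` to the pairs `y` of the quadrant with `dt = p`, `Ip`, `Ip`, `kk y > p²` (`Ph_Qd`, `Ph_dt`, `Ph_Ip`, `Ph_kk`, `Ph_inj`, `Ph_surj`).
The term of `y = Ph p x` in `GK`: `φ (kk y / 4^j) = φ (p kk x / 4^j)`, `nm y.1 / kk y = nm x.1 / kk x` (`Ph_nm1`), `1 / kk y = 1 / (p kk x)`, `aa aa (y) = z² aa aa (x)` (`aa_Ph`).  So `p * term y = z² * term x`.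
(3) Boxes: a nonzero term of `GK` (over any box) has `4^j / 2^a ≤ kk y ≤ 2^a 4^j`, `kk y / 2^k ≤ nm y.1 ≤ 2^k kk y`; `(ll y.1)² ≤ nm y.1 ≤ (5/4) (ll y.1)²`, `ll y.1 ll y.2 ≤ kk y + p ≤ 2 kk y` (`kk_bounds`, `nm_bounds`).  So `(ll y.1)² ≤ 2^(k+a) 4^j`,
`ll y.1 ≤ 2^(b+j)`, and `(ll y.2)² ≤ 4 kk² / (ll y.1)² ≤ 5 · 2^k kk y ≤ 5 · 2^(k+a) 4^j ≤ (2^(b+j))²` (`b ≥ a + k + 2`): `y` is in the box `2^(b+j)`.  Similarly for frames: nonzero terms of (1) have `kk x ≤ 2^a Y` and all the coordinates are `≤ kk x + 1` (`frame_le`).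
Use `Finset.sum_bij_ne_zero`.
-/

namespace Pool.Agent.Lib.MP_d57abb_nt.AS

open Finset Pool.Agent.Lib.MP_d57abb_nt Pool.Agent.Lib.MP_d57abb_nt.TA Pool.Agent.Lib.MP_d57abb_nt.TZ

private theorem DilK_term (φ ψ : ℝ → ℝ) (z : ℂ) {p : ℕ} (hp : SP p) {j : ℕ}
    {x : (ℤ × ℤ) × (ℤ × ℤ)} (hx : Fr x) (hk : 0 < kk x.1 x.2) :
    z ^ 2 * (((φ (kk x.1 x.2 / (4 ^ j / p)) * ψ (nm x.1 / kk x.1 x.2) / kk x.1 x.2 : ℝ) : ℂ) *
      aa z x.1 * aa z x.2) =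
    (p : ℂ) * (((φ (kk (Ph p x).1 (Ph p x).2 / 4 ^ j) *
      ψ (nm (Ph p x).1 / kk (Ph p x).1 (Ph p x).2) / kk (Ph p x).1 (Ph p x).2 : ℝ) : ℂ) *
      aa z (Ph p x).1 * aa z (Ph p x).2) := by
  obtain ⟨h1, h2⟩ := aa_Ph hp hx z
  rw [h1, h2, Ph_kk hp, Ph_nm1 hp]
  have hp0 : (0 : ℝ) < (p : ℝ) := by exact_mod_cast hp.1.pos
  have hk0 : (0 : ℝ) < (kk x.1 x.2 : ℝ) := by exact_mod_cast hk
  have e1 : (kk x.1 x.2 : ℝ) / (4 ^ j / p) = (((p : ℤ) * kk x.1 x.2 : ℤ) : ℝ) / 4 ^ j := by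
    push_cast
    field_simp
  have e2 : (((p : ℤ) * nm x.1 : ℤ) : ℝ) / (((p : ℤ) * kk x.1 x.2 : ℤ) : ℝ) =
      (nm x.1 : ℝ) / (kk x.1 x.2 : ℝ) := by
    push_cast
    exact mul_div_mul_left _ _ hp0.ne'
  have e3 : (φ (kk x.1 x.2 / (4 ^ j / p)) * ψ (nm x.1 / kk x.1 x.2) / kk x.1 x.2 : ℝ) =
      (p : ℝ) * (φ ((((p : ℤ) * kk x.1 x.2 : ℤ) : ℝ) / 4 ^ j) *
        ψ ((((p : ℤ) * nm x.1 : ℤ) : ℝ) / (((p : ℤ) * kk x.1 x.2 : ℤ) : ℝ)) /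
        (((p : ℤ) * kk x.1 x.2 : ℤ) : ℝ)) := by
    rw [e1, e2]
    push_cast
    field_simp
  rw [e3, Complex.ofReal_mul, Complex.ofReal_natCast]
  ring

private theorem DilK_frames (φ ψ : ℝ → ℝ) (z : ℂ) (a : ℕ) (Y : ℝ) (N : ℕ)
    (hN : N = ⌊2 ^ a * Y⌋₊) :
    SK a φ ψ z Y = ∑ x ∈ (pr (N + 1) 1).filter (fun x => 1 ≤ kk x.1 x.2 ∧ kk x.1 x.2 ≤ N),
      ((φ (kk x.1 x.2 / Y) * ψ (nm x.1 / kk x.1 x.2) / kk x.1 x.2 : ℝ) : ℂ) *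
        aa z x.1 * aa z x.2 := by
  have hmap : ∀ x ∈ (pr (N + 1) 1).filter (fun x => 1 ≤ kk x.1 x.2 ∧ kk x.1 x.2 ≤ N),
      (kk x.1 x.2).toNat ∈ Icc 1 N := by
    intro x hx
    have h1 := (mem_filter.1 hx).2
    rw [mem_Icc]
    omega
  rw [← Finset.sum_fiberwise_of_maps_to hmap]
  unfold SK
  rw [← hN]
  refine Finset.sum_congr rfl fun q hq => ?_
  rw [mem_Icc] at hq
  have h1 : ((pr (N + 1) 1).filter (fun x => 1 ≤ kk x.1 x.2 ∧ kk x.1 x.2 ≤ N)).filter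
      (fun x => (kk x.1 x.2).toNat = q) = (pr (N + 1) 1).filter (fun x => kk x.1 x.2 = q) := by
    rw [Finset.filter_filter]
    refine Finset.filter_congr fun x _ => ?_
    constructor
    · rintro ⟨⟨h2, h3⟩, h4⟩
      omega
    · intro h2
      omega
  rw [h1]
  have h2 : ∑ x ∈ (pr (N + 1) 1).filter (fun x => kk x.1 x.2 = q),
      ((φ (kk x.1 x.2 / Y) * ψ (nm x.1 / kk x.1 x.2) / kk x.1 x.2 : ℝ) : ℂ) *
        aa z x.1 * aa z x.2 =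
      ∑ x ∈ (pr (N + 1) 1).filter (fun x => kk x.1 x.2 = q),
        (fun n : ℤ => ((φ ((q : ℝ) / Y) * ψ ((n : ℝ) / q) / q : ℝ) : ℂ) * z ^ om q)
          (nm x.1) := by
    refine Finset.sum_congr rfl fun x hx => ?_
    obtain ⟨h3, h4⟩ := mem_filter.1 hx
    obtain ⟨h5, h6, h7, -⟩ := mem_pr1.1 h3
    rw [mul_assoc, aa_mul h5 h6 h7 h4, h4]
    push_cast
    rfl
  rw [h2, sum_div q (N + 1) (by omega)
    (fun n : ℤ => ((φ ((q : ℝ) / Y) * ψ ((n : ℝ) / q) / q : ℝ) : ℂ) * z ^ om q),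
    ← Finset.sum_mul]
  congr 1
  rw [← Complex.ofReal_sum]
  congr 1
  unfold tp
  rw [Finset.mul_sum, Finset.sum_div]
  refine Finset.sum_congr rfl fun d _ => ?_
  rw [Int.cast_natCast]

/-- the bounds for the support -/
private theorem DilK_phi {φ : ℝ → ℝ} {a : ℕ} {La : ℝ} (hφ : PW φ a La) {q : ℤ} {j : ℕ}
    (h : φ ((q : ℝ) / 4 ^ j) ≠ 0) : (4 : ℤ) ^ j ≤ 2 ^ a * q ∧ q ≤ 2 ^ a * 4 ^ j := by
  obtain ⟨h1, h2⟩ := hφ.sp _ h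
  have h4 : (0 : ℝ) < 4 ^ j := by positivity
  have h5 : (0 : ℝ) < 2 ^ a := by positivity
  constructor
  · rw [div_le_div_iff₀ h5 h4] at h1
    have h6 : (4 : ℝ) ^ j ≤ 2 ^ a * (q : ℝ) := by linarith
    exact_mod_cast h6
  · rw [div_le_iff₀ h4] at h2
    exact_mod_cast h2

private theorem DilK_psi {ψ : ℝ → ℝ} {k : ℕ} {L : ℝ} (hψ : PW ψ k L) {n q : ℤ} (hq : 0 < q)
    (h : ψ ((n : ℝ) / q) ≠ 0) : q ≤ 2 ^ k * n ∧ n ≤ 2 ^ k * q := by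
  obtain ⟨h1, h2⟩ := hψ.sp _ h
  have h4 : (0 : ℝ) < (q : ℝ) := by exact_mod_cast hq
  have h5 : (0 : ℝ) < 2 ^ k := by positivity
  constructor
  · rw [div_le_div_iff₀ h5 h4] at h1
    have h6 : (q : ℝ) ≤ 2 ^ k * (n : ℝ) := by linarith
    exact_mod_cast h6
  · rw [div_le_iff₀ h4] at h2
    exact_mod_cast h2

private theorem DilK_box {a k b j p : ℕ} (hb : a + k + 2 ≤ b) {v w : ℤ × ℤ} (hv : Qd v)
    (hw : Qd w) (hd : dt v w = p) (hpk : (p : ℤ) ≤ kk v w) (hk0 : 0 < kk v w)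
    (h1 : kk v w ≤ 2 ^ a * 4 ^ j) (h2 : kk v w ≤ 2 ^ k * nm v) (h3 : nm v ≤ 2 ^ k * kk v w) :
    ll v ≤ 2 ^ (b + j) ∧ ll w ≤ 2 ^ (b + j) := by
  obtain ⟨n1, n2⟩ := nm_bounds hv
  have hs := hv.ll_pos
  have ht := hw.ll_pos
  have hst := (kk_bounds hv hw (Int.natCast_nonneg p) hd).1
  have hK : (0 : ℤ) < 2 ^ k := by positivity
  have hA : (0 : ℤ) < 2 ^ a := by positivity
  have hJ : (0 : ℤ) < 4 ^ j := by positivity
  have hK1 : (1 : ℤ) ≤ 2 ^ k := one_le_pow₀ (by norm_num)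
  have hA1 : (1 : ℤ) ≤ 2 ^ a := one_le_pow₀ (by norm_num)
  have hB : (16 : ℤ) * (2 ^ k * 2 ^ a * 4 ^ j) ≤ (2 ^ (b + j)) ^ 2 := by
    have e1 : ((2 : ℤ) ^ (b + j)) ^ 2 = 4 ^ b * 4 ^ j := by
      rw [← pow_mul, mul_comm (b + j) 2, pow_mul, pow_add]
      norm_num
    have e2 : (4 : ℤ) ^ (a + k + 2) ≤ 4 ^ b := pow_le_pow_right₀ (by norm_num) hb
    have e3 : (4 : ℤ) ^ (a + k + 2) = 16 * ((2 ^ k * 2 ^ a) * (2 ^ k * 2 ^ a)) := by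
      have : (4 : ℤ) = 2 ^ 2 := by norm_num
      rw [this, ← pow_mul]
      ring
    have e4 : (1 : ℤ) ≤ 2 ^ k * 2 ^ a := by
      have := mul_le_mul hK1 hA1 (by norm_num) hK.le
      linarith
    have e5 : (2 : ℤ) ^ k * 2 ^ a * 1 ≤ (2 ^ k * 2 ^ a) * (2 ^ k * 2 ^ a) :=
      mul_le_mul_of_nonneg_left e4 (by positivity)
    rw [e1]
    calc (16 : ℤ) * (2 ^ k * 2 ^ a * 4 ^ j) = (16 * (2 ^ k * 2 ^ a * 1)) * 4 ^ j := by ring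
      _ ≤ (16 * ((2 ^ k * 2 ^ a) * (2 ^ k * 2 ^ a))) * 4 ^ j :=
          mul_le_mul_of_nonneg_right (mul_le_mul_of_nonneg_left e5 (by norm_num)) hJ.le
      _ = 4 ^ (a + k + 2) * 4 ^ j := by rw [e3]
      _ ≤ 4 ^ b * 4 ^ j := mul_le_mul_of_nonneg_right e2 hJ.le
  have hkk : 2 ^ k * kk v w ≤ 2 ^ k * 2 ^ a * 4 ^ j := by
    calc 2 ^ k * kk v w ≤ 2 ^ k * (2 ^ a * 4 ^ j) := mul_le_mul_of_nonneg_left h1 hK.le
      _ = 2 ^ k * 2 ^ a * 4 ^ j := by ring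
  have hP0 : (0 : ℤ) ≤ 2 ^ k * 2 ^ a * 4 ^ j := by positivity
  have hpos : (0 : ℤ) ≤ 2 ^ (b + j) := by positivity
  constructor
  · have h4 : (ll v) ^ 2 ≤ (2 ^ (b + j)) ^ 2 := by
      refine le_trans ?_ hB
      linarith
    exact (sq_le_sq₀ hs.le hpos).mp h4
  · have h4 : (ll w) ^ 2 ≤ (2 ^ (b + j)) ^ 2 := by
      have h5 : ll v * ll w ≤ 2 * kk v w := by linarith
      have h6 : (ll v * ll w) ^ 2 ≤ (2 * kk v w) ^ 2 :=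
        pow_le_pow_left₀ (mul_nonneg hs.le ht.le) h5 2
      have h7 : (ll v) ^ 2 * (ll w) ^ 2 ≤ (ll v) ^ 2 * (5 * (2 ^ k * kk v w)) := by
        calc (ll v) ^ 2 * (ll w) ^ 2 = (ll v * ll w) ^ 2 := by ring
          _ ≤ (2 * kk v w) ^ 2 := h6
          _ = 4 * kk v w * kk v w := by ring
          _ ≤ 4 * kk v w * (2 ^ k * nm v) :=
              mul_le_mul_of_nonneg_left h2 (by positivity)
          _ = (2 ^ k * kk v w) * (4 * nm v) := by ring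
          _ ≤ (2 ^ k * kk v w) * (5 * (ll v) ^ 2) :=
              mul_le_mul_of_nonneg_left n2 (by positivity)
          _ = (ll v) ^ 2 * (5 * (2 ^ k * kk v w)) := by ring
      have h8 : (ll w) ^ 2 ≤ 5 * (2 ^ k * kk v w) :=
        le_of_mul_le_mul_left h7 (by positivity)
      refine le_trans ?_ hB
      linarith
    exact (sq_le_sq₀ ht.le hpos).mp h4

private theorem DilK_mem {N : ℕ} {m : ℤ} {x : (ℤ × ℤ) × (ℤ × ℤ)} (h1 : Qd x.1) (h2 : Qd x.2)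
    (h3 : dt x.1 x.2 = m) (h4 : ll x.1 ≤ N) (h5 : ll x.2 ≤ N) : x ∈ pr N m := by
  unfold pr Bx
  unfold ll at h4 h5
  have a1 := h1.1
  have a2 := h1.2.1
  have a3 := h2.1
  have a4 := h2.2.1
  rw [mem_filter, mem_product, mem_product, mem_product, mem_Icc, mem_Icc, mem_Icc, mem_Icc]
  exact ⟨⟨⟨⟨a1, by linarith⟩, a2, by linarith⟩, ⟨a3, by linarith⟩, a4, by linarith⟩, h3⟩

private theorem DilK_Qd {N : ℕ} {m : ℤ} {x : (ℤ × ℤ) × (ℤ × ℤ)} (hm : m ≠ 0) (hx : x ∈ pr N m) :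
    Qd x.1 ∧ Qd x.2 ∧ dt x.1 x.2 = m := by
  unfold pr Bx at hx
  rw [mem_filter, mem_product, mem_product, mem_product, mem_Icc, mem_Icc, mem_Icc, mem_Icc] at hx
  obtain ⟨⟨⟨⟨h1, -⟩, h2, -⟩, ⟨h3, -⟩, h4, -⟩, h5⟩ := hx
  refine ⟨⟨h1, h2, ?_⟩, ⟨h3, h4, ?_⟩, h5⟩
  · intro h0
    rw [h0] at h5
    unfold dt at h5
    simp at h5
    exact hm h5.symm
  · intro h0
    rw [h0] at h5
    unfold dt at h5
    simp at h5
    exact hm h5.symm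

theorem dilK {φ ψ : ℝ → ℝ} {a k : ℕ} {La L : ℝ} (hφ : PW φ a La) (hψ : PW ψ k L) (z : ℂ) {p : ℕ} (hp : SP p)
    {j b : ℕ} (hj : 2 ^ a * p ^ 2 < 4 ^ j) (hb : a + k + 2 ≤ b) :
    (p : ℂ) * GK φ ψ z b p j = z ^ 2 * SK a φ ψ z (4 ^ j / p) := by
  classical
  have hp0 : 0 < p := hp.1.pos
  have hpz : (0 : ℤ) < (p : ℤ) := by exact_mod_cast hp0
  have hpr : (0 : ℝ) < (p : ℝ) := by exact_mod_cast hp0
  obtain ⟨N, hN⟩ : ∃ N : ℕ, N = ⌊(2 : ℝ) ^ a * (4 ^ j / p)⌋₊ := ⟨_, rfl⟩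
  have hjz : (2 : ℤ) ^ a * (p : ℤ) ^ 2 < 4 ^ j := by exact_mod_cast hj
  have hA : (0 : ℤ) < 2 ^ a := by positivity
  have hYeq : ∀ q : ℤ, (q : ℝ) / (4 ^ j / p) = (((p : ℤ) * q : ℤ) : ℝ) / 4 ^ j := by
    intro q
    push_cast
    field_simp
  rw [DilK_frames φ ψ z a _ N hN]
  unfold GK
  rw [Finset.mul_sum, Finset.mul_sum]
  symm
  refine Finset.sum_bij_ne_zero (fun x _ _ => Ph p x) ?_ ?_ ?_ ?_
  · intro x hx hne
    obtain ⟨hx1, hx2, hx3⟩ := mem_filter.1 hx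
    obtain ⟨hQ1, hQ2, hd, -⟩ := mem_pr1.1 hx1
    have hfr : Fr x := ⟨hQ1, hQ2, hd⟩
    have hk0 : 0 < kk x.1 x.2 := by omega
    have hφne : φ ((kk x.1 x.2 : ℝ) / (4 ^ j / p)) ≠ 0 := by
      intro h0
      apply hne
      rw [h0]
      simp
    have hψne : ψ ((nm x.1 : ℝ) / kk x.1 x.2) ≠ 0 := by
      intro h0
      apply hne
      rw [h0]
      simp
    rw [hYeq] at hφne
    obtain ⟨f1, f2⟩ := DilK_phi hφ hφne
    have hkp : (p : ℤ) < kk x.1 x.2 := by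
      have h1 : (2 : ℤ) ^ a * (p : ℤ) ^ 2 < 2 ^ a * ((p : ℤ) * kk x.1 x.2) := lt_of_lt_of_le hjz f1
      have h2 : (p : ℤ) ^ 2 < (p : ℤ) * kk x.1 x.2 := lt_of_mul_lt_mul_left h1 hA.le
      rw [sq] at h2
      exact lt_of_mul_lt_mul_left h2 hpz.le
    obtain ⟨hR1, hR2⟩ := Ph_Qd hp hfr hkp
    have hkk := Ph_kk hp x
    have hnm := Ph_nm1 hp x
    obtain ⟨g1, g2⟩ := DilK_psi hψ hk0 hψne
    have hbox := DilK_box (j := j) hb hR1 hR2 (Ph_dt hp hd)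
      (by
        rw [hkk]
        have := mul_le_mul_of_nonneg_left (show (1 : ℤ) ≤ kk x.1 x.2 by omega) hpz.le
        linarith)
      (by rw [hkk]; exact mul_pos hpz hk0) (by rw [hkk]; exact f2)
      (by
        rw [hkk, hnm]
        have := mul_le_mul_of_nonneg_left g1 hpz.le
        linarith)
      (by
        rw [hkk, hnm]
        have := mul_le_mul_of_nonneg_left g2 hpz.le
        linarith)
    rw [mem_filter]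
    refine ⟨DilK_mem hR1 hR2 (Ph_dt hp hd) ?_ ?_, Ph_Ip hp x⟩
    · push_cast
      exact hbox.1
    · push_cast
      exact hbox.2
  · intro x hx _ x' hx' _ he
    obtain ⟨hQ1, hQ2, hd, -⟩ := mem_pr1.1 (mem_filter.1 hx).1
    obtain ⟨hQ1', hQ2', hd', -⟩ := mem_pr1.1 (mem_filter.1 hx').1
    exact Ph_inj hp ⟨hQ1, hQ2, hd⟩ ⟨hQ1', hQ2', hd'⟩ he
  · intro y hy hne
    obtain ⟨hy1, hy2⟩ := mem_filter.1 hy
    obtain ⟨hQ1, hQ2, hd⟩ := DilK_Qd hpz.ne' hy1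
    obtain ⟨x, hfr, rfl⟩ := Ph_surj hp hQ1 hQ2 hd hy2
    have hφne : φ ((kk (Ph p x).1 (Ph p x).2 : ℝ) / 4 ^ j) ≠ 0 := by
      intro h0
      apply hne
      rw [h0]
      simp
    obtain ⟨f1, f2⟩ := DilK_phi hφ hφne
    rw [Ph_kk hp] at f1 f2
    have hkp : (p : ℤ) < kk x.1 x.2 := by
      have h1 : (2 : ℤ) ^ a * (p : ℤ) ^ 2 < 2 ^ a * ((p : ℤ) * kk x.1 x.2) := lt_of_lt_of_le hjz f1
      have h2 : (p : ℤ) ^ 2 < (p : ℤ) * kk x.1 x.2 := lt_of_mul_lt_mul_left h1 hA.le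
      rw [sq] at h2
      exact lt_of_mul_lt_mul_left h2 hpz.le
    have hk0 : 0 < kk x.1 x.2 := by omega
    have hkN : kk x.1 x.2 ≤ N := by
      have h3 : (((kk x.1 x.2).toNat : ℕ) : ℤ) = kk x.1 x.2 := Int.toNat_of_nonneg hk0.le
      have h4 : (((kk x.1 x.2).toNat : ℕ) : ℝ) = (kk x.1 x.2 : ℝ) := by
        exact_mod_cast congrArg (Int.cast : ℤ → ℝ) h3
      have h5 : (kk x.1 x.2).toNat ≤ N := by
        rw [hN]
        apply Nat.le_floor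
        rw [h4, ← mul_div_assoc, le_div_iff₀ hpr]
        have h6 : ((p : ℝ)) * (kk x.1 x.2 : ℝ) ≤ 2 ^ a * 4 ^ j := by exact_mod_cast f2
        linarith
      omega
    have hmem : x ∈ (pr (N + 1) 1).filter (fun x => 1 ≤ kk x.1 x.2 ∧ kk x.1 x.2 ≤ N) := by
      rw [mem_filter, mem_pr1]
      obtain ⟨l1, l2, l3, l4⟩ := frame_le hfr.1 hfr.2.1 hfr.2.2
      push_cast
      exact ⟨⟨hfr.1, hfr.2.1, hfr.2.2, by linarith, by linarith, by linarith, by linarith⟩,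
        by omega, hkN⟩
    refine ⟨x, hmem, ?_, rfl⟩
    rw [DilK_term φ ψ z hp hfr hk0]
    exact hne
  · intro x hx _
    obtain ⟨hx1, hx2, hx3⟩ := mem_filter.1 hx
    obtain ⟨hQ1, hQ2, hd, -⟩ := mem_pr1.1 hx1
    exact DilK_term φ ψ z hp ⟨hQ1, hQ2, hd⟩ (by omega)

end Pool.Agent.Lib.MP_d57abb_nt.AS
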