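import Pool.Agent.Lib.MP_d57abb_nt.AS.Defs
import Pool.Agent.Lib.MP_d57abb_nt.TA.WMain

/-!
# JOB WK: the weights (about 200 lines)

* `mu1_bounds`: `nm_bounds`.  `GM_comp`: `|g (mu1 v) - g (mu1 w)| ≤ Lg |mu1 v - mu1 w|`, `GM_mu1.sv`.
* `tl_*`: tent functions with nodes `ul M l = 4/5 + l / (5 M)`, `l = 0..M`, mesh `1 / (5 M)`: for `u ∈ [4/5, 1]` let `i = ⌊5 M (u - 4/5)⌋₊`; only the tents `i`, `i + 1` are nonzero at `u`, their sum is `1` (if `i = M` then `u = 1` and only the tent `M`).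
  `tl` is Lipschitz with constant `5 M` and bounded by `1`; `min 1 (max 0 u)` with constant `1` and bounded by `1`.
* `GW_Whs`: the same proof as `GW_Wps` (file `TA/WMain`): the extra factor `φ (4^s x y / (4^S u))` is bounded by `1` and Lipschitz in `(x, y)` on bounded sets; as in `GW_Wps` put `x' = min (max x (1/2)) 2` and `y' = min (max y c₀) C₀` with `c₀ = 2^(-k-2)`,
  `C₀ = 2^(k+2)`: for all `x, y`: `f x y = hh x φ (4^s x' y' / (4^S u)) ψ (x' / y') / (x' y')` (for `y > C₀`, `x ≤ 2`: `x / y < 2^(-k)` and `x' / y' = x' / C₀ < 2^(-k)`, both sides vanish).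
* `Whs_supp`: `hh_supp`, `PW.sp`: `x / y ≤ 2^k` (and `≥ 2^(-k) > 0`) gives `y ≥ x / 2^k ≥ 1 / 2^(k+1)`.
* `tz`: piecewise linear; zero for `x ≤ 2^(-a-2)` and `x ≥ 2^(a+2)`.
-/

namespace Pool.Agent.Lib.MP_d57abb_nt.AS

open Finset Pool.Agent.Lib.MP_d57abb_nt Pool.Agent.Lib.MP_d57abb_nt.TA Pool.Agent.Lib.MP_d57abb_nt.TZ

theorem mu1_bounds {v : ℤ × ℤ} (hv : Qd v) : 4 / 5 ≤ mu1 v ∧ mu1 v ≤ 1 := by
  have lv : (0 : ℝ) < ll v := by exact_mod_cast hv.ll_pos
  have h1 : (ll v : ℝ) ^ 2 ≤ nm v := by exact_mod_cast (nm_bounds hv).1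
  have h2 : 4 * (nm v : ℝ) ≤ 5 * (ll v : ℝ) ^ 2 := by exact_mod_cast (nm_bounds hv).2
  have nv0 : (0 : ℝ) < nm v := lt_of_lt_of_le (by positivity) h1
  unfold mu1
  constructor
  · rw [div_le_div_iff₀ (by norm_num) nv0]
    linarith
  · exact div_le_one_of_le₀ h1 nv0.le

theorem GM_comp {g : ℝ → ℝ} {Lg : ℝ} (h0 : ∀ x, 0 ≤ g x ∧ g x ≤ 1) (hL : ∀ x y, |g x - g y| ≤ Lg * |x - y|) :
    GM (fun v => g (mu1 v)) := by
  have hLg : 0 ≤ Lg := by
    have h1 := hL 0 1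
    have h2 := (abs_nonneg (g 0 - g 1)).trans h1
    norm_num at h2
    exact h2
  refine ⟨fun v _ => (h0 _).1, fun v _ => (h0 _).2, ?_⟩
  intro n hn
  obtain ⟨c, hc⟩ := GM_mu1.sv n hn
  refine ⟨Lg * c, ?_⟩
  intro A hA C hC v hv hCv
  refine (hL _ _).trans ?_
  rw [mul_div_assoc]
  exact mul_le_mul_of_nonneg_left (hc A hA C hC v hv hCv) hLg

private theorem WK_tl_le (M l : ℕ) (u : ℝ) : tl M l u ≤ 1 := by
  unfold tl
  refine max_le zero_le_one ?_
  have h1 : 0 ≤ 5 * (M : ℝ) * |u - ul M l| := by positivity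
  linarith

private theorem WK_tl_lip (M l : ℕ) (x y : ℝ) : |tl M l x - tl M l y| ≤ 5 * M * |x - y| := by
  unfold tl
  have hM : 0 ≤ 5 * (M : ℝ) := by positivity
  refine (abs_max_sub_max_le_max _ _ _ _).trans (max_le ?_ ?_)
  · rw [sub_self, abs_zero]
    positivity
  · have h1 : (1 - 5 * (M : ℝ) * |x - ul M l|) - (1 - 5 * (M : ℝ) * |y - ul M l|) =
        5 * (M : ℝ) * (|y - ul M l| - |x - ul M l|) := by ring
    rw [h1, abs_mul, abs_of_nonneg hM]
    refine mul_le_mul_of_nonneg_left ?_ hM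
    refine (abs_abs_sub_abs_le _ _).trans ?_
    have h2 : y - ul M l - (x - ul M l) = -(x - y) := by ring
    rw [h2, abs_neg]

private theorem WK_cl_lip (x y : ℝ) : |min 1 (max 0 x) - min 1 (max 0 y)| ≤ |x - y| := by
  refine (abs_min_sub_min_le_max _ _ _ _).trans (max_le ?_ ?_)
  · rw [sub_self, abs_zero]
    exact abs_nonneg _
  · refine (abs_max_sub_max_le_max _ _ _ _).trans (max_le ?_ le_rfl)
    rw [sub_self, abs_zero]
    exact abs_nonneg _

theorem gl_prop {M : ℕ} (hM : 1 ≤ M) (l : ℕ) :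
    (∀ x, 0 ≤ gl M l x ∧ gl M l x ≤ 1) ∧ ∀ x y, |gl M l x - gl M l y| ≤ (5 * M + 1) * |x - y| := by
  have t0 : ∀ x, 0 ≤ tl M l x := fun x => le_max_left _ _
  have t1 : ∀ x, tl M l x ≤ 1 := fun x => WK_tl_le M l x
  have c0 : ∀ x : ℝ, 0 ≤ min 1 (max 0 x) := fun x => le_min zero_le_one (le_max_left _ _)
  have c1 : ∀ x : ℝ, min 1 (max 0 x) ≤ 1 := fun x => min_le_left _ _
  constructor
  · intro x
    unfold gl
    exact ⟨mul_nonneg (t0 x) (c0 x), mul_le_one₀ (t1 x) (c0 x) (c1 x)⟩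
  · intro x y
    unfold gl
    have e : tl M l x * min 1 (max 0 x) - tl M l y * min 1 (max 0 y) =
        (tl M l x - tl M l y) * min 1 (max 0 x) +
          tl M l y * (min 1 (max 0 x) - min 1 (max 0 y)) := by ring
    rw [e]
    refine (abs_add_le _ _).trans ?_
    rw [abs_mul, abs_mul, abs_of_nonneg (c0 x), abs_of_nonneg (t0 y)]
    have h1 : |tl M l x - tl M l y| * min 1 (max 0 x) ≤ 5 * M * |x - y| :=
      (mul_le_of_le_one_right (abs_nonneg _) (c1 x)).trans (WK_tl_lip M l x y)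
    have h2 : tl M l y * |min 1 (max 0 x) - min 1 (max 0 y)| ≤ |x - y| :=
      (mul_le_of_le_one_left (abs_nonneg _) (t1 y)).trans (WK_cl_lip x y)
    linarith

theorem tl_nonneg (M l : ℕ) (u : ℝ) : 0 ≤ tl M l u := by
  unfold tl
  exact le_max_left _ _

private theorem WK_tent (M : ℕ) : ∀ t : ℝ, 0 ≤ t → t ≤ M →
    ∑ l ∈ range (M + 1), max 0 (1 - |t - (l : ℝ)|) = 1 := by
  induction M with
  | zero =>
    intro t h1 h2
    have h3 : t = 0 := le_antisymm (by simpa using h2) h1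
    rw [Finset.sum_range_one, h3]
    norm_num
  | succ M ih =>
    intro t h1 h2
    by_cases h3 : t ≤ M
    · rw [Finset.sum_range_succ, ih t h1 h3]
      have h4 : max 0 (1 - |t - ((M + 1 : ℕ) : ℝ)|) = 0 := by
        apply max_eq_left
        push_cast
        rw [abs_of_nonpos (by linarith)]
        linarith
      rw [h4, add_zero]
    · push Not at h3
      push_cast at h2
      rw [Finset.sum_range_succ, Finset.sum_range_succ]
      have h4 : ∑ l ∈ range M, max 0 (1 - |t - (l : ℝ)|) = 0 := by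
        refine Finset.sum_eq_zero fun l hl => ?_
        have h5 : (l : ℝ) + 1 ≤ M := by
          exact_mod_cast Finset.mem_range.1 hl
        apply max_eq_left
        rw [abs_of_nonneg (by linarith)]
        linarith
      have h6 : max 0 (1 - |t - (M : ℝ)|) = 1 - (t - M) := by
        rw [abs_of_nonneg (by linarith)]
        apply max_eq_right
        linarith
      have h7 : max 0 (1 - |t - ((M + 1 : ℕ) : ℝ)|) = t - M := by
        push_cast
        rw [abs_of_nonpos (by linarith)]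
        rw [max_eq_right (by linarith)]
        ring
      rw [h4, h6, h7]
      ring

theorem tl_sum {M : ℕ} (hM : 1 ≤ M) {u : ℝ} (h1 : 4 / 5 ≤ u) (h2 : u ≤ 1) : ∑ l ∈ range (M + 1), tl M l u = 1 := by
  have hM0 : (0 : ℝ) < M := by exact_mod_cast hM
  have h3 := WK_tent M (5 * M * (u - 4 / 5)) (by
      have : 0 ≤ u - 4 / 5 := by linarith
      positivity) (by nlinarith)
  rw [← h3]
  refine Finset.sum_congr rfl fun l _ => ?_
  unfold tl ul
  have h4 : 5 * (M : ℝ) * (u - 4 / 5) - l = 5 * M * (u - (4 / 5 + l / (5 * M))) := by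
    field_simp
    ring
  rw [h4, abs_mul, abs_of_pos (by positivity : (0 : ℝ) < 5 * M)]

theorem tl_supp {M l : ℕ} (hM : 1 ≤ M) {u : ℝ} (h : tl M l u ≠ 0) : |u - ul M l| ≤ 1 / (5 * M) := by
  have hM0 : (0 : ℝ) < M := by exact_mod_cast hM
  by_contra h1
  push Not at h1
  apply h
  unfold tl
  apply max_eq_left
  rw [div_lt_iff₀ (by positivity)] at h1
  linarith

theorem ul_bounds {M l : ℕ} (hM : 1 ≤ M) (hl : l ≤ M) : 4 / 5 ≤ ul M l ∧ ul M l ≤ 1 := by
  have hM0 : (0 : ℝ) < M := by exact_mod_cast hM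
  have hl' : (l : ℝ) ≤ M := by exact_mod_cast hl
  unfold ul
  constructor
  · have : 0 ≤ (l : ℝ) / (5 * M) := by positivity
    linarith
  · have : (l : ℝ) / (5 * M) ≤ 1 / 5 := by
      rw [div_le_div_iff₀ (by positivity) (by norm_num)]
      linarith
    linarith

private theorem WK_eq (φ ψ : ℝ → ℝ) (S s : ℕ) (u x y : ℝ) :
    Whs φ ψ S s u x y = φ (4 ^ s / (4 ^ S * u) * (x * y)) * Wps ψ x y := by
  unfold Whs Wps
  have h1 : (4 : ℝ) ^ s * x * y / (4 ^ S * u) = 4 ^ s / (4 ^ S * u) * (x * y) := by ring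
  rw [h1]
  ring

private theorem WK_one {φ : ℝ → ℝ} {a : ℕ} {La : ℝ} (hφ : PW φ a La) (hLa : 0 ≤ La) {W : ℝ → ℝ → ℝ}
    {Y B L : ℝ} (hY : 0 ≤ Y) (hW : GW W Y B L) {c : ℝ} (hc : 0 ≤ c) {x y x' y' : ℝ}
    (h1 : W x y ≠ 0) (h2 : W x' y' ≠ 0) :
    |φ (c * (x * y)) - φ (c * (x' * y'))| * W x y ≤
      La * (c * (Y + 4)) * B * (|x - x'| + |y - y'|) := by
  obtain ⟨a1, a2⟩ := hW.sx x y h1
  obtain ⟨a3, a4⟩ := hW.sy x y h1
  obtain ⟨b1, b2⟩ := hW.sx x' y' h2
  obtain ⟨b3, b4⟩ := hW.sy x' y' h2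
  have e1 : c * (x * y) - c * (x' * y') = c * ((x - x') * y + x' * (y - y')) := by ring
  have h3 : |c * (x * y) - c * (x' * y')| ≤ c * (Y + 4) * (|x - x'| + |y - y'|) := by
    rw [e1, abs_mul, abs_of_nonneg hc, mul_assoc]
    refine mul_le_mul_of_nonneg_left ?_ hc
    refine (abs_add_le _ _).trans ?_
    rw [abs_mul, abs_mul, abs_of_nonneg a3, abs_of_nonneg (by linarith : 0 ≤ x')]
    have q1 : |x - x'| * y ≤ |x - x'| * Y := mul_le_mul_of_nonneg_left a4 (abs_nonneg _)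
    have q2 : x' * |y - y'| ≤ 4 * |y - y'| := mul_le_mul_of_nonneg_right b2 (abs_nonneg _)
    have q3 : 0 ≤ 4 * |x - x'| := by positivity
    have q4 : 0 ≤ Y * |y - y'| := by positivity
    linarith
  have h4 : |φ (c * (x * y)) - φ (c * (x' * y'))| ≤
      La * (c * (Y + 4) * (|x - x'| + |y - y'|)) :=
    (hφ.lip _ _).trans (mul_le_mul_of_nonneg_left h3 hLa)
  have h5 : |φ (c * (x * y)) - φ (c * (x' * y'))| * W x y ≤
      La * (c * (Y + 4) * (|x - x'| + |y - y'|)) * B :=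
    mul_le_mul h4 (hW.le x y) (hW.nn x y) (by positivity)
  refine h5.trans (le_of_eq ?_)
  ring

theorem GW_Whs {φ ψ : ℝ → ℝ} {a k : ℕ} {La L : ℝ} (hφ : PW φ a La) (hψ : PW ψ k L) (S s : ℕ) {u : ℝ}
    (h1 : 4 / 5 ≤ u) (h2 : u ≤ 1) :
    ∃ B L' : ℝ, 0 ≤ B ∧ 0 ≤ L' ∧ GW (Whs φ ψ S s u) (2 ^ (k + 1)) B L' := by
  obtain ⟨B, L', hB, hL', hW⟩ := GW_Wps hψ
  have hLa : 0 ≤ La := by
    have h3 := hφ.lip 0 1
    have h4 := (abs_nonneg (φ 0 - φ 1)).trans h3
    norm_num at h4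
    exact h4
  obtain ⟨c, hc⟩ : ∃ c : ℝ, c = 4 ^ s / (4 ^ S * u) := ⟨_, rfl⟩
  have hu : 0 < u := by linarith
  have hc0 : 0 ≤ c := by
    rw [hc]
    positivity
  have hY : (0 : ℝ) ≤ 2 ^ (k + 1) := by positivity
  have he : ∀ x y, Whs φ ψ S s u x y = φ (c * (x * y)) * Wps ψ x y := by
    intro x y
    rw [WK_eq, hc]
  have hz : ∀ x y, Whs φ ψ S s u x y ≠ 0 → Wps ψ x y ≠ 0 := by
    intro x y h0 h3
    apply h0
    rw [he, h3, mul_zero]
  refine ⟨B, La * (c * (2 ^ (k + 1) + 4)) * B + L', hB, by positivity, ⟨?_, ?_, ?_, ?_, ?_, ?_⟩⟩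
  · intro x y
    rw [he]
    exact mul_nonneg (hφ.nn _) (hW.nn _ _)
  · intro x y
    rw [he]
    exact (mul_le_of_le_one_left (hW.nn _ _) (hφ.le _)).trans (hW.le _ _)
  · intro x y hy
    rw [he]
    exact (mul_le_of_le_one_left (hW.nn _ _) (hφ.le _)).trans (hW.ley _ _ hy)
  · intro x y h0
    exact hW.sx _ _ (hz x y h0)
  · intro x y h0
    exact hW.sy _ _ (hz x y h0)
  · intro x y x' y'
    have hd0 : 0 ≤ |x - x'| + |y - y'| := by positivity
    have hd1 : 0 ≤ La * (c * (2 ^ (k + 1) + 4)) * B * (|x - x'| + |y - y'|) := by positivity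
    have hl := hW.lip x y x' y'
    rw [he, he, add_mul]
    by_cases g1 : Wps ψ x y = 0
    · rw [g1, zero_sub, abs_neg, abs_of_nonneg (hW.nn _ _)] at hl
      rw [g1, mul_zero, zero_sub, abs_neg, abs_of_nonneg (mul_nonneg (hφ.nn _) (hW.nn _ _))]
      have := mul_le_of_le_one_left (hW.nn x' y') (hφ.le (c * (x' * y')))
      linarith
    · by_cases g2 : Wps ψ x' y' = 0
      · rw [g2, sub_zero, abs_of_nonneg (hW.nn _ _)] at hl
        rw [g2, mul_zero, sub_zero, abs_of_nonneg (mul_nonneg (hφ.nn _) (hW.nn _ _))]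
        have := mul_le_of_le_one_left (hW.nn x y) (hφ.le (c * (x * y)))
        linarith
      · have e : φ (c * (x * y)) * Wps ψ x y - φ (c * (x' * y')) * Wps ψ x' y' =
            (φ (c * (x * y)) - φ (c * (x' * y'))) * Wps ψ x y +
              φ (c * (x' * y')) * (Wps ψ x y - Wps ψ x' y') := by ring
        rw [e]
        refine (abs_add_le _ _).trans ?_
        rw [abs_mul, abs_mul, abs_of_nonneg (hW.nn x y), abs_of_nonneg (hφ.nn _)]
        have q1 := WK_one hφ hLa hY hW hc0 g1 g2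
        have q2 : φ (c * (x' * y')) * |Wps ψ x y - Wps ψ x' y'| ≤
            L' * (|x - x'| + |y - y'|) :=
          (mul_le_of_le_one_left (abs_nonneg _) (hφ.le _)).trans hl
        linarith

theorem Whs_supp {φ ψ : ℝ → ℝ} {k : ℕ} {L : ℝ} (hψ : PW ψ k L) {S s : ℕ} {u x y : ℝ}
    (h : Whs φ ψ S s u x y ≠ 0) : (1 / 2 ≤ x ∧ x ≤ 2) ∧ 1 / 2 ^ (k + 1) ≤ y := by
  unfold Whs at h
  have h1 : hh x ≠ 0 := by
    intro h0
    apply h
    rw [h0]
    ring
  have h2 : ψ (x / y) ≠ 0 := by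
    intro h0
    apply h
    rw [h0]
    ring
  obtain ⟨h3, h4⟩ := hh_supp h1
  obtain ⟨h5, h6⟩ := hψ.sp _ h2
  refine ⟨⟨h3.le, h4.le⟩, ?_⟩
  have hxy0 : 0 < x / y := lt_of_lt_of_le (by positivity) h5
  have hy : 0 < y := by
    rcases div_pos_iff.1 hxy0 with h7 | h7
    · exact h7.2
    · linarith [h7.1]
  rw [div_le_iff₀ hy] at h6
  rw [div_le_iff₀ (by positivity), pow_succ]
  linarith

private theorem WK_inv (n : ℕ) : (1 : ℝ) / 2 ^ n ≤ 2 ^ (n + 1) := by
  have h1 : (1 : ℝ) ≤ 2 ^ n := one_le_pow₀ (by norm_num)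
  rw [div_le_iff₀ (by positivity), pow_succ]
  nlinarith

theorem PW_tz (a : ℕ) : PW (tz a) (a + 2) (2 ^ (a + 2)) := by
  have hp : (0 : ℝ) < 2 ^ (a + 2) := by positivity
  have hp1 : (0 : ℝ) < 2 ^ (a + 1) := by positivity
  have hpe : (2 : ℝ) ^ (a + 2) = 2 ^ (a + 1) * 2 := pow_succ _ _
  refine ⟨fun x => le_max_left _ _, fun x => max_le zero_le_one (min_le_left _ _), ?_, ?_⟩
  · intro x hx
    constructor
    · by_contra h1
      push Not at h1
      apply hx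
      unfold tz
      apply max_eq_left
      refine (min_le_right _ _).trans ((min_le_left _ _).trans ?_)
      rw [lt_div_iff₀ hp] at h1
      linarith
    · by_contra h1
      push Not at h1
      apply hx
      unfold tz
      apply max_eq_left
      refine (min_le_right _ _).trans ((min_le_right _ _).trans ?_)
      have h2 : 2 ≤ x / 2 ^ (a + 1) := by
        rw [le_div_iff₀ hp1]
        linarith
      linarith
  · intro x y
    have h0 : 0 ≤ |x - y| := abs_nonneg _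
    unfold tz
    refine (abs_max_sub_max_le_max _ _ _ _).trans (max_le ?_ ?_)
    · rw [sub_self, abs_zero]
      positivity
    · refine (abs_min_sub_min_le_max _ _ _ _).trans (max_le ?_ ?_)
      · rw [sub_self, abs_zero]
        positivity
      · refine (abs_min_sub_min_le_max _ _ _ _).trans (max_le ?_ ?_)
        · have e : (2 : ℝ) ^ (a + 2) * x - 1 - (2 ^ (a + 2) * y - 1) = 2 ^ (a + 2) * (x - y) := by ring
          rw [e, abs_mul, abs_of_pos hp]
        · have e : 2 - x / 2 ^ (a + 1) - (2 - y / 2 ^ (a + 1)) = -((1 / 2 ^ (a + 1)) * (x - y)) := by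
            ring
          rw [e, abs_neg, abs_mul, abs_of_pos (by positivity : (0 : ℝ) < 1 / 2 ^ (a + 1))]
          exact mul_le_mul_of_nonneg_right (WK_inv (a + 1)) h0

theorem tz_one {a : ℕ} {x : ℝ} (h1 : 1 / 2 ^ (a + 1) ≤ x) (h2 : x ≤ 2 ^ (a + 1)) : tz a x = 1 := by
  have hp1 : (0 : ℝ) < 2 ^ (a + 1) := by positivity
  have hpe : (2 : ℝ) ^ (a + 2) = 2 ^ (a + 1) * 2 := pow_succ _ _
  unfold tz
  have h3 : 1 ≤ (2 : ℝ) ^ (a + 2) * x - 1 := by
    rw [div_le_iff₀ hp1] at h1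
    rw [hpe]
    linarith
  have h4 : 1 ≤ 2 - x / 2 ^ (a + 1) := by
    have : x / 2 ^ (a + 1) ≤ 1 := div_le_one_of_le₀ h2 hp1.le
    linarith
  rw [min_eq_left (le_min h3 h4), max_eq_right zero_le_one]

end Pool.Agent.Lib.MP_d57abb_nt.AS
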