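import Pool.Agent.Lib.MP_d57abb_nt.AS.Mass
import Pool.Agent.Lib.MP_d57abb_nt.AS.DilK
import Pool.Agent.Lib.MP_d57abb_nt.AS.WK
import Pool.Agent.Lib.MP_d57abb_nt.TA.Tree

/-!
# JOB ConvK: the sum at one scale as a finite combination of product weights (about 300 lines)

`S = a + k + 1`, `J = j + S`.  For a pair `x = (v, w)` of the quadrant, `dt v w = p`, put `r = ll v / ll w`, `r' = nm v / kk`, `κ = kk / 4^J`, `λ = ll v ll w / 4^J`, `μ = mu1 v ∈ [4/5, 1]`.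
Coefficients: `W₁ = φ κ ψ r' / kk`; `W₂ = ∑_l ∑_s gl M l μ Whs φ ψ S s (ul M l) (ll v / 2^(j+s)) (ll w / 2^(j+s)) / 4^(j+s)`.
(1) `Whs (..) / 4^(j+s) = hh (ll v / 2^(j+s)) φ (λ / ul M l) ψ r / (ll v ll w)` (field_simp; `4^s / 4^(j+s) / 4^S = 1 / 4^J`).  When `φ (λ / u) ψ r ≠ 0` (`4/5 ≤ u ≤ 1`): `λ ∈ [(4/5) 2^(-a), 2^a]`, `r ∈ [2^(-k), 2^k]`, `(ll v)² = λ r 4^J ∈ [4^(-S) 4^J, 4^S 4^J]`, so `2^j ≤ ll v ≤ 2^(j+2S)` and
`∑_{s ≤ 2 S} hh (ll v / 2^(j+s)) = 1` (`hh_sum` with `x = ll v / 2^j`).  `min 1 (max 0 μ) = μ`.  So `W₂ = (μ / (ll v ll w)) ψ r ∑_l tl M l μ φ (λ / ul M l)`.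
(2) `kk_nm`: `nm v * ll w - ll v * kk = (v.1 + 2 v.2) p`, `0 ≤ v.1 + 2 v.2 ≤ 2 ll v`.  So `|kk - ll v ll w / μ| ≤ 2 p` (as `nm v = (ll v)² / μ`), `|r' - r| ≤ 2 p ll v / (kk ll w)`.
(3) Let `4^J ≥ C p` (`C = C(a, k)` large).  If `W₁ ≠ 0` or `W₂ ≠ 0` (some term): `κ ∈ [2^(-a-1), 2^(a+1)]`, `r' ∈ [2^(-k-1), 2^(k+1)]` (from (2); if `W₁ ≠ 0` they are in the smaller intervals), `ll w ≥ c 2^J`, `ll v ≤ C 2^J`, so `tz a κ = tz k r' = 1` (`tz_one`).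
`|φ κ - φ (λ / u_l)| ≤ La (|κ - λ / μ| + λ |1/μ - 1/u_l|) ≤ C (p / 4^J + 1 / M)` when `tl M l μ ≠ 0` (`tl_supp`), `∑_l tl M l μ = 1` (`tl_sum`); `|ψ r' - ψ r| ≤ C p / 4^J`; `|1/kk - μ / (ll v ll w)| ≤ C (p / 4^J) / kk`.
So `|W₁ - W₂| ≤ C' (1 / M + p / 4^J) tz a κ tz k r' / kk` in all cases (`C'` depends on `a, k, La, L` only).
(4) All nonzero terms of all the sums `GP` (`ll v ≤ 2 · 2^(j+s)`, `ll w ≤ 2^(k+1) 2^(j+s)`) and of `GK` (as in `DilK`) are in the box `2^(a+k+9+J)` and in the box of the sum they belong to, so the difference is `p ∑ (W₁ - W₂) aa aa` over `pr (2^(a+k+9+J)) p`, `Ip`, `Ip`, of norm (`norm_aa`)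
`≤ C' (1/M + p/4^J) p GK (tz a) (tz k) 1 (a+k+9) p J = C' (1/M + p/4^J) SK (a+2) (tz a) (tz k) 1 (4^J / p) ≤ C' C'' (1/M + p / 4^J)` (`dilK` with `PW_tz`, `z = 1`, needs `2^(a+2) p² < 4^J` and `(a+2)+(k+2)+2 ≤ a+k+9`; `SK_bdd`; the sums for `z = 1` are nonnegative reals).
Choose `M₀` with `C' C'' / M₀ ≤ ε / 2`, then `j₀` depending on `p`.
-/

namespace Pool.Agent.Lib.MP_d57abb_nt.AS

open Finset Pool.Agent.Lib.MP_d57abb_nt Pool.Agent.Lib.MP_d57abb_nt.TA Pool.Agent.Lib.MP_d57abb_nt.TZ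

/-- data of a pair of determinant `p`, real numbers -/
private structure ConvK_D (lv lw n κ t p : ℝ) : Prop where
  v : 0 < lv
  w : 0 < lw
  n1 : lv ^ 2 ≤ n
  n2 : 4 * n ≤ 5 * lv ^ 2
  k0 : 0 ≤ κ
  e : n * lw - lv * κ = t * p
  t0 : 0 ≤ t
  t1 : t ≤ 2 * lv
  p0 : 0 ≤ p

private theorem ConvK_D.n0 {lv lw n κ t p : ℝ} (D : ConvK_D lv lw n κ t p) : 0 < n :=
  lt_of_lt_of_le (pow_pos D.v 2) D.n1

private theorem ConvK_D.up {lv lw n κ t p : ℝ} (D : ConvK_D lv lw n κ t p) : lv * κ ≤ n * lw := by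
  have := mul_nonneg D.t0 D.p0
  linarith [D.e]

private theorem ConvK_D.lo {lv lw n κ t p : ℝ} (D : ConvK_D lv lw n κ t p) : n * lw ≤ lv * (κ + 2 * p) := by
  have := mul_le_mul_of_nonneg_right D.t1 D.p0
  linarith [D.e]

private theorem ConvK_D.lo' {lv lw n κ t p : ℝ} (D : ConvK_D lv lw n κ t p) : lv * lw ≤ κ + 2 * p := by
  have h1 : lv * (lv * lw) ≤ lv * (κ + 2 * p) := by
    refine le_trans ?_ D.lo
    have := mul_le_mul_of_nonneg_right D.n1 D.w.le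
    linarith
  exact le_of_mul_le_mul_left h1 D.v

private theorem ConvK_B {lv lw n κ t p A K E u : ℝ} (D : ConvK_D lv lw n κ t p) (hA : 1 ≤ A) (hK : 1 ≤ K)
    (hE : 0 < E) (hp : 8 * A * p ≤ E) (hu : 4 / 5 ≤ u) (hu' : u ≤ 1)
    (h1 : 1 / A ≤ lv * lw / E / u ∧ lv * lw / E / u ≤ A) (h2 : 1 / K ≤ lv / lw ∧ lv / lw ≤ K) :
    E ≤ 2 * A * κ ∧ κ ≤ 2 * A * E ∧ κ ≤ 2 * K * n ∧ n ≤ 2 * K * κ ∧ lv ^ 2 ≤ K * A * E ∧
      4 / 5 * E ≤ K * A * lv ^ 2 := by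
  have hA0 : 0 < A := by linarith
  have hK0 : 0 < K := by linarith
  have hu0 : 0 < u := by linarith
  have hv := D.v
  have hw := D.w
  have a1 : u * E ≤ A * (lv * lw) := by
    have := h1.1
    rw [div_div, div_le_div_iff₀ hA0 (by positivity)] at this
    linarith
  have a2 : lv * lw ≤ A * (u * E) := by
    have := h1.2
    rw [div_div, div_le_iff₀ (by positivity)] at this
    linarith
  have a3 : lw ≤ K * lv := by
    have := h2.1
    rw [div_le_div_iff₀ hK0 hw] at this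
    linarith
  have a4 : lv ≤ K * lw := by
    have := h2.2
    rw [div_le_iff₀ hw] at this
    exact this
  have a5 : A * (u * E) ≤ A * E := by
    refine mul_le_mul_of_nonneg_left ?_ hA0.le
    nlinarith
  have a6 : 4 / 5 * E ≤ u * E := mul_le_mul_of_nonneg_right hu hE.le
  have c1 : E ≤ 2 * A * κ := by
    have := mul_le_mul_of_nonneg_left D.lo' hA0.le
    nlinarith
  have c2 : κ ≤ 2 * A * E := by
    have h3 : lv * κ ≤ lv * (5 / 4 * (lv * lw)) := by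
      refine D.up.trans ?_
      have := mul_le_mul_of_nonneg_right D.n2 D.w.le
      linarith
    have h4 := le_of_mul_le_mul_left h3 hv
    have h5 : 0 < A * E := by positivity
    linarith
  have hn := D.n0
  have c3 : κ ≤ 2 * K * n := by
    have h3 : lv * κ ≤ lv * (K * n) := by
      refine D.up.trans ?_
      have := mul_le_mul_of_nonneg_left a3 hn.le
      linarith
    have h4 := le_of_mul_le_mul_left h3 hv
    have h5 : 0 < K * n := by positivity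
    linarith
  have c4 : n ≤ 2 * K * κ := by
    have h6 : 4 * p ≤ κ := by
      have : A * (4 * p) ≤ A * κ := by linarith
      exact le_of_mul_le_mul_left this hA0
    have h3 : lw * n ≤ lw * (K * (κ + 2 * p)) := by
      have h7 : 0 ≤ κ + 2 * p := by linarith [D.k0, D.p0]
      have := mul_le_mul_of_nonneg_right a4 h7
      linarith [D.lo]
    have h4 := le_of_mul_le_mul_left h3 hw
    have h5 : K * (κ + 2 * p) ≤ K * (2 * κ) := mul_le_mul_of_nonneg_left (by linarith [D.p0]) hK0.le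
    linarith
  refine ⟨c1, c2, c3, c4, ?_, ?_⟩
  · have h3 : lv * lv ≤ lv * (K * lw) := mul_le_mul_of_nonneg_left a4 hv.le
    have h4 : K * (lv * lw) ≤ K * (A * E) := mul_le_mul_of_nonneg_left (by linarith) hK0.le
    nlinarith
  · have h3 : lv * lw ≤ lv * (K * lv) := mul_le_mul_of_nonneg_left a3 hv.le
    have h4 : A * (lv * lw) ≤ A * (lv * (K * lv)) := mul_le_mul_of_nonneg_left h3 hA0.le
    nlinarith

private theorem ConvK_lam {lv lw n κ t p A E u M : ℝ} (D : ConvK_D lv lw n κ t p) (hA : 1 ≤ A)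
    (hE : 0 < E) (hM : 0 < M) (hp : 8 * A * p ≤ E) (hu : 4 / 5 ≤ u) (hk : κ ≤ 2 * A * E)
    (hm : |lv ^ 2 / n - u| ≤ 1 / (5 * M)) :
    |κ / E - lv * lw / E / u| ≤ 2 * A * (p / E + 1 / M) := by
  have hA0 : 0 < A := by linarith
  have hu0 : 0 < u := by linarith
  have hv := D.v
  have hw := D.w
  have hn := D.n0
  have hp0 := D.p0
  have e1 : κ / E - lv * lw / E / u = (κ - n * lw / lv) / E +
      (lv * lw) * ((u - lv ^ 2 / n) * (n / lv ^ 2) * (1 / u)) / E := by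
    field_simp
    ring
  have b1 : |(κ - n * lw / lv) / E| ≤ 2 * p / E := by
    have e2 : κ - n * lw / lv = -(t * p / lv) := by
      rw [← D.e]
      field_simp
      ring
    rw [e2, abs_div, abs_neg, abs_of_pos hE, abs_of_nonneg (div_nonneg (mul_nonneg D.t0 hp0) hv.le)]
    refine div_le_div_of_nonneg_right ?_ hE.le
    rw [div_le_iff₀ hv]
    have := mul_le_mul_of_nonneg_right D.t1 hp0
    linarith
  have b2 : |(lv * lw) * ((u - lv ^ 2 / n) * (n / lv ^ 2) * (1 / u)) / E| ≤ A / M := by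
    have h1 : n / lv ^ 2 ≤ 5 / 4 := by
      rw [div_le_iff₀ (by positivity)]
      linarith [D.n2]
    have h2 : 1 / u ≤ 5 / 4 := by
      rw [div_le_iff₀ hu0]
      linarith
    have h3 : lv * lw ≤ 9 / 4 * (A * E) := by
      have h4 := D.lo'
      have h5 : 8 * p ≤ 8 * (A * p) := by nlinarith
      have h6 : E ≤ A * E := by nlinarith
      linarith
    rw [abs_div, abs_of_pos hE, abs_mul (lv * lw), abs_of_pos (mul_pos hv hw), abs_mul, abs_mul,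
      abs_of_pos (div_pos hn (pow_pos hv 2)), abs_of_pos (div_pos one_pos hu0), abs_sub_comm]
    calc lv * lw * (|lv ^ 2 / n - u| * (n / lv ^ 2) * (1 / u)) / E
        ≤ (9 / 4 * (A * E)) * ((1 / (5 * M)) * (5 / 4) * (5 / 4)) / E := by
          gcongr
      _ = (45 / 64) * (A / M) := by
          field_simp
          ring
      _ ≤ A / M := by
          have : 0 < A / M := by positivity
          linarith
  rw [e1]
  refine (abs_add_le _ _).trans ((add_le_add b1 b2).trans ?_)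
  have h7 : 0 ≤ p / E := by positivity
  have h8 : 0 < A / M := by positivity
  have h9 : p / E ≤ A * (p / E) := by nlinarith
  have e3 : 2 * A * (p / E + 1 / M) = 2 * (A * (p / E)) + 2 * (A / M) := by ring
  have e4 : 2 * p / E = 2 * (p / E) := by ring
  rw [e3, e4]
  linarith

private theorem ConvK_C {lv lw n κ t p A K E M f F g' g La L : ℝ} (D : ConvK_D lv lw n κ t p) (hA : 1 ≤ A)
    (hE : 0 < E) (hM : 0 < M) (hK : 1 ≤ K) (hL : 0 ≤ L) (hF0 : 0 ≤ F) (hF1 : F ≤ 1)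
    (hg0' : 0 ≤ g') (hg1' : g' ≤ 1) (hg0 : 0 ≤ g) (hg1 : g ≤ 1)
    (hk : E ≤ 2 * A * κ) (hn : n ≤ 2 * K * κ) (h1 : |f - F| ≤ La * (2 * A * (p / E + 1 / M)))
    (h2 : |g' - g| ≤ L * |n / κ - lv / lw|) :
    |f * g' / κ - lv ^ 2 / n / (lv * lw) * g * F| ≤
      (2 * A * La + 8 * L * K * A + 4 * A) * (1 / M + p / E) * (1 / κ) := by
  have hA0 : 0 < A := by linarith
  have hK0 : 0 < K := by linarith
  have hv := D.v
  have hw := D.w
  have hn0 := D.n0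
  have hp0 := D.p0
  have ht0 := D.t0
  have hκ : 0 < κ := by
    have : 0 < 2 * A * κ := lt_of_lt_of_le hE hk
    exact (mul_pos_iff_of_pos_left (by positivity)).1 this
  have pk : p / κ ≤ 2 * A * (p / E) := by
    rw [mul_div_assoc', div_le_div_iff₀ hκ hE]
    have := mul_le_mul_of_nonneg_right hk hp0
    linarith
  have rr : lv / lw ≤ n / κ := by
    rw [div_le_div_iff₀ hw hκ]
    linarith [D.up]
  have rK : lv / lw ≤ 2 * K := rr.trans (by rw [div_le_iff₀ hκ]; exact hn)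
  have e1 : n / κ - lv / lw = t * p / (κ * lw) := by
    rw [← D.e]
    field_simp
  have h3 : |n / κ - lv / lw| ≤ 8 * K * A * (p / E) := by
    rw [e1, abs_of_nonneg (by positivity)]
    calc t * p / (κ * lw) ≤ (2 * lv) * p / (κ * lw) := by
          have := D.t1
          gcongr
      _ = 2 * (lv / lw) * (p / κ) := by
          field_simp
      _ ≤ 2 * (2 * K) * (2 * A * (p / E)) := by
          gcongr
      _ = 8 * K * A * (p / E) := by ring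
  have e2 : 1 / κ - lv ^ 2 / n / (lv * lw) = t * p / (κ * (n * lw)) := by
    rw [← D.e]
    field_simp
  have h4 : |1 / κ - lv ^ 2 / n / (lv * lw)| ≤ (4 * A * (p / E)) * (1 / κ) := by
    rw [e2, abs_of_nonneg (by positivity)]
    calc t * p / (κ * (n * lw)) ≤ (2 * lv) * p / (κ * (n * lw)) := by
          have := D.t1
          gcongr
      _ ≤ (2 * lv) * p / (κ * (lv * κ)) := by
          have := D.up
          gcongr
      _ = 2 * (p / κ) * (1 / κ) := by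
          field_simp
      _ ≤ 2 * (2 * A * (p / E)) * (1 / κ) := by
          gcongr
      _ = (4 * A * (p / E)) * (1 / κ) := by ring
  have e3 : f * g' / κ - lv ^ 2 / n / (lv * lw) * g * F =
      (f - F) * g' * (1 / κ) + F * (g' - g) * (1 / κ) + F * g * (1 / κ - lv ^ 2 / n / (lv * lw)) := by
    ring
  have hκ' : 0 ≤ 1 / κ := by positivity
  have k1 : |(f - F) * g' * (1 / κ)| ≤ La * (2 * A * (p / E + 1 / M)) * (1 / κ) := by
    rw [abs_mul, abs_mul, abs_of_nonneg hg0', abs_of_nonneg hκ']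
    refine mul_le_mul_of_nonneg_right ?_ hκ'
    exact (mul_le_of_le_one_right (abs_nonneg _) hg1').trans h1
  have k2 : |F * (g' - g) * (1 / κ)| ≤ L * (8 * K * A * (p / E)) * (1 / κ) := by
    rw [abs_mul, abs_mul, abs_of_nonneg hF0, abs_of_nonneg hκ']
    refine mul_le_mul_of_nonneg_right ?_ hκ'
    refine (mul_le_of_le_one_left (abs_nonneg _) hF1).trans (h2.trans ?_)
    exact mul_le_mul_of_nonneg_left h3 hL
  have k3 : |F * g * (1 / κ - lv ^ 2 / n / (lv * lw))| ≤ (4 * A * (p / E)) * (1 / κ) := by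
    rw [abs_mul, abs_of_nonneg (mul_nonneg hF0 hg0)]
    exact (mul_le_of_le_one_left (abs_nonneg _) (mul_le_one₀ hF1 hg0 hg1)).trans h4
  rw [e3]
  refine (abs_add_le _ _).trans ((add_le_add ((abs_add_le _ _).trans (add_le_add k1 k2)) k3).trans ?_)
  have hpE : 0 ≤ p / E := by positivity
  have hM' : 0 ≤ 1 / M := by positivity
  have e5 : La * (2 * A * (p / E + 1 / M)) * (1 / κ) + L * (8 * K * A * (p / E)) * (1 / κ) +
      (4 * A * (p / E)) * (1 / κ) = (La * (2 * A * (p / E + 1 / M)) + L * (8 * K * A * (p / E)) +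
      4 * A * (p / E)) * (1 / κ) := by ring
  rw [e5]
  refine mul_le_mul_of_nonneg_right ?_ hκ'
  have h5 : 0 ≤ L * (8 * K * A * (1 / M)) := by positivity
  have h6 : 0 ≤ 4 * A * (1 / M) := by positivity
  linarith

/-- comparison of the angular weights -/
private theorem ConvK_Phi {lv lw n κ t p A E La : ℝ} {M a : ℕ} {φ : ℝ → ℝ} (D : ConvK_D lv lw n κ t p)
    (hφ : PW φ a La) (hA : 1 ≤ A) (hE : 0 < E) (hM : 1 ≤ M) (hp : 8 * A * p ≤ E) (hk : κ ≤ 2 * A * E)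
    (hLa : 0 ≤ La) :
    |φ (κ / E) - ∑ l ∈ range (M + 1), tl M l (lv ^ 2 / n) * φ (lv * lw / E / ul M l)| ≤
      La * (2 * A * (p / E + 1 / M)) := by
  have hn := D.n0
  have m1 : 4 / 5 ≤ lv ^ 2 / n := by
    rw [le_div_iff₀ hn]
    linarith [D.n2]
  have m2 : lv ^ 2 / n ≤ 1 := by
    rw [div_le_one hn]
    exact D.n1
  have hM0 : (0 : ℝ) < M := by exact_mod_cast hM
  have e1 : φ (κ / E) - ∑ l ∈ range (M + 1), tl M l (lv ^ 2 / n) * φ (lv * lw / E / ul M l) =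
      ∑ l ∈ range (M + 1), tl M l (lv ^ 2 / n) * (φ (κ / E) - φ (lv * lw / E / ul M l)) := by
    simp only [mul_sub]
    rw [Finset.sum_sub_distrib, ← Finset.sum_mul, tl_sum hM m1 m2, one_mul]
  rw [e1]
  have h1 : ∀ l ∈ range (M + 1), |tl M l (lv ^ 2 / n) * (φ (κ / E) - φ (lv * lw / E / ul M l))| ≤
      tl M l (lv ^ 2 / n) * (La * (2 * A * (p / E + 1 / M))) := by
    intro l hl
    rw [mem_range] at hl
    rw [abs_mul, abs_of_nonneg (tl_nonneg M l _)]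
    by_cases h0 : tl M l (lv ^ 2 / n) = 0
    · rw [h0, zero_mul, zero_mul]
    · refine mul_le_mul_of_nonneg_left ?_ (tl_nonneg M l _)
      refine (hφ.lip _ _).trans (mul_le_mul_of_nonneg_left ?_ hLa)
      exact ConvK_lam D hA hE hM0 hp (ul_bounds hM (by omega)).1 hk (tl_supp hM h0)
  refine (Finset.abs_sum_le_sum_abs _ _).trans ((Finset.sum_le_sum h1).trans (le_of_eq ?_))
  rw [← Finset.sum_mul, tl_sum hM m1 m2, one_mul]

private theorem ConvK_Phi01 {lv lw n κ t p E La : ℝ} {M a : ℕ} {φ : ℝ → ℝ} (D : ConvK_D lv lw n κ t p)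
    (hφ : PW φ a La) (hM : 1 ≤ M) :
    0 ≤ ∑ l ∈ range (M + 1), tl M l (lv ^ 2 / n) * φ (lv * lw / E / ul M l) ∧
    ∑ l ∈ range (M + 1), tl M l (lv ^ 2 / n) * φ (lv * lw / E / ul M l) ≤ 1 := by
  have hn := D.n0
  have m1 : 4 / 5 ≤ lv ^ 2 / n := by
    rw [le_div_iff₀ hn]
    linarith [D.n2]
  have m2 : lv ^ 2 / n ≤ 1 := by
    rw [div_le_one hn]
    exact D.n1
  constructor
  · exact Finset.sum_nonneg fun l _ => mul_nonneg (tl_nonneg M l _) (hφ.nn _)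
  · rw [← tl_sum hM m1 m2]
    exact Finset.sum_le_sum fun l _ => mul_le_of_le_one_right (tl_nonneg M l _) (hφ.le _)

private theorem ConvK_four (j : ℕ) : (4 : ℝ) ^ j = (2 ^ j) ^ 2 := by
  rw [← pow_mul, mul_comm, pow_mul]
  norm_num

/-- one weight -/
private theorem ConvK_Whs (φ ψ : ℝ → ℝ) (S s j : ℕ) {u lv lw : ℝ} :
    Whs φ ψ S s u (lv / 2 ^ (j + s)) (lw / 2 ^ (j + s)) / 4 ^ (j + s) =
      hh (lv / 2 ^ j / 2 ^ s) * (φ (lv * lw / 4 ^ (j + S) / u) * ψ (lv / lw) / (lv * lw)) := by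
  have hX : (0 : ℝ) < 2 ^ (j + s) := by positivity
  have e1 : (4 : ℝ) ^ s * (lv / 2 ^ (j + s)) * (lw / 2 ^ (j + s)) / (4 ^ S * u) = lv * lw / 4 ^ (j + S) / u := by
    rw [pow_add 4 j S, div_div, pow_add 2 j s, ConvK_four s, ConvK_four j]
    have h1 : (0 : ℝ) < 2 ^ j := by positivity
    have h2 : (0 : ℝ) < 2 ^ s := by positivity
    have h3 : (4 : ℝ) ^ s * (lv / (2 ^ j * 2 ^ s)) * (lw / (2 ^ j * 2 ^ s)) = lv * lw / (2 ^ j) ^ 2 := by
      rw [ConvK_four s]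
      field_simp
    rw [ConvK_four s] at h3
    rw [h3, div_div, mul_assoc]
  unfold Whs
  rw [e1, div_div_div_cancel_right₀ hX.ne', ConvK_four (j + s), div_div, div_div]
  have e2 : lv / 2 ^ (j + s) * (lw / 2 ^ (j + s)) * (2 ^ (j + s)) ^ 2 = lv * lw := by
    field_simp
  have e3 : lv / 2 ^ (j + s) = lv / 2 ^ j / 2 ^ s := by rw [div_div, pow_add]
  rw [e2, e3]
  ring

private noncomputable def ConvK_W1 (φ ψ : ℝ → ℝ) (J : ℕ) (x : (ℤ × ℤ) × (ℤ × ℤ)) : ℝ :=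
  φ (kk x.1 x.2 / 4 ^ J) * ψ (nm x.1 / kk x.1 x.2) / kk x.1 x.2

private noncomputable def ConvK_W2 (φ ψ : ℝ → ℝ) (M S j : ℕ) (x : (ℤ × ℤ) × (ℤ × ℤ)) : ℝ :=
  ∑ l ∈ range (M + 1), ∑ s ∈ range (2 * S + 1), gl M l (mu1 x.1) *
    Whs φ ψ S s (ul M l) (ll x.1 / 2 ^ (j + s)) (ll x.2 / 2 ^ (j + s)) / 4 ^ (j + s)

private theorem ConvK_mem {N : ℕ} {p : ℕ} (hp : 0 < p) {x : (ℤ × ℤ) × (ℤ × ℤ)} (hx : x ∈ pr N p) :
    Qd x.1 ∧ Qd x.2 ∧ dt x.1 x.2 = p := by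
  unfold pr at hx
  rw [Finset.mem_filter, Finset.mem_product] at hx
  obtain ⟨⟨h1, h2⟩, h3⟩ := hx
  have hp' : (0 : ℤ) < p := by exact_mod_cast hp
  unfold Bx at h1 h2
  rw [Finset.mem_product, Finset.mem_Icc, Finset.mem_Icc] at h1 h2
  refine ⟨⟨h1.1.1, h1.2.1, ?_⟩, ⟨h2.1.1, h2.2.1, ?_⟩, h3⟩
  · intro h0
    rw [h0] at h3
    unfold dt at h3
    simp at h3
    omega
  · intro h0
    rw [h0] at h3
    unfold dt at h3
    simp at h3
    omega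

private theorem ConvK_data {N : ℕ} {p : ℕ} (hp : 0 < p) {x : (ℤ × ℤ) × (ℤ × ℤ)} (hx : x ∈ pr N p) :
    ∃ t : ℝ, ConvK_D (ll x.1) (ll x.2) (nm x.1) (kk x.1 x.2) t p := by
  obtain ⟨h1, h2, h3⟩ := ConvK_mem hp hx
  obtain ⟨n1, n2⟩ := nm_bounds h1
  have hk := kk_nn h1 h2
  have e : nm x.1 * ll x.2 - ll x.1 * kk x.1 x.2 = (x.1.1 + 2 * x.1.2) * dt x.1 x.2 := by
    unfold nm ll kk dt
    ring
  rw [h3] at e
  have a1 := h1.1
  have a2 := h1.2.1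
  have h4 : 0 ≤ x.1.1 + 2 * x.1.2 := by omega
  have h5 : x.1.1 + 2 * x.1.2 ≤ 2 * ll x.1 := by
    unfold ll
    omega
  exact ⟨((x.1.1 + 2 * x.1.2 : ℤ) : ℝ), ⟨by exact_mod_cast h1.ll_pos, by exact_mod_cast h2.ll_pos,
    by exact_mod_cast n1, by exact_mod_cast n2, by exact_mod_cast hk, by exact_mod_cast e,
    by exact_mod_cast h4, by exact_mod_cast h5, Nat.cast_nonneg p⟩⟩

/-- the second weight -/
private theorem ConvK_W2_eq {φ ψ : ℝ → ℝ} {a k : ℕ} {La L : ℝ} (hφ : PW φ a La) (hψ : PW ψ k L) {M : ℕ}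
    (hM : 1 ≤ M) {N p j : ℕ} (hp : 0 < p) (hj : 8 * 2 ^ a * (p : ℝ) ≤ 4 ^ (j + (a + k + 1)))
    {x : (ℤ × ℤ) × (ℤ × ℤ)} (hx : x ∈ pr N p) :
    ConvK_W2 φ ψ M (a + k + 1) j x = (ll x.1 : ℝ) ^ 2 / nm x.1 / (ll x.1 * ll x.2) * ψ (ll x.1 / ll x.2) *
      ∑ l ∈ range (M + 1), tl M l ((ll x.1 : ℝ) ^ 2 / nm x.1) *
        φ ((ll x.1 : ℝ) * ll x.2 / 4 ^ (j + (a + k + 1)) / ul M l) := by
  obtain ⟨t, D⟩ := ConvK_data hp hx
  have hm := mu1_bounds (ConvK_mem hp hx).1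
  unfold ConvK_W2
  rw [Finset.mul_sum]
  refine Finset.sum_congr rfl fun l hl => ?_
  rw [mem_range] at hl
  have hub := ul_bounds hM (show l ≤ M by omega)
  have h1 : ∀ s ∈ range (2 * (a + k + 1) + 1), gl M l (mu1 x.1) *
      Whs φ ψ (a + k + 1) s (ul M l) (ll x.1 / 2 ^ (j + s)) (ll x.2 / 2 ^ (j + s)) / 4 ^ (j + s) =
      hh ((ll x.1 : ℝ) / 2 ^ j / 2 ^ s) * (gl M l (mu1 x.1) *
        (φ ((ll x.1 : ℝ) * ll x.2 / 4 ^ (j + (a + k + 1)) / ul M l) * ψ (ll x.1 / ll x.2) /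
          ((ll x.1 : ℝ) * ll x.2))) := by
    intro s _
    rw [mul_div_assoc, ConvK_Whs φ ψ (a + k + 1) s j]
    ring
  rw [Finset.sum_congr rfl h1, ← Finset.sum_mul]
  have hgl : gl M l (mu1 x.1) = tl M l ((ll x.1 : ℝ) ^ 2 / nm x.1) * ((ll x.1 : ℝ) ^ 2 / nm x.1) := by
    unfold gl
    rw [max_eq_right (by linarith [hm.1]), min_eq_right hm.2]
    rfl
  by_cases h0 : φ ((ll x.1 : ℝ) * ll x.2 / 4 ^ (j + (a + k + 1)) / ul M l) * ψ (ll x.1 / ll x.2) = 0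
  · rw [h0]
    rcases mul_eq_zero.mp h0 with h2 | h2
    · rw [h2]
      ring
    · rw [h2]
      ring
  · have hφ0 := hφ.sp _ (left_ne_zero_of_mul h0)
    have hψ0 := hψ.sp _ (right_ne_zero_of_mul h0)
    have hB := ConvK_B D (one_le_pow₀ (by norm_num)) (one_le_pow₀ (by norm_num)) (by positivity) hj
      hub.1 hub.2 hφ0 hψ0
    obtain ⟨-, -, -, -, hB1, hB2⟩ := hB
    have hv := D.v
    have h2j : (0 : ℝ) < 2 ^ j := by positivity
    have e5 : (4 : ℝ) ^ (j + (a + k + 1)) = (2 ^ j) ^ 2 * (4 * (2 ^ a) ^ 2 * (2 ^ k) ^ 2) := by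
      rw [pow_add, pow_succ, pow_add, ConvK_four j, ConvK_four a, ConvK_four k]
      ring
    have hA1 : (1 : ℝ) ≤ 2 ^ a := one_le_pow₀ (by norm_num)
    have hK1 : (1 : ℝ) ≤ 2 ^ k := one_le_pow₀ (by norm_num)
    have hKA : (1 : ℝ) ≤ 2 ^ k * 2 ^ a := one_le_mul_of_one_le_of_one_le hK1 hA1
    have s1 : 1 ≤ (ll x.1 : ℝ) / 2 ^ j := by
      rw [le_div_iff₀ h2j, one_mul]
      refine le_of_sq_le_sq ?_ hv.le
      have h3 : (2 ^ k * 2 ^ a : ℝ) * (2 ^ j) ^ 2 ≤ (2 ^ k * 2 ^ a) * (ll x.1 : ℝ) ^ 2 := by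
        refine le_trans ?_ hB2
        rw [e5]
        have h4 : (2 ^ k * 2 ^ a : ℝ) ≤ (2 ^ k * 2 ^ a) ^ 2 := by nlinarith
        have h5 : (0 : ℝ) < (2 ^ j) ^ 2 := by positivity
        have h6 : (2 ^ k * 2 ^ a : ℝ) * (2 ^ j) ^ 2 ≤ (2 ^ k * 2 ^ a) ^ 2 * (2 ^ j) ^ 2 :=
          mul_le_mul_of_nonneg_right h4 h5.le
        have h7 : (0 : ℝ) < (2 ^ k * 2 ^ a) ^ 2 * (2 ^ j) ^ 2 := by positivity
        nlinarith
      exact le_of_mul_le_mul_left h3 (by positivity)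
    have s2 : (ll x.1 : ℝ) / 2 ^ j ≤ 2 ^ (2 * (a + k + 1)) := by
      rw [div_le_iff₀ h2j]
      refine le_of_sq_le_sq ?_ (by positivity)
      refine hB1.trans ?_
      have e6 : (2 : ℝ) ^ (2 * (a + k + 1)) = 4 * (2 ^ a) ^ 2 * (2 ^ k) ^ 2 := by
        rw [pow_mul, show (2 : ℝ) ^ 2 = 4 by norm_num, pow_succ, pow_add, ConvK_four a, ConvK_four k]
        ring
      rw [e5, e6]
      have h5 : (0 : ℝ) < (2 ^ j) ^ 2 := by positivity
      have h8 : (2 ^ k * 2 ^ a : ℝ) ≤ 4 * (2 ^ a) ^ 2 * (2 ^ k) ^ 2 := by nlinarith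
      have h9 : (2 ^ k * 2 ^ a : ℝ) * ((2 ^ j) ^ 2 * (4 * (2 ^ a) ^ 2 * (2 ^ k) ^ 2)) ≤
          (4 * (2 ^ a) ^ 2 * (2 ^ k) ^ 2) * ((2 ^ j) ^ 2 * (4 * (2 ^ a) ^ 2 * (2 ^ k) ^ 2)) :=
        mul_le_mul_of_nonneg_right h8 (by positivity)
      linarith
    rw [hh_sum s1 s2, hgl]
    ring

private theorem ConvK_L {ψ : ℝ → ℝ} {k : ℕ} {L : ℝ} (h : PW ψ k L) : 0 ≤ L := by
  have h1 := h.lip 1 0
  have h2 : |(1 : ℝ) - 0| = 1 := by norm_num
  rw [h2, mul_one] at h1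
  exact (abs_nonneg _).trans h1

/-- the pointwise estimate -/
private theorem ConvK_pt {φ ψ : ℝ → ℝ} {a k : ℕ} {La L : ℝ} (hφ : PW φ a La) (hψ : PW ψ k L) {M : ℕ}
    (hM : 1 ≤ M) {N p j : ℕ} (hp : 0 < p) (hj : 8 * 2 ^ a * (p : ℝ) ≤ 4 ^ (j + (a + k + 1)))
    {x : (ℤ × ℤ) × (ℤ × ℤ)} (hx : x ∈ pr N p) :
    |ConvK_W1 φ ψ (j + (a + k + 1)) x - ConvK_W2 φ ψ M (a + k + 1) j x| ≤
      (2 * 2 ^ a * La + 8 * L * 2 ^ k * 2 ^ a + 4 * 2 ^ a) * (1 / M + p / 4 ^ (j + (a + k + 1))) *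
        ConvK_W1 (tz a) (tz k) (j + (a + k + 1)) x := by
  obtain ⟨t, D⟩ := ConvK_data hp hx
  have hLa := ConvK_L hφ
  have hL := ConvK_L hψ
  have hA1 : (1 : ℝ) ≤ 2 ^ a := one_le_pow₀ (by norm_num)
  have hK1 : (1 : ℝ) ≤ 2 ^ k := one_le_pow₀ (by norm_num)
  have hE : (0 : ℝ) < 4 ^ (j + (a + k + 1)) := by positivity
  have hM0 : (0 : ℝ) < M := by exact_mod_cast hM
  have hT0 : 0 ≤ ConvK_W1 (tz a) (tz k) (j + (a + k + 1)) x :=
    div_nonneg (mul_nonneg ((PW_tz a).nn _) ((PW_tz k).nn _)) D.k0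
  have hW2 := ConvK_W2_eq hφ hψ hM hp hj hx
  obtain ⟨F0, F1⟩ := ConvK_Phi01 (E := 4 ^ (j + (a + k + 1))) D hφ hM
  -- the main case
  have main : (4 : ℝ) ^ (j + (a + k + 1)) ≤ 2 * 2 ^ a * kk x.1 x.2 → (kk x.1 x.2 : ℝ) ≤ 2 * 2 ^ a * 4 ^ (j + (a + k + 1)) →
      (kk x.1 x.2 : ℝ) ≤ 2 * 2 ^ k * nm x.1 → (nm x.1 : ℝ) ≤ 2 * 2 ^ k * kk x.1 x.2 →
      |ConvK_W1 φ ψ (j + (a + k + 1)) x - ConvK_W2 φ ψ M (a + k + 1) j x| ≤
      (2 * 2 ^ a * La + 8 * L * 2 ^ k * 2 ^ a + 4 * 2 ^ a) * (1 / M + p / 4 ^ (j + (a + k + 1))) *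
        ConvK_W1 (tz a) (tz k) (j + (a + k + 1)) x := by
    intro b1 b2 b3 b4
    have hκ : (0 : ℝ) < kk x.1 x.2 := by
      have : (0 : ℝ) < 2 * 2 ^ a * kk x.1 x.2 := lt_of_lt_of_le hE b1
      exact (mul_pos_iff_of_pos_left (by positivity)).1 this
    have t1 : tz a ((kk x.1 x.2 : ℝ) / 4 ^ (j + (a + k + 1))) = 1 := by
      refine tz_one ?_ ?_
      · rw [div_le_div_iff₀ (by positivity) hE, pow_succ]
        linarith
      · rw [div_le_iff₀ hE, pow_succ]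
        linarith
    have t2 : tz k ((nm x.1 : ℝ) / kk x.1 x.2) = 1 := by
      refine tz_one ?_ ?_
      · rw [div_le_div_iff₀ (by positivity) hκ, pow_succ]
        linarith
      · rw [div_le_iff₀ hκ, pow_succ]
        linarith
    have hT : ConvK_W1 (tz a) (tz k) (j + (a + k + 1)) x = 1 / kk x.1 x.2 := by
      unfold ConvK_W1
      rw [t1, t2, one_mul]
    rw [hT, hW2]
    unfold ConvK_W1
    exact ConvK_C D hA1 hE hM0 hK1 hL F0 F1 (hψ.nn _) (hψ.le _) (hψ.nn _) (hψ.le _) b1 b4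
      (ConvK_Phi D hφ hA1 hE hM hj b2 hLa) (hψ.lip _ _)
  by_cases h1 : φ (kk x.1 x.2 / 4 ^ (j + (a + k + 1))) * ψ (nm x.1 / kk x.1 x.2) = 0
  · by_cases h2 : ∃ l ∈ range (M + 1),
        φ ((ll x.1 : ℝ) * ll x.2 / 4 ^ (j + (a + k + 1)) / ul M l) * ψ (ll x.1 / ll x.2) ≠ 0
    · obtain ⟨l, hl, h3⟩ := h2
      rw [mem_range] at hl
      have hub := ul_bounds hM (show l ≤ M by omega)
      obtain ⟨b1, b2, b3, b4, -, -⟩ := ConvK_B D hA1 hK1 hE hj hub.1 hub.2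
        (hφ.sp _ (left_ne_zero_of_mul h3)) (hψ.sp _ (right_ne_zero_of_mul h3))
      exact main b1 b2 b3 b4
    · push Not at h2
      have e1 : ConvK_W1 φ ψ (j + (a + k + 1)) x = 0 := by
        unfold ConvK_W1
        rw [h1, zero_div]
      have e2 : ConvK_W2 φ ψ M (a + k + 1) j x = 0 := by
        rw [hW2, mul_assoc, Finset.mul_sum, Finset.sum_eq_zero, mul_zero]
        intro l hl
        have := h2 l hl
        calc ψ (ll x.1 / ll x.2) * (tl M l ((ll x.1 : ℝ) ^ 2 / nm x.1) *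
              φ ((ll x.1 : ℝ) * ll x.2 / 4 ^ (j + (a + k + 1)) / ul M l)) =
            tl M l ((ll x.1 : ℝ) ^ 2 / nm x.1) *
              (φ ((ll x.1 : ℝ) * ll x.2 / 4 ^ (j + (a + k + 1)) / ul M l) * ψ (ll x.1 / ll x.2)) := by ring
          _ = 0 := by rw [this, mul_zero]
      rw [e1, e2, sub_zero, abs_zero]
      have : 0 ≤ 2 * 2 ^ a * La + 8 * L * 2 ^ k * 2 ^ a + 4 * 2 ^ a := by positivity
      positivity
  · have f1 := hφ.sp _ (left_ne_zero_of_mul h1)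
    have f2 := hψ.sp _ (right_ne_zero_of_mul h1)
    have hκ : (0 : ℝ) < kk x.1 x.2 := by
      rcases D.k0.lt_or_eq with h | h
      · exact h
      · exfalso
        have h3 := f1.1
        rw [← h, zero_div] at h3
        have : (0 : ℝ) < 1 / 2 ^ a := by positivity
        linarith
    have g1 := f1.1
    have g2 := f1.2
    have g3 := f2.1
    have g4 := f2.2
    rw [div_le_div_iff₀ (by positivity) hE] at g1
    rw [div_le_iff₀ hE] at g2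
    rw [div_le_div_iff₀ (by positivity) hκ] at g3
    rw [div_le_iff₀ hκ] at g4
    have hn := D.n0
    have q1 : (0 : ℝ) < 2 ^ a * kk x.1 x.2 := by positivity
    have q2 : (0 : ℝ) < 2 ^ a * 4 ^ (j + (a + k + 1)) := by positivity
    have q3 : (0 : ℝ) < 2 ^ k * nm x.1 := by positivity
    have q4 : (0 : ℝ) < 2 ^ k * kk x.1 x.2 := by positivity
    exact main (by linarith) (by linarith) (by linarith) (by linarith)

/-- a pair is in the box -/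
private theorem ConvK_inbox {N N' p : ℕ} (hp : 0 < p) {x : (ℤ × ℤ) × (ℤ × ℤ)} (hx : x ∈ pr N p)
    (h1 : (ll x.1 : ℝ) ≤ N') (h2 : (ll x.2 : ℝ) ≤ N') : x ∈ pr N' p := by
  obtain ⟨a1, a2, a3⟩ := ConvK_mem hp hx
  have h1' : ll x.1 ≤ N' := by exact_mod_cast h1
  have h2' : ll x.2 ≤ N' := by exact_mod_cast h2
  unfold ll at h1' h2'
  have b1 := a1.1
  have b2 := a1.2.1
  have b3 := a2.1
  have b4 := a2.2.1
  unfold pr Bx
  rw [mem_filter, mem_product, mem_product, mem_product, mem_Icc, mem_Icc, mem_Icc, mem_Icc]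
  refine ⟨⟨⟨⟨b1, by omega⟩, b2, by omega⟩, ⟨b3, by omega⟩, b4, by omega⟩, a3⟩

private theorem ConvK_sub {N' N : ℕ} (h : N' ≤ N) (m : ℤ) : pr N' m ⊆ pr N m := by
  intro x hx
  unfold pr Bx at hx ⊢
  rw [mem_filter, mem_product, mem_product, mem_product, mem_Icc, mem_Icc, mem_Icc, mem_Icc] at hx ⊢
  have h' : (N' : ℤ) ≤ N := by exact_mod_cast h
  obtain ⟨⟨⟨⟨c1, c2⟩, c3, c4⟩, ⟨c5, c6⟩, c7, c8⟩, c9⟩ := hx
  exact ⟨⟨⟨⟨c1, by omega⟩, c3, by omega⟩, ⟨c5, by omega⟩, c7, by omega⟩, c9⟩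

/-- the sizes of a pair with nonzero weight -/
private theorem ConvK_size {lv lw n κ t p A K X : ℝ} (D : ConvK_D lv lw n κ t p) (hA : 1 ≤ A) (hK : 1 ≤ K)
    (hX : 0 < X) (hp : A * p ≤ X ^ 2) (h1 : 1 / A ≤ κ / X ^ 2 ∧ κ / X ^ 2 ≤ A) (h2 : 1 / K ≤ n / κ ∧ n / κ ≤ K) :
    lv ≤ 4 * (A * K * X) ∧ lw ≤ 4 * (A * K * X) := by
  have hA0 : 0 < A := by linarith
  have hK0 : 0 < K := by linarith
  have hX2 : 0 < X ^ 2 := by positivity
  have hv := D.v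
  have hw := D.w
  have hn := D.n0
  have hκ : 0 < κ := by
    rcases D.k0.lt_or_eq with h | h
    · exact h
    · exfalso
      have h3 := h1.1
      rw [← h, zero_div] at h3
      have : 0 < 1 / A := by positivity
      linarith
  have g1 := h1.1
  have g2 := h1.2
  have g3 := h2.1
  have g4 := h2.2
  rw [div_le_div_iff₀ hA0 hX2] at g1
  rw [div_le_iff₀ hX2] at g2
  rw [div_le_div_iff₀ hK0 hκ] at g3
  rw [div_le_iff₀ hκ] at g4
  have hpk : p ≤ κ := by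
    have : A * p ≤ A * κ := by linarith
    exact le_of_mul_le_mul_left this hA0
  have hAK : 1 ≤ A * K := one_le_mul_of_one_le_of_one_le hA hK
  have hkx : K * κ ≤ A * K * X ^ 2 := by
    have := mul_le_mul_of_nonneg_left g2 hK0.le
    linarith
  constructor
  · refine le_of_sq_le_sq ?_ (by positivity)
    have h3 : lv ^ 2 ≤ A * K * X ^ 2 := (D.n1.trans g4).trans hkx
    have h4 : A * K * X ^ 2 ≤ (A * K) ^ 2 * X ^ 2 := by
      refine mul_le_mul_of_nonneg_right ?_ hX2.le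
      nlinarith
    have h5 : 0 < (A * K) ^ 2 * X ^ 2 := by positivity
    nlinarith
  · refine le_of_sq_le_sq ?_ (by positivity)
    have h3 : lv * lw ≤ 3 * κ := by linarith [D.lo']
    have h4 : (lv * lw) ^ 2 ≤ (3 * κ) ^ 2 := pow_le_pow_left₀ (by positivity) h3 2
    have h5 : κ ≤ K * (5 / 4 * lv ^ 2) := by
      have := mul_le_mul_of_nonneg_left D.n2 hK0.le
      linarith
    have h6 : lv ^ 2 * lw ^ 2 ≤ lv ^ 2 * (45 / 4 * (K * κ)) := by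
      have := mul_le_mul_of_nonneg_left h5 hκ.le
      nlinarith
    have h7 : lw ^ 2 ≤ 45 / 4 * (K * κ) := le_of_mul_le_mul_left h6 (by positivity)
    have h4' : A * K * X ^ 2 ≤ (A * K) ^ 2 * X ^ 2 := by
      refine mul_le_mul_of_nonneg_right ?_ hX2.le
      nlinarith
    have h8 : 0 < (A * K) ^ 2 * X ^ 2 := by positivity
    nlinarith

open Classical in
/-- the sum `GK` over a larger box -/
private theorem ConvK_GK {φ ψ : ℝ → ℝ} {a k : ℕ} {La L : ℝ} (hφ : PW φ a La) (hψ : PW ψ k L) (z : ℂ)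
    {b p J N : ℕ} (hp : 0 < p) (hb : a + k + 2 ≤ b) (hN : 2 ^ (b + J) ≤ N) (hJ : 2 ^ a * (p : ℝ) ≤ 4 ^ J) :
    GK φ ψ z b p J = ∑ x ∈ (pr N p).filter (fun x => Ip p x.1 ∧ Ip p x.2),
      ((ConvK_W1 φ ψ J x : ℝ) : ℂ) * aa z x.1 * aa z x.2 := by
  have hA1 : (1 : ℝ) ≤ 2 ^ a := one_le_pow₀ (by norm_num)
  have hK1 : (1 : ℝ) ≤ 2 ^ k := one_le_pow₀ (by norm_num)
  have e : GK φ ψ z b p J = ∑ x ∈ (pr (2 ^ (b + J)) p).filter (fun x => Ip p x.1 ∧ Ip p x.2),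
      ((ConvK_W1 φ ψ J x : ℝ) : ℂ) * aa z x.1 * aa z x.2 := rfl
  rw [e]
  refine Finset.sum_subset (Finset.filter_subset_filter _ (ConvK_sub hN p)) fun x hx hxn => ?_
  rw [mem_filter] at hx
  by_cases h0 : φ (kk x.1 x.2 / 4 ^ J) * ψ (nm x.1 / kk x.1 x.2) = 0
  · have : ConvK_W1 φ ψ J x = 0 := by
      unfold ConvK_W1
      rw [h0, zero_div]
    rw [this, Complex.ofReal_zero, zero_mul, zero_mul]
  · exfalso
    apply hxn
    rw [mem_filter]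
    refine ⟨?_, hx.2⟩
    obtain ⟨t, D⟩ := ConvK_data hp hx.1
    have f1 := hφ.sp _ (left_ne_zero_of_mul h0)
    have f2 := hψ.sp _ (right_ne_zero_of_mul h0)
    rw [ConvK_four J] at f1 hJ
    obtain ⟨s1, s2⟩ := ConvK_size D hA1 hK1 (by positivity) hJ f1 f2
    have h3 : (4 * (2 ^ a * 2 ^ k * 2 ^ J) : ℝ) ≤ ((2 ^ (b + J) : ℕ) : ℝ) := by
      have e1 : (4 * (2 ^ a * 2 ^ k * 2 ^ J) : ℝ) = 2 ^ (a + k + 2 + J) := by
        rw [pow_add, pow_add, pow_add]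
        ring
      rw [e1]
      push_cast
      exact pow_le_pow_right₀ (by norm_num) (by omega)
    exact ConvK_inbox hp hx.1 (s1.trans h3) (s2.trans h3)

open Classical in
/-- the sum `GP` over a larger box -/
private theorem ConvK_GP (φ : ℝ → ℝ) {ψ : ℝ → ℝ} {k : ℕ} {L : ℝ} (hψ : PW ψ k L) (z : ℂ) (μ : ℤ × ℤ → ℝ)
    (S s : ℕ) (u : ℝ) {p i N : ℕ} (hp : 0 < p) (hN : 2 ^ (k + 5 + i) ≤ N) :
    GP μ (Whs φ ψ S s u) z (k + 5) p i = ∑ x ∈ (pr N p).filter (fun x => Ip p x.1 ∧ Ip p x.2),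
      ((μ x.1 * Whs φ ψ S s u (ll x.1 / 2 ^ i) (ll x.2 / 2 ^ i) / 4 ^ i : ℝ) : ℂ) * aa z x.1 * aa z x.2 := by
  have hK1 : (1 : ℝ) ≤ 2 ^ k := one_le_pow₀ (by norm_num)
  unfold GP
  refine Finset.sum_subset (Finset.filter_subset_filter _ (ConvK_sub hN p)) fun x hx hxn => ?_
  rw [mem_filter] at hx
  by_cases h0 : hh ((ll x.1 : ℝ) / 2 ^ i) * ψ ((ll x.1 : ℝ) / 2 ^ i / (ll x.2 / 2 ^ i)) = 0
  · have : Whs φ ψ S s u (ll x.1 / 2 ^ i) (ll x.2 / 2 ^ i) = 0 := by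
      unfold Whs
      rcases mul_eq_zero.mp h0 with h | h
      · rw [h]
        ring
      · rw [h]
        ring
    rw [this, mul_zero, zero_div, Complex.ofReal_zero, zero_mul, zero_mul]
  · exfalso
    apply hxn
    rw [mem_filter]
    refine ⟨?_, hx.2⟩
    obtain ⟨t, D⟩ := ConvK_data hp hx.1
    have f1 := TA.hh_supp (left_ne_zero_of_mul h0)
    have f2 := hψ.sp _ (right_ne_zero_of_mul h0)
    have h2i : (0 : ℝ) < 2 ^ i := by positivity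
    have hw := D.w
    rw [div_div_div_cancel_right₀ h2i.ne', div_le_div_iff₀ (by positivity) hw] at f2
    have f3 := f1.2
    rw [div_lt_iff₀ h2i] at f3
    have e1 : (((2 ^ (k + 5 + i) : ℕ)) : ℝ) = 32 * (2 ^ k * 2 ^ i) := by
      push_cast
      rw [pow_add, pow_add]
      ring
    have h4 : (2 : ℝ) ^ i ≤ 2 ^ k * 2 ^ i := by nlinarith
    refine ConvK_inbox hp hx.1 ?_ ?_
    · rw [e1]
      linarith
    · rw [e1]
      have h5 : (ll x.1 : ℝ) * 2 ^ k ≤ (2 * 2 ^ i) * 2 ^ k := mul_le_mul_of_nonneg_right f3.le (by positivity)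
      have h6 := f2.1
      nlinarith

theorem convK {q : ℕ} (hq : 1 ≤ q) {z : ℂ} (hz : z ^ q = 1) {φ ψ : ℝ → ℝ} {a k : ℕ} {La L : ℝ}
    (hφ : PW φ a La) (hψ : PW ψ k L) {ε : ℝ} (hε : 0 < ε) :
    ∃ M₀ : ℕ, 1 ≤ M₀ ∧ ∀ M : ℕ, M₀ ≤ M → ∀ p : ℕ, SP p → ∃ j₀ : ℕ, ∀ j : ℕ, j₀ ≤ j →
      ‖(p : ℂ) * GK φ ψ z (a + k + 9) p (j + (a + k + 1)) -
        ∑ l ∈ range (M + 1), ∑ s ∈ range (2 * (a + k + 1) + 1), (p : ℂ) *
          GP (fun v => gl M l (mu1 v)) (Whs φ ψ (a + k + 1) s (ul M l)) z (k + 5) p (j + s)‖ ≤ ε := by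
  classical
  have hLa := ConvK_L hφ
  have hL := ConvK_L hψ
  obtain ⟨C₂, hC₂, hS⟩ := SK_bdd (PW_tz a) (PW_tz k) (z := 1) norm_one
  set C₁ : ℝ := 2 * 2 ^ a * La + 8 * L * 2 ^ k * 2 ^ a + 4 * 2 ^ a with hC₁
  have hC₁0 : 0 ≤ C₁ := by positivity
  obtain ⟨M₁, hM₁⟩ := exists_nat_gt (2 * (C₁ * C₂) / ε)
  refine ⟨M₁ + 1, by omega, fun M hM p hSP => ?_⟩
  have hp : 0 < p := hSP.1.pos
  have hp1 : (1 : ℝ) ≤ p := by exact_mod_cast hp
  have hM1 : 1 ≤ M := by omega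
  have hM0 : (0 : ℝ) < M := by exact_mod_cast hM1
  have hMe : C₁ * C₂ * (1 / M) ≤ ε / 2 := by
    have h1 : (M₁ : ℝ) ≤ M := by
      have : M₁ ≤ M := by omega
      exact_mod_cast this
    have h2 : 2 * (C₁ * C₂) / ε < M := lt_of_lt_of_le hM₁ h1
    rw [div_lt_iff₀ hε] at h2
    rw [mul_one_div, div_le_div_iff₀ hM0 (by norm_num)]
    linarith
  obtain ⟨j₀, hj₀⟩ := pow_unbounded_of_one_lt
    (8 * 2 ^ a * (p : ℝ) ^ 2 + 2 * (C₁ * C₂) * p / ε) (by norm_num : (1 : ℝ) < 4)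
  refine ⟨j₀, fun j hj => ?_⟩
  set J : ℕ := j + (a + k + 1) with hJdef
  have hE : (0 : ℝ) < 4 ^ J := by positivity
  have hEJ : 8 * 2 ^ a * (p : ℝ) ^ 2 + 2 * (C₁ * C₂) * p / ε < 4 ^ J :=
    lt_of_lt_of_le hj₀ (pow_le_pow_right₀ (by norm_num) (by omega))
  have hA1 : (1 : ℝ) ≤ 2 ^ a := one_le_pow₀ (by norm_num)
  have hd1 : 0 ≤ 2 * (C₁ * C₂) * p / ε := by positivity
  have hd2 : 0 < 8 * 2 ^ a * (p : ℝ) ^ 2 := by positivity
  have hE1 : 8 * 2 ^ a * (p : ℝ) ≤ 4 ^ J := by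
    have h1 : 8 * 2 ^ a * (p : ℝ) ≤ 8 * 2 ^ a * (p : ℝ) ^ 2 := by
      refine mul_le_mul_of_nonneg_left ?_ (by positivity)
      nlinarith
    linarith
  have hE2 : C₁ * C₂ * (p / 4 ^ J) ≤ ε / 2 := by
    have h1 : 2 * (C₁ * C₂) * p / ε < 4 ^ J := by linarith
    rw [div_lt_iff₀ hε] at h1
    rw [← mul_div_assoc, div_le_div_iff₀ hE (by norm_num)]
    linarith
  set N : ℕ := 2 ^ (a + 2 * k + 9 + J) with hN
  have e1 := ConvK_GK hφ hψ z (b := a + k + 9) (J := J) (N := N) hp (by omega)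
    (Nat.pow_le_pow_right (by norm_num) (by omega)) (by
      have : 0 < 2 ^ a * (p : ℝ) := by positivity
      linarith)
  have e2 : ∑ l ∈ range (M + 1), ∑ s ∈ range (2 * (a + k + 1) + 1), (p : ℂ) *
          GP (fun v => gl M l (mu1 v)) (Whs φ ψ (a + k + 1) s (ul M l)) z (k + 5) p (j + s) =
      (p : ℂ) * ∑ x ∈ (pr N p).filter (fun x => Ip p x.1 ∧ Ip p x.2),
        ((ConvK_W2 φ ψ M (a + k + 1) j x : ℝ) : ℂ) * aa z x.1 * aa z x.2 := by
    have h1 : ∀ l ∈ range (M + 1), ∀ s ∈ range (2 * (a + k + 1) + 1), (p : ℂ) *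
          GP (fun v => gl M l (mu1 v)) (Whs φ ψ (a + k + 1) s (ul M l)) z (k + 5) p (j + s) =
        (p : ℂ) * ∑ x ∈ (pr N p).filter (fun x => Ip p x.1 ∧ Ip p x.2),
          ((gl M l (mu1 x.1) * Whs φ ψ (a + k + 1) s (ul M l) (ll x.1 / 2 ^ (j + s)) (ll x.2 / 2 ^ (j + s)) /
            4 ^ (j + s) : ℝ) : ℂ) * aa z x.1 * aa z x.2 := by
      intro l _ s hs
      rw [mem_range] at hs
      rw [ConvK_GP φ hψ z (fun v => gl M l (mu1 v)) (a + k + 1) s (ul M l) (N := N) hp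
        (Nat.pow_le_pow_right (by norm_num) (by omega))]
    rw [Finset.sum_congr rfl fun l hl => Finset.sum_congr rfl fun s hs => h1 l hl s hs]
    simp only [← Finset.mul_sum]
    congr 1
    have h2 : ∀ l ∈ range (M + 1), ∑ s ∈ range (2 * (a + k + 1) + 1),
        ∑ x ∈ (pr N p).filter (fun x => Ip p x.1 ∧ Ip p x.2),
          ((gl M l (mu1 x.1) * Whs φ ψ (a + k + 1) s (ul M l) (ll x.1 / 2 ^ (j + s)) (ll x.2 / 2 ^ (j + s)) /
            4 ^ (j + s) : ℝ) : ℂ) * aa z x.1 * aa z x.2 =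
        ∑ x ∈ (pr N p).filter (fun x => Ip p x.1 ∧ Ip p x.2), ∑ s ∈ range (2 * (a + k + 1) + 1),
          ((gl M l (mu1 x.1) * Whs φ ψ (a + k + 1) s (ul M l) (ll x.1 / 2 ^ (j + s)) (ll x.2 / 2 ^ (j + s)) /
            4 ^ (j + s) : ℝ) : ℂ) * aa z x.1 * aa z x.2 := fun l _ => Finset.sum_comm
    rw [Finset.sum_congr rfl h2, Finset.sum_comm]
    refine Finset.sum_congr rfl fun x _ => ?_
    unfold ConvK_W2
    rw [Complex.ofReal_sum, Finset.sum_mul, Finset.sum_mul]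
    refine Finset.sum_congr rfl fun l _ => ?_
    rw [Complex.ofReal_sum, Finset.sum_mul, Finset.sum_mul]
  rw [e1, e2, ← mul_sub, ← Finset.sum_sub_distrib, norm_mul]
  have hT : (p : ℝ) * ∑ x ∈ (pr N p).filter (fun x => Ip p x.1 ∧ Ip p x.2), ConvK_W1 (tz a) (tz k) J x ≤ C₂ := by
    have e3 := ConvK_GK (PW_tz a) (PW_tz k) 1 (b := a + k + 9) (J := J) (N := N) hp (by omega)
      (Nat.pow_le_pow_right (by norm_num) (by omega)) (by
        rw [pow_add]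
        have : 0 < 2 ^ a * (p : ℝ) := by positivity
        linarith)
    have e4 := dilK (PW_tz a) (PW_tz k) 1 hSP (j := J) (b := a + k + 9) (by
      have h1 : (2 : ℝ) ^ (a + 2) * (p : ℝ) ^ 2 < 4 ^ J := by
        rw [pow_add]
        have : 0 < 2 ^ a * (p : ℝ) ^ 2 := by positivity
        linarith
      exact_mod_cast h1) (by omega)
    have e5 : ∑ x ∈ (pr N p).filter (fun x => Ip p x.1 ∧ Ip p x.2),
        ((ConvK_W1 (tz a) (tz k) J x : ℝ) : ℂ) * aa 1 x.1 * aa 1 x.2 =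
        ((∑ x ∈ (pr N p).filter (fun x => Ip p x.1 ∧ Ip p x.2), ConvK_W1 (tz a) (tz k) J x : ℝ) : ℂ) := by
      rw [Complex.ofReal_sum]
      refine Finset.sum_congr rfl fun x _ => ?_
      unfold aa
      rw [one_pow, one_pow, mul_one, mul_one]
    rw [e3, e5, one_pow, one_mul] at e4
    have e6 := hS (4 ^ J / p) (by positivity)
    rw [← e4, ← Complex.ofReal_natCast, ← Complex.ofReal_mul, Complex.norm_real] at e6
    exact (le_abs_self _).trans e6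
  have hbd : ‖∑ x ∈ (pr N p).filter (fun x => Ip p x.1 ∧ Ip p x.2),
      (((ConvK_W1 φ ψ J x : ℝ) : ℂ) * aa z x.1 * aa z x.2 -
        ((ConvK_W2 φ ψ M (a + k + 1) j x : ℝ) : ℂ) * aa z x.1 * aa z x.2)‖ ≤
      C₁ * (1 / M + p / 4 ^ J) * ∑ x ∈ (pr N p).filter (fun x => Ip p x.1 ∧ Ip p x.2),
        ConvK_W1 (tz a) (tz k) J x := by
    rw [Finset.mul_sum]
    refine (norm_sum_le _ _).trans (Finset.sum_le_sum fun x hx => ?_)
    rw [mem_filter] at hx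
    rw [← sub_mul, ← sub_mul, ← Complex.ofReal_sub, norm_mul, norm_mul, norm_aa hq hz, norm_aa hq hz,
      mul_one, mul_one, Complex.norm_real, Real.norm_eq_abs]
    exact ConvK_pt hφ hψ hM1 hp hE1 hx.1
  have hpn : ‖(p : ℂ)‖ = p := Complex.norm_natCast p
  rw [hpn]
  calc (p : ℝ) * _ ≤ p * (C₁ * (1 / M + p / 4 ^ J) *
        ∑ x ∈ (pr N p).filter (fun x => Ip p x.1 ∧ Ip p x.2), ConvK_W1 (tz a) (tz k) J x) :=
        mul_le_mul_of_nonneg_left hbd (by positivity)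
    _ = C₁ * (1 / M + p / 4 ^ J) *
        (p * ∑ x ∈ (pr N p).filter (fun x => Ip p x.1 ∧ Ip p x.2), ConvK_W1 (tz a) (tz k) J x) := by ring
    _ ≤ C₁ * (1 / M + p / 4 ^ J) * C₂ := mul_le_mul_of_nonneg_left hT (by positivity)
    _ = C₁ * C₂ * (1 / M) + C₁ * C₂ * (p / 4 ^ J) := by ring
    _ ≤ ε / 2 + ε / 2 := add_le_add hMe hE2
    _ = ε := by ring

end Pool.Agent.Lib.MP_d57abb_nt.AS
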