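import Pool.Agent.Lib.MP_d57abb_nt.AS.Single
import Pool.Agent.Lib.MP_d57abb_nt.AS.ConvK

/-!
# JOB AvgK: most scales are small after averaging over the primes (about 280 lines; model: the finished file `TA/Avg`)

`S = a + k + 1`, `γ = k + 5` (`single` with `γ₀ = k + 1`), `D P j = (∑_{p ∈ PS P} SK a φ ψ z (4^j / p)) / |PS P|`, `‖D P j‖ ≤ C₀` always (`SK_bdd`).
CHOICES: `M = M₀` from `convK` with `ε / 8`.  For every `l ≤ M`, `s ≤ 2 S` apply `single` with `g = gl M l` (`gl_prop`), `Wh = Whs φ ψ S s (ul M l)` (`GW_Whs`, `Whs_supp`, `ul_bounds`), `ε₁ = ε / (8 (M + 1) (2 S + 1))`; let `e` be such that `2 e ≥` all the `e₀`.  Then `δ` = minimum of the `δ (l, s) > 0`, `ρ₁` = maximum of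
the `ρ₀ (l, s)` and of `γ` and of a bound which makes `PS (PP (2 e) ρ)` nonempty (`card_PS`).  Given `ρ₀`, `good_scale q (2 e) δ (max ρ₀ ρ₁)` gives `J, I₀'`.  For `I` large take the `ρ` of `good_scale` for `I' = I + 2 S + 1`: `∑_{i < I'} MI q (2 e) ρ (2^(i+1)) ≤ I' δ 4^ρ / ρ`.
FIXED `ρ` (finitely many): `P = PP (2 e) ρ`.  For `i` large put `j = (i + 1) + (ρ - γ)`.  For `p ∈ PS P`: `p GK φ ψ z (a+k+9) p (j + S) = z² SK a φ ψ z (4^(j+S) / p)` (`dilK`), `‖z‖ = 1`, so by `convK`, averaging over `p`: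
`‖D P (j + S)‖ ≤ ε/8 + ∑_{l, s} ‖(1/|PS|) ∑_p p GP_{l,s} p (j + s)‖ ≤ ε / 8 + ∑_{l,s} ε₁ (1 + MI q (2e) ρ (2^(i+1+s)) ρ / (δ 4^ρ))` (`single` with level `i + 1 + s`: `(i + 1 + s) + (ρ - γ) = j + s`).
Sum over `i < I` (the finitely many small `i` contribute a constant): `∑_{i<I} ‖D P (j_i + S)‖ ≤ ε I / 8 + ε I / 8 + ε₁ (M+1) (2S+1) (ρ / (δ 4^ρ)) ∑_{i < I'} MI (2^(i+1)) + C(ρ) ≤ ε I / 4 + (ε / 8) I' + C(ρ)`.
`∑_{j < I} ‖D P j‖ ≤ ∑_{i<I} ‖D P (j_i + S)‖ + (1 + ρ - γ + S) C₀`.  Total `≤ (3 ε / 8) I + C'(ρ) ≤ ε I` for `I ≥ I₀` (`C'(ρ)` bounded for `ρ ≤ J`).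
-/

namespace Pool.Agent.Lib.MP_d57abb_nt.AS

open Finset Pool.Agent.Lib.MP_d57abb_nt Pool.Agent.Lib.MP_d57abb_nt.TA Pool.Agent.Lib.MP_d57abb_nt.TZ

private theorem AvgK_mean' {ι : Type*} (S : Finset ι) (f : ι → ℂ) {ε : ℝ} (hε : 0 ≤ ε)
    (h : ∀ p ∈ S, ‖f p‖ ≤ ε) : ‖(∑ p ∈ S, f p) / (S.card : ℂ)‖ ≤ ε := by
  rw [norm_div, Complex.norm_natCast]
  rcases Nat.eq_zero_or_pos S.card with h0 | h0
  · rw [h0, Nat.cast_zero, div_zero]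
    exact hε
  · rw [div_le_iff₀ (by exact_mod_cast h0)]
    refine (norm_sum_le _ _).trans ?_
    refine (Finset.sum_le_sum h).trans ?_
    rw [Finset.sum_const, nsmul_eq_mul, mul_comm]

open Classical in
private theorem AvgK_PS_mem {P p : ℕ} (hp : p ∈ PS P) : SP p := by
  rw [PS, mem_filter] at hp
  exact hp.2

private theorem AvgK_PS_nonempty (e : ℕ) : ∃ ρ₀ : ℕ, ∀ ρ : ℕ, ρ₀ ≤ ρ → 0 < (PS (PP e ρ)).card := by
  obtain ⟨P₀, hP₀⟩ := card_PS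
  refine ⟨e + P₀ + 1, fun ρ hρ => ?_⟩
  have h2 : P₀ + 1 ≤ 2 * ρ - e := by omega
  have h3 : P₀ + 1 < 2 ^ (P₀ + 1) := Nat.lt_two_pow_self
  have h4 : 2 ^ (P₀ + 1) ≤ PP e ρ := Nat.pow_le_pow_right (by norm_num) h2
  have h5 := hP₀ (PP e ρ) (by omega)
  have h6 : (1 : ℝ) < (PP e ρ : ℝ) := by
    have : 1 < PP e ρ := by
      have : 2 ≤ 2 ^ (P₀ + 1) := by
        calc 2 = 2 ^ 1 := by norm_num
          _ ≤ _ := Nat.pow_le_pow_right (by norm_num) (by omega)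
      omega
    exact_mod_cast this
  have h7 : 0 < Real.log (PP e ρ : ℝ) := Real.log_pos h6
  have h8 : (0 : ℝ) < (PP e ρ : ℝ) / (16 * Real.log (PP e ρ : ℝ)) := by positivity
  exact_mod_cast h8.trans_le h5

private theorem AvgK_min {ι : Type*} (s : Finset ι) (f : ι → ℝ) (h : ∀ i ∈ s, 0 < f i) :
    ∃ δ : ℝ, 0 < δ ∧ ∀ i ∈ s, δ ≤ f i := by
  classical
  induction s using Finset.induction_on with
  | empty => exact ⟨1, one_pos, fun i hi => absurd hi (Finset.notMem_empty i)⟩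
  | insert a s ha ih =>
    obtain ⟨δ, h0, h1⟩ := ih fun i hi => h i (Finset.mem_insert_of_mem hi)
    refine ⟨min δ (f a), lt_min h0 (h a (Finset.mem_insert_self a s)), fun i hi => ?_⟩
    rcases Finset.mem_insert.1 hi with rfl | hi
    · exact min_le_right _ _
    · exact (min_le_left _ _).trans (h1 i hi)

private theorem AvgK_abs {D : ℕ → ℂ} {σ n : ℕ} {C₀ ε η : ℝ} {m : ℕ → ℝ} (hm : ∀ i, 0 ≤ m i)
    (hC : ∀ j, ‖D j‖ ≤ C₀) (hε : 0 ≤ ε) (hη : 0 ≤ η)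
    (h : ∃ i₀ : ℕ, ∀ i, i₀ ≤ i → ‖D (i + σ)‖ ≤ ε + ∑ s ∈ range n, η * (1 + m (i + s))) :
    ∃ C : ℝ, ∀ I : ℕ, ∑ j ∈ range I, ‖D j‖ ≤
      ε * I + η * n * I + η * n * ∑ i ∈ range (I + n), m i + C := by
  obtain ⟨i₀, hi₀⟩ := h
  have hC0 : 0 ≤ C₀ := (norm_nonneg _).trans (hC 0)
  refine ⟨σ * C₀ + i₀ * C₀, fun I => ?_⟩
  have h1 : ∀ i, ‖D (i + σ)‖ ≤ (ε + ∑ s ∈ range n, η * (1 + m (i + s))) +
      (if i < i₀ then C₀ else 0) := by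
    intro i
    have hp : 0 ≤ ∑ s ∈ range n, η * (1 + m (i + s)) :=
      Finset.sum_nonneg fun s _ => mul_nonneg hη (by linarith [hm (i + s)])
    split_ifs with hh
    · linarith [hC (i + σ)]
    · linarith [hi₀ i (by omega)]
  have h2 : ∑ i ∈ range I, (if i < i₀ then C₀ else 0) ≤ i₀ * C₀ := by
    rw [← Finset.sum_filter, Finset.sum_const, nsmul_eq_mul]
    refine mul_le_mul_of_nonneg_right ?_ hC0
    have : ((range I).filter fun i => i < i₀).card ≤ (range i₀).card :=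
      Finset.card_le_card fun i hi => mem_range.2 (mem_filter.1 hi).2
    rw [card_range] at this
    exact_mod_cast this
  have h3 : ∀ s ∈ range n, ∑ i ∈ range I, m (i + s) ≤ ∑ i ∈ range (I + n), m i := by
    intro s hs
    have hs' := mem_range.1 hs
    have e1 : ∑ i ∈ range (s + I), m i = ∑ i ∈ range s, m i + ∑ i ∈ range I, m (s + i) :=
      Finset.sum_range_add _ _ _
    have e2 : 0 ≤ ∑ i ∈ range s, m i := Finset.sum_nonneg fun i _ => hm i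
    have e3 : ∑ i ∈ range (s + I), m i ≤ ∑ i ∈ range (I + n), m i :=
      Finset.sum_le_sum_of_subset_of_nonneg (Finset.range_mono (by omega)) fun i _ _ => hm i
    have e4 : ∑ i ∈ range I, m (i + s) = ∑ i ∈ range I, m (s + i) :=
      Finset.sum_congr rfl fun i _ => by rw [add_comm]
    rw [e4]
    linarith
  have h4 : ∑ i ∈ range I, ∑ s ∈ range n, η * (1 + m (i + s)) ≤
      η * n * I + η * n * ∑ i ∈ range (I + n), m i := by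
    rw [Finset.sum_comm]
    have e1 : ∀ s ∈ range n, ∑ i ∈ range I, η * (1 + m (i + s)) ≤
        η * I + η * ∑ i ∈ range (I + n), m i := by
      intro s hs
      rw [← Finset.mul_sum, Finset.sum_add_distrib, Finset.sum_const, card_range, nsmul_eq_mul,
        mul_one, mul_add]
      have := mul_le_mul_of_nonneg_left (h3 s hs) hη
      linarith
    refine (Finset.sum_le_sum e1).trans (le_of_eq ?_)
    rw [Finset.sum_const, card_range, nsmul_eq_mul]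
    ring
  have h5 : ∑ i ∈ range I, ‖D (i + σ)‖ ≤
      ε * I + (η * n * I + η * n * ∑ i ∈ range (I + n), m i) + i₀ * C₀ := by
    refine (Finset.sum_le_sum fun i _ => h1 i).trans ?_
    rw [Finset.sum_add_distrib, Finset.sum_add_distrib, Finset.sum_const, card_range,
      nsmul_eq_mul, mul_comm (I : ℝ) ε]
    linarith
  have h6 : ∑ j ∈ range I, ‖D j‖ ≤ ∑ i ∈ range I, ‖D (i + σ)‖ + σ * C₀ := by
    have e1 : ∑ i ∈ range (σ + I), ‖D i‖ = ∑ i ∈ range σ, ‖D i‖ + ∑ i ∈ range I, ‖D (σ + i)‖ :=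
      Finset.sum_range_add _ _ _
    have e2 : ∑ i ∈ range I, ‖D i‖ ≤ ∑ i ∈ range (σ + I), ‖D i‖ :=
      Finset.sum_le_sum_of_subset_of_nonneg (Finset.range_mono (by omega))
        fun i _ _ => norm_nonneg _
    have e3 : ∑ i ∈ range σ, ‖D i‖ ≤ σ * C₀ := by
      refine (Finset.sum_le_sum fun i _ => hC i).trans ?_
      rw [Finset.sum_const, card_range, nsmul_eq_mul]
    have e4 : ∑ i ∈ range I, ‖D (i + σ)‖ = ∑ i ∈ range I, ‖D (σ + i)‖ :=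
      Finset.sum_congr rfl fun i _ => by rw [add_comm]
    linarith
  linarith

private theorem AvgK_pow {a p j : ℕ} (h : a + p ^ 2 ≤ j) : 2 ^ a * p ^ 2 < 4 ^ j := by
  have h1 : p ^ 2 < 2 ^ (p ^ 2) := Nat.lt_two_pow_self
  calc 2 ^ a * p ^ 2 < 2 ^ a * 2 ^ (p ^ 2) := Nat.mul_lt_mul_of_pos_left h1 (by positivity)
    _ = 2 ^ (a + p ^ 2) := by rw [pow_add]
    _ ≤ 4 ^ (a + p ^ 2) := Nat.pow_le_pow_left (by norm_num) _
    _ ≤ 4 ^ j := Nat.pow_le_pow_right (by norm_num) h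

private theorem AvgK_fixed {q : ℕ} {z : ℂ} (hzn : ‖z‖ = 1) {φ ψ : ℝ → ℝ} {a k : ℕ} {La L : ℝ}
    (hφ : PW φ a La) (hψ : PW ψ k L) {ε η₁ δ : ℝ} (hε : 0 ≤ ε) {E ρ M : ℕ}
    (hconv : ∀ p : ℕ, SP p → ∃ j₀ : ℕ, ∀ j : ℕ, j₀ ≤ j →
      ‖(p : ℂ) * GK φ ψ z (a + k + 9) p (j + (a + k + 1)) -
        ∑ l ∈ range (M + 1), ∑ s ∈ range (2 * (a + k + 1) + 1), (p : ℂ) *
          GP (fun v => gl M l (mu1 v)) (Whs φ ψ (a + k + 1) s (ul M l)) z (k + 5) p (j + s)‖ ≤ ε)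
    (hsing : ∀ l s, l ∈ range (M + 1) → s ∈ range (2 * (a + k + 1) + 1) → ∃ i₀ : ℕ, ∀ i : ℕ, i₀ ≤ i →
      ‖(∑ p ∈ PS (PP E ρ), (p : ℂ) * GP (fun v => gl M l (mu1 v))
        (Whs φ ψ (a + k + 1) s (ul M l)) z (k + 5) p (i + (ρ - (k + 5)))) /
          ((PS (PP E ρ)).card : ℂ)‖ ≤ η₁ * (1 + MI q E ρ (2 ^ i) * ρ / (δ * 4 ^ ρ))) :
    ∃ i₀ : ℕ, ∀ i : ℕ, i₀ ≤ i →
      ‖(∑ p ∈ PS (PP E ρ), SK a φ ψ z (4 ^ (i + (1 + (ρ - (k + 5)) + (a + k + 1))) / p)) /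
        ((PS (PP E ρ)).card : ℂ)‖ ≤ ε + ∑ s ∈ range (2 * (a + k + 1) + 1),
          ((M + 1) * η₁) * (1 + MI q E ρ (2 ^ (i + s + 1)) * ρ / (δ * 4 ^ ρ)) := by
  choose! j₀ hj₀ using hconv
  choose! i₀ hi₀ using hsing
  refine ⟨(PS (PP E ρ)).sup (fun p => j₀ p + (a + p ^ 2)) +
    ∑ l ∈ range (M + 1), ∑ s ∈ range (2 * (a + k + 1) + 1), i₀ l s, fun i hi => ?_⟩
  obtain ⟨j, hj⟩ : ∃ j : ℕ, j = i + 1 + (ρ - (k + 5)) := ⟨_, rfl⟩
  have hjj : i + (1 + (ρ - (k + 5)) + (a + k + 1)) = j + (a + k + 1) := by omega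
  rw [hjj]
  have hpj : ∀ p ∈ PS (PP E ρ), j₀ p + (a + p ^ 2) ≤ j := by
    intro p hp
    have := Finset.le_sup (f := fun p => j₀ p + (a + p ^ 2)) hp
    have h2 : j₀ p + (a + p ^ 2) ≤ (PS (PP E ρ)).sup (fun p => j₀ p + (a + p ^ 2)) := this
    omega
  have hls : ∀ l ∈ range (M + 1), ∀ s ∈ range (2 * (a + k + 1) + 1), i₀ l s ≤ i := by
    intro l hl s hs
    have h1 : i₀ l s ≤ ∑ s ∈ range (2 * (a + k + 1) + 1), i₀ l s :=
      Finset.single_le_sum (f := fun s => i₀ l s) (fun _ _ => Nat.zero_le _) hs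
    have h2 : ∑ s ∈ range (2 * (a + k + 1) + 1), i₀ l s ≤
        ∑ l ∈ range (M + 1), ∑ s ∈ range (2 * (a + k + 1) + 1), i₀ l s :=
      Finset.single_le_sum (f := fun l => ∑ s ∈ range (2 * (a + k + 1) + 1), i₀ l s)
        (fun _ _ => Nat.zero_le _) hl
    omega
  have e1 : ∀ p ∈ PS (PP E ρ), z ^ 2 * SK a φ ψ z (4 ^ (j + (a + k + 1)) / p) =
      (p : ℂ) * GK φ ψ z (a + k + 9) p (j + (a + k + 1)) := by
    intro p hp
    have h1 := hpj p hp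
    exact (dilK hφ hψ z (AvgK_PS_mem hp) (AvgK_pow (by omega)) (by omega)).symm
  have e2 : ‖(∑ p ∈ PS (PP E ρ), SK a φ ψ z (4 ^ (j + (a + k + 1)) / p)) /
      ((PS (PP E ρ)).card : ℂ)‖ =
      ‖(∑ p ∈ PS (PP E ρ), (p : ℂ) * GK φ ψ z (a + k + 9) p (j + (a + k + 1))) /
        ((PS (PP E ρ)).card : ℂ)‖ := by
    rw [← Finset.sum_congr rfl e1, ← Finset.mul_sum, mul_div_assoc, norm_mul, norm_pow, hzn,
      one_pow, one_mul]
  rw [e2]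
  have e3 : (∑ p ∈ PS (PP E ρ), (p : ℂ) * GK φ ψ z (a + k + 9) p (j + (a + k + 1))) /
        ((PS (PP E ρ)).card : ℂ) =
      (∑ p ∈ PS (PP E ρ), ((p : ℂ) * GK φ ψ z (a + k + 9) p (j + (a + k + 1)) -
        ∑ l ∈ range (M + 1), ∑ s ∈ range (2 * (a + k + 1) + 1), (p : ℂ) *
          GP (fun v => gl M l (mu1 v)) (Whs φ ψ (a + k + 1) s (ul M l)) z (k + 5) p (j + s))) /
        ((PS (PP E ρ)).card : ℂ) +
      ∑ l ∈ range (M + 1), ∑ s ∈ range (2 * (a + k + 1) + 1), (∑ p ∈ PS (PP E ρ), (p : ℂ) *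
          GP (fun v => gl M l (mu1 v)) (Whs φ ψ (a + k + 1) s (ul M l)) z (k + 5) p (j + s)) /
        ((PS (PP E ρ)).card : ℂ) := by
    have f1 : ∑ l ∈ range (M + 1), ∑ s ∈ range (2 * (a + k + 1) + 1),
        (∑ p ∈ PS (PP E ρ), (p : ℂ) * GP (fun v => gl M l (mu1 v))
          (Whs φ ψ (a + k + 1) s (ul M l)) z (k + 5) p (j + s)) / ((PS (PP E ρ)).card : ℂ) =
        (∑ p ∈ PS (PP E ρ), ∑ l ∈ range (M + 1), ∑ s ∈ range (2 * (a + k + 1) + 1), (p : ℂ) *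
          GP (fun v => gl M l (mu1 v)) (Whs φ ψ (a + k + 1) s (ul M l)) z (k + 5) p (j + s)) /
          ((PS (PP E ρ)).card : ℂ) := by
      rw [Finset.sum_comm (s := PS (PP E ρ)), Finset.sum_div]
      refine Finset.sum_congr rfl fun l _ => ?_
      rw [Finset.sum_comm (s := PS (PP E ρ)), Finset.sum_div]
    rw [f1, ← add_div, ← Finset.sum_add_distrib]
    refine congrArg (fun w => w / ((PS (PP E ρ)).card : ℂ)) ?_
    refine Finset.sum_congr rfl fun p _ => ?_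
    rw [sub_add_cancel]
  rw [e3]
  refine (norm_add_le _ _).trans (add_le_add ?_ ?_)
  · refine AvgK_mean' _ _ hε fun p hp => ?_
    exact hj₀ p (AvgK_PS_mem hp) j (by have := hpj p hp; omega)
  · have g1 : ∀ l ∈ range (M + 1), ∀ s ∈ range (2 * (a + k + 1) + 1),
        ‖(∑ p ∈ PS (PP E ρ), (p : ℂ) * GP (fun v => gl M l (mu1 v))
          (Whs φ ψ (a + k + 1) s (ul M l)) z (k + 5) p (j + s)) / ((PS (PP E ρ)).card : ℂ)‖ ≤
        η₁ * (1 + MI q E ρ (2 ^ (i + s + 1)) * ρ / (δ * 4 ^ ρ)) := by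
      intro l hl s hs
      have h1 := hi₀ l s hl hs (i + s + 1) (by have := hls l hl s hs; omega)
      have h2 : i + s + 1 + (ρ - (k + 5)) = j + s := by omega
      rw [h2] at h1
      exact h1
    calc ‖∑ l ∈ range (M + 1), ∑ s ∈ range (2 * (a + k + 1) + 1), (∑ p ∈ PS (PP E ρ), (p : ℂ) *
          GP (fun v => gl M l (mu1 v)) (Whs φ ψ (a + k + 1) s (ul M l)) z (k + 5) p (j + s)) /
        ((PS (PP E ρ)).card : ℂ)‖
        ≤ ∑ l ∈ range (M + 1), ∑ s ∈ range (2 * (a + k + 1) + 1),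
          η₁ * (1 + MI q E ρ (2 ^ (i + s + 1)) * ρ / (δ * 4 ^ ρ)) := by
          refine (norm_sum_le _ _).trans (Finset.sum_le_sum fun l hl => ?_)
          exact (norm_sum_le _ _).trans (Finset.sum_le_sum fun s hs => g1 l hl s hs)
      _ = ∑ s ∈ range (2 * (a + k + 1) + 1),
          ((M + 1) * η₁) * (1 + MI q E ρ (2 ^ (i + s + 1)) * ρ / (δ * 4 ^ ρ)) := by
          rw [Finset.sum_const, card_range, nsmul_eq_mul, Finset.mul_sum]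
          refine Finset.sum_congr rfl fun s _ => ?_
          push_cast
          ring

theorem avgK {q : ℕ} (hq : 1 ≤ q) {z : ℂ} (hz : z ^ q = 1) (hz1 : z ≠ 1) {φ ψ : ℝ → ℝ} {a k : ℕ} {La L : ℝ}
    (hφ : PW φ a La) (hψ : PW ψ k L) {ε : ℝ} (hε : 0 < ε) :
    ∃ e : ℕ, ∀ ρ₀ : ℕ, ∃ J I₀ : ℕ, ∀ I : ℕ, I₀ ≤ I → ∃ ρ : ℕ, ρ₀ ≤ ρ ∧ ρ ≤ J ∧
      (∑ j ∈ range I, ‖(∑ p ∈ PS (PP (2 * e) ρ), SK a φ ψ z (4 ^ j / p)) /
        ((PS (PP (2 * e) ρ)).card : ℂ)‖) / (I : ℝ) ≤ ε := by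
  have hzn : ‖z‖ = 1 := by
    have h1 : ‖z‖ ^ q = 1 := by rw [← norm_pow, hz, norm_one]
    exact (pow_eq_one_iff_of_nonneg (norm_nonneg _) (by omega)).1 h1
  obtain ⟨C₀, hC₀0, hC₀⟩ := SK_bdd hφ hψ hzn
  have hε8 : 0 < ε / 8 := by positivity
  obtain ⟨M, hM1, hM⟩ := convK hq hz hφ hψ hε8
  have hconv := hM M le_rfl
  obtain ⟨n, hn⟩ : ∃ n : ℕ, n = 2 * (a + k + 1) + 1 := ⟨_, rfl⟩
  have hn0 : (0 : ℝ) < n := by
    rw [hn]
    positivity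
  obtain ⟨ε₁, hε₁⟩ : ∃ ε₁ : ℝ, ε₁ = ε / 8 / ((M + 1) * n) := ⟨_, rfl⟩
  have hε₁0 : 0 < ε₁ := by
    rw [hε₁]
    positivity
  have hη : (M + 1) * ε₁ * n = ε / 8 := by
    rw [hε₁]
    field_simp
  have hsing : ∀ l s, l ∈ range (M + 1) → ∃ e₀ : ℕ, ∀ e : ℕ, e₀ ≤ e → ∃ δ : ℝ, 0 < δ ∧ ∃ ρ₀ : ℕ,
      ∀ ρ : ℕ, ρ₀ ≤ ρ → ∃ i₀ : ℕ, ∀ i : ℕ, i₀ ≤ i →
      ‖(∑ p ∈ PS (PP e ρ), (p : ℂ) * GP (fun v => gl M l (mu1 v))
        (Whs φ ψ (a + k + 1) s (ul M l)) z (k + 5) p (i + (ρ - (k + 5)))) /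
          ((PS (PP e ρ)).card : ℂ)‖ ≤ ε₁ * (1 + MI q e ρ (2 ^ i) * ρ / (δ * 4 ^ ρ)) := by
    intro l s hl
    have hl' : l ≤ M := by
      have := mem_range.1 hl
      omega
    obtain ⟨h1, h2⟩ := ul_bounds hM1 hl'
    obtain ⟨B, L', hB, hL', hW⟩ := GW_Whs hφ hψ (a + k + 1) s h1 h2
    exact single hq hz hz1 (gl_prop hM1 l).1 (gl_prop hM1 l).2 hB hL' hW
      (fun x y hxy => (Whs_supp hψ hxy).1) (fun x y hxy => (Whs_supp hψ hxy).2) hε₁0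
  choose! e₀ he₀ using hsing
  obtain ⟨e, he⟩ : ∃ e : ℕ, e = ∑ l ∈ range (M + 1), ∑ s ∈ range n, e₀ l s := ⟨_, rfl⟩
  refine ⟨e, fun ρ₀ => ?_⟩
  have hle : ∀ l s, l ∈ range (M + 1) → s ∈ range n → e₀ l s ≤ 2 * e := by
    intro l s hl hs
    have h1 : e₀ l s ≤ ∑ s ∈ range n, e₀ l s :=
      Finset.single_le_sum (f := fun s => e₀ l s) (fun _ _ => Nat.zero_le _) hs
    have h2 : ∑ s ∈ range n, e₀ l s ≤ ∑ l ∈ range (M + 1), ∑ s ∈ range n, e₀ l s :=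
      Finset.single_le_sum (f := fun l => ∑ s ∈ range n, e₀ l s) (fun _ _ => Nat.zero_le _) hl
    omega
  have hs2 := fun l s (hl : l ∈ range (M + 1)) (hs : s ∈ range n) =>
    he₀ l s hl (2 * e) (hle l s hl hs)
  choose! δ hδ ρ₁ hρ₁ using hs2
  obtain ⟨δ', hδ'0, hδ'⟩ := AvgK_min (range (M + 1) ×ˢ range n) (fun t => δ t.1 t.2)
    (fun t ht => hδ t.1 t.2 (Finset.mem_product.1 ht).1 (Finset.mem_product.1 ht).2)
  obtain ⟨ρ₄, hρ₄⟩ := AvgK_PS_nonempty (2 * e)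
  obtain ⟨R, hR⟩ : ∃ R : ℕ, R = ρ₀ + (∑ l ∈ range (M + 1), ∑ s ∈ range n, ρ₁ l s) + ρ₄ + 1 :=
    ⟨_, rfl⟩
  have hρle : ∀ l s, l ∈ range (M + 1) → s ∈ range n → ρ₁ l s ≤ R := by
    intro l s hl hs
    have h1 : ρ₁ l s ≤ ∑ s ∈ range n, ρ₁ l s :=
      Finset.single_le_sum (f := fun s => ρ₁ l s) (fun _ _ => Nat.zero_le _) hs
    have h2 : ∑ s ∈ range n, ρ₁ l s ≤ ∑ l ∈ range (M + 1), ∑ s ∈ range n, ρ₁ l s :=
      Finset.single_le_sum (f := fun l => ∑ s ∈ range n, ρ₁ l s) (fun _ _ => Nat.zero_le _) hl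
    omega
  have hfix : ∀ ρ, R ≤ ρ → ∃ C : ℝ, ∀ I : ℕ,
      ∑ j ∈ range I, ‖(∑ p ∈ PS (PP (2 * e) ρ), SK a φ ψ z (4 ^ j / p)) /
        ((PS (PP (2 * e) ρ)).card : ℂ)‖ ≤
      ε / 8 * I + (M + 1) * ε₁ * n * I + (M + 1) * ε₁ * n *
        ∑ i ∈ range (I + n), MI q (2 * e) ρ (2 ^ (i + 1)) * ρ / (δ' * 4 ^ ρ) + C := by
    intro ρ hρ
    refine AvgK_abs (D := fun j => (∑ p ∈ PS (PP (2 * e) ρ), SK a φ ψ z (4 ^ j / p)) /
        ((PS (PP (2 * e) ρ)).card : ℂ)) (σ := 1 + (ρ - (k + 5)) + (a + k + 1)) (n := n) (C₀ := C₀)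
        (ε := ε / 8) (η := (M + 1) * ε₁)
        (m := fun i => MI q (2 * e) ρ (2 ^ (i + 1)) * ρ / (δ' * 4 ^ ρ)) ?_ ?_ hε8.le
        (by positivity) ?_
    · intro i
      have := MI_nonneg q (2 * e) ρ (2 ^ (i + 1))
      positivity
    · intro j
      refine AvgK_mean' _ _ hC₀0 fun p hp => hC₀ _ ?_
      have : (0 : ℝ) < p := by exact_mod_cast (AvgK_PS_mem hp).1.pos
      positivity
    · rw [hn]
      refine AvgK_fixed hzn hφ hψ hε8.le hconv ?_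
      intro l s hl hs
      rw [← hn] at hs
      obtain ⟨i₀, hi₀⟩ := hρ₁ l s hl hs ρ ((hρle l s hl hs).trans hρ)
      refine ⟨i₀, fun i hi => (hi₀ i hi).trans ?_⟩
      refine mul_le_mul_of_nonneg_left ?_ hε₁0.le
      have h1 := hδ' (l, s) (Finset.mem_product.2 ⟨hl, hs⟩)
      have h2 : δ' ≤ δ l s := h1
      have h3 := MI_nonneg q (2 * e) ρ (2 ^ i)
      have h4 : MI q (2 * e) ρ (2 ^ i) * ρ / (δ l s * 4 ^ ρ) ≤
          MI q (2 * e) ρ (2 ^ i) * ρ / (δ' * 4 ^ ρ) := by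
        refine div_le_div_of_nonneg_left (by positivity) (by positivity) ?_
        exact mul_le_mul_of_nonneg_right h2 (by positivity)
      linarith
  choose! C hC using hfix
  obtain ⟨J, I₀, hJ⟩ := good_scale hq (2 * e) hδ'0 R
  obtain ⟨C', hC'⟩ : ∃ C' : ℝ, C' = ∑ ρ ∈ range (J + 1), |C ρ| := ⟨_, rfl⟩
  obtain ⟨I₁, hI₁⟩ := exists_nat_gt ((ε / 8 * n + C') / (ε / 2))
  refine ⟨J, I₀ + I₁ + 1, fun I hI => ?_⟩
  obtain ⟨ρ, hρR, hρJ, hsum⟩ := hJ (I + n) (by omega)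
  refine ⟨ρ, by omega, hρJ, ?_⟩
  have hI0 : (0 : ℝ) < (I : ℝ) := by exact_mod_cast (by omega : 0 < I)
  have hIn0 : (0 : ℝ) < ((I + n : ℕ) : ℝ) := by exact_mod_cast (by omega : 0 < I + n)
  have hρ0 : (0 : ℝ) < (ρ : ℝ) := by exact_mod_cast (by omega : 0 < ρ)
  have h4 : (0 : ℝ) < 4 ^ ρ := by positivity
  have h1 := hC ρ hρR I
  have h2 : ∑ i ∈ range (I + n), MI q (2 * e) ρ (2 ^ (i + 1)) * ρ / (δ' * 4 ^ ρ) ≤ I + n := by
    rw [← Finset.sum_div, ← Finset.sum_mul, div_le_iff₀ (by positivity)]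
    rw [div_le_iff₀ hIn0, div_mul_eq_mul_div, le_div_iff₀ hρ0] at hsum
    push_cast at hsum
    linarith
  have h3 : C ρ ≤ C' := by
    rw [hC']
    exact (le_abs_self _).trans
      (Finset.single_le_sum (f := fun ρ => |C ρ|) (fun _ _ => abs_nonneg _)
        (mem_range.2 (by omega)))
  have h6 : ε / 8 * n + C' ≤ ε / 2 * I := by
    have h7 : (ε / 8 * n + C') / (ε / 2) ≤ I := by
      refine hI₁.le.trans ?_
      exact_mod_cast (by omega : I₁ ≤ I)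
    rw [div_le_iff₀ (by positivity)] at h7
    linarith
  rw [hη] at h1
  rw [div_le_iff₀ hI0]
  have h8 := mul_le_mul_of_nonneg_left h2 hε8.le
  have h9 : 0 < ε * I := mul_pos hε hI0
  linarith

end Pool.Agent.Lib.MP_d57abb_nt.AS
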