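import Mathlib

/-!
# JOB ClsN (about 150 lines, adaptation of `TZ/Cls.lean`): from roots of unity to residue classes, along a filter

Copy `Cls_ind`, `Cls_sum` of `TZ/Cls.lean` (names `ClsN_`).  With `S X = ∑_{k ≤ X} t k ≥ c0 X` and `T l X = ∑_{k ≤ X} t k (ζ^l)^(g k)`, `ζ = exp (2 π i / m)`:
`S_r X / S X = (1/m) (1 + ∑_{1 ≤ l < m} ζ^(l (m - r)) T l X / S X)` for large `X`, and `‖T l X‖ / S X ≤ (‖T l X‖ / X) / c0 → 0` along `F` (`hS` for `ζ^l`); everything as in `classes` (eventually along `F` because `F ≤ atTop`).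
-/

namespace Pool.Agent.Lib.MP_d57abb_nt.AS

open Finset Filter Topology

private theorem ClsN_ind {m r : ℕ} (hr : r < m) {ζ : ℂ} (hζ : IsPrimitiveRoot ζ m) (a : ℕ) :
    ∑ l ∈ range m, ζ ^ (l * (m - r)) * (ζ ^ l) ^ a = if a % m = r then (m : ℂ) else 0 := by
  have e : ∀ l ∈ range m, ζ ^ (l * (m - r)) * (ζ ^ l) ^ a = (ζ ^ (a + (m - r))) ^ l := by
    intro l _
    rw [← pow_mul, ← pow_mul, ← pow_add]
    congr 1
    ring
  rw [Finset.sum_congr rfl e]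
  have hiff : ζ ^ (a + (m - r)) = 1 ↔ a % m = r := by
    rw [hζ.pow_eq_one_iff_dvd]
    constructor
    · rintro ⟨c, hc⟩
      have h1 : (a + (m - r) + r) % m = r % m := by
        rw [hc, add_comm, Nat.add_mul_mod_self_left]
      have h2 : a + (m - r) + r = a + m := by omega
      rw [h2, Nat.add_mod_right, Nat.mod_eq_of_lt hr] at h1
      exact h1
    · intro h
      have h1 := Nat.div_add_mod a m
      rw [h] at h1
      refine ⟨a / m + 1, ?_⟩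
      rw [mul_add, mul_one]
      omega
  by_cases h : a % m = r
  · rw [if_pos h, hiff.2 h]
    simp
  · rw [if_neg h]
    have h1 : ζ ^ (a + (m - r)) ≠ 1 := fun h2 => h (hiff.1 h2)
    rw [geom_sum_eq h1, ← pow_mul, mul_comm, pow_mul, hζ.pow_eq_one, one_pow, sub_self, zero_div]

private theorem ClsN_sum {m r : ℕ} (hm : 1 ≤ m) (hr : r < m) {ζ : ℂ} (hζ : IsPrimitiveRoot ζ m)
    (t : ℕ → ℝ) (g : ℕ → ℕ) (N : ℕ) :
    (((∑ k ∈ (Icc 1 N).filter (fun k => g k % m = r), t k : ℝ) : ℂ)) =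
      (1 / (m : ℂ)) * ∑ l ∈ range m, ζ ^ (l * (m - r)) *
        ∑ k ∈ Icc 1 N, ((t k : ℝ) : ℂ) * (ζ ^ l) ^ g k := by
  have hm0 : (m : ℂ) ≠ 0 := by exact_mod_cast (by omega : m ≠ 0)
  have e1 : ∑ l ∈ range m, ζ ^ (l * (m - r)) * ∑ k ∈ Icc 1 N, ((t k : ℝ) : ℂ) * (ζ ^ l) ^ g k =
      ∑ k ∈ Icc 1 N, ((t k : ℝ) : ℂ) * ∑ l ∈ range m, ζ ^ (l * (m - r)) * (ζ ^ l) ^ g k := by
    simp only [Finset.mul_sum]
    rw [Finset.sum_comm]
    refine Finset.sum_congr rfl fun k _ => Finset.sum_congr rfl fun l _ => ?_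
    ring
  rw [e1, Finset.mul_sum, Finset.sum_filter, Complex.ofReal_sum]
  refine Finset.sum_congr rfl fun k _ => ?_
  rw [ClsN_ind hr hζ]
  split_ifs
  · field_simp
  · simp

theorem clsN {F : Filter ℕ} (hF : F ≤ atTop) (t : ℕ → ℝ) (g : ℕ → ℕ)
    (hlow : ∃ c0 : ℝ, 0 < c0 ∧ ∃ N0 : ℕ, ∀ N : ℕ, N0 ≤ N → c0 * N ≤ ∑ k ∈ Icc 1 N, t k)
    (m r : ℕ) (hr : r < m)
    (hS : ∀ z : ℂ, z ^ m = 1 → z ≠ 1 →
      Tendsto (fun X : ℕ => ‖∑ k ∈ Icc 1 X, (t k : ℂ) * z ^ g k‖ / X) F (𝓝 0)) :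
    Tendsto (fun X : ℕ => (∑ k ∈ (Icc 1 X).filter (fun k => g k % m = r), t k) /
      (∑ k ∈ Icc 1 X, t k)) F (𝓝 (1 / (m : ℝ))) := by
  have hm : 1 ≤ m := by omega
  have hζ : IsPrimitiveRoot (Complex.exp (2 * Real.pi * Complex.I / m)) m :=
    Complex.isPrimitiveRoot_exp m (by omega)
  set ζ : ℂ := Complex.exp (2 * Real.pi * Complex.I / m) with hζdef
  have hm0 : (m : ℂ) ≠ 0 := by exact_mod_cast (by omega : m ≠ 0)
  obtain ⟨c0, hc0, N0, hN0⟩ := hlow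
  set S : ℕ → ℝ := fun N => ∑ k ∈ Icc 1 N, t k with hSdef
  set T : ℕ → ℕ → ℂ := fun l N => ∑ k ∈ Icc 1 N, ((t k : ℝ) : ℂ) * (ζ ^ l) ^ g k
    with hTdef
  have hpos : ∀ N : ℕ, N0 + 1 ≤ N → (0 : ℝ) < N := by
    intro N hN
    exact_mod_cast (by omega : 0 < N)
  have hSpos : ∀ N : ℕ, N0 + 1 ≤ N → 0 < S N := by
    intro N hN
    have h1 := hN0 N (by omega)
    have h3 : 0 < c0 * (N : ℝ) := mul_pos hc0 (hpos N hN)
    exact lt_of_lt_of_le h3 h1
  have hT0 : ∀ N, T 0 N = ((S N : ℝ) : ℂ) := by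
    intro N
    simp only [hTdef, hSdef, pow_zero, one_pow, mul_one]
    rw [Complex.ofReal_sum]
  have hTl : ∀ l : ℕ, l ∈ (range m).erase 0 →
      Tendsto (fun N : ℕ => T l N / ((S N : ℝ) : ℂ)) F (𝓝 0) := by
    intro l hl
    rw [Finset.mem_erase, Finset.mem_range] at hl
    have h1 : (ζ ^ l) ^ m = 1 := by
      rw [← pow_mul, mul_comm, pow_mul, hζ.pow_eq_one, one_pow]
    have h2 : ζ ^ l ≠ 1 := by
      intro h
      rw [hζ.pow_eq_one_iff_dvd] at h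
      exact hl.1 (Nat.eq_zero_of_dvd_of_lt h hl.2)
    have h3 := hS (ζ ^ l) h1 h2
    have h4 : Tendsto (fun N : ℕ => ‖T l N‖ / N * (1 / c0)) F (𝓝 0) := by
      have := h3.mul_const (1 / c0)
      rw [zero_mul] at this
      exact this
    refine squeeze_zero_norm' ?_ h4
    filter_upwards [hF (eventually_ge_atTop (N0 + 1))] with N hN
    have h5 := hN0 N (by omega)
    have h6 := hpos N hN
    have h7 := hSpos N hN
    rw [norm_div, Complex.norm_real, Real.norm_of_nonneg h7.le, div_mul_div_comm, mul_one]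
    refine div_le_div_of_nonneg_left (norm_nonneg _) (mul_pos h6 hc0) ?_
    rw [mul_comm]
    exact h5
  have hlim : Tendsto (fun N : ℕ => (1 / (m : ℂ)) * (1 + ∑ l ∈ (range m).erase 0,
      ζ ^ (l * (m - r)) * (T l N / ((S N : ℝ) : ℂ)))) F (𝓝 ((1 / (m : ℂ)) *
      (1 + ∑ l ∈ (range m).erase 0, ζ ^ (l * (m - r)) * 0))) := by
    refine Tendsto.const_mul _ (Tendsto.const_add _ ?_)
    exact tendsto_finsetSum _ fun l hl => (hTl l hl).const_mul _
  simp only [mul_zero, Finset.sum_const_zero, add_zero, mul_one] at hlim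
  have hev : (fun N : ℕ => (1 / (m : ℂ)) * (1 + ∑ l ∈ (range m).erase 0,
      ζ ^ (l * (m - r)) * (T l N / ((S N : ℝ) : ℂ)))) =ᶠ[F]
      (fun N : ℕ => (((∑ k ∈ (Icc 1 N).filter (fun k => g k % m = r), t k) / S N : ℝ) : ℂ)) := by
    filter_upwards [hF (eventually_ge_atTop (N0 + 1))] with N hN
    have h7 := hSpos N hN
    have h8 : ((S N : ℝ) : ℂ) ≠ 0 := by exact_mod_cast h7.ne'
    rw [Complex.ofReal_div, ClsN_sum hm hr hζ t g N,
      ← Finset.add_sum_erase (range m) _ (Finset.mem_range.2 (by omega : 0 < m))]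
    have h9 : ζ ^ (0 * (m - r)) * ∑ k ∈ Icc 1 N, ((t k : ℝ) : ℂ) * (ζ ^ 0) ^ g k =
        ((S N : ℝ) : ℂ) := by
      rw [zero_mul, pow_zero, one_mul]
      have := hT0 N
      simp only [hTdef, pow_zero] at this
      exact this
    rw [h9, mul_div_assoc, add_div, div_self h8, Finset.sum_div]
    congr 2
    refine Finset.sum_congr rfl fun l _ => ?_
    rw [mul_div_assoc]
  have hlim2 := hlim.congr' hev
  have h10 := (Complex.continuous_re.tendsto (1 / (m : ℂ))).comp hlim2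
  have h11 : ((1 : ℂ) / (m : ℂ)).re = 1 / (m : ℝ) := by
    rw [← Complex.ofReal_natCast, ← Complex.ofReal_one, ← Complex.ofReal_div, Complex.ofReal_re]
  rw [h11] at h10
  exact h10

end Pool.Agent.Lib.MP_d57abb_nt.AS
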