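import Pool.Agent.Lib.MP_d57abb_nt.TZ.Defs
import Pool.Agent.Lib.MP_d57abb_nt.TA.Rt

/-!
# Stream AS (almost all scales): definitions
-/

namespace Pool.Agent.Lib.MP_d57abb_nt.AS

open Finset Pool.Agent.Lib.MP_d57abb_nt Pool.Agent.Lib.MP_d57abb_nt.TA Pool.Agent.Lib.MP_d57abb_nt.TZ

noncomputable section

/-- the smooth number of divisors of `k² + 3 k + 1` near `k` -/
def tp (ψ : ℝ → ℝ) (k : ℕ) : ℝ := ∑ d ∈ (ff k).divisors, ψ ((d : ℝ) / k)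

/-- the mass up to `Y` -/
def TT (ψ : ℝ → ℝ) (Y : ℝ) : ℝ := ∑ k ∈ Icc 1 ⌊Y⌋₊, tp ψ k

/-- the summatory function -/
def Sm (ψ : ℝ → ℝ) (z : ℂ) (Y : ℝ) : ℂ := ∑ k ∈ Icc 1 ⌊Y⌋₊, (tp ψ k : ℂ) * z ^ om k

/-- the sum at the real scale `Y` (`φ` is supported in `[2^(-a), 2^a]`) -/
def SK (a : ℕ) (φ ψ : ℝ → ℝ) (z : ℂ) (Y : ℝ) : ℂ :=
  ∑ k ∈ Icc 1 ⌊2 ^ a * Y⌋₊, ((φ (k / Y) * tp ψ k / k : ℝ) : ℂ) * z ^ om k

open Classical in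
/-- the sum over the pairs of the prime ideal above `p` at the scale `4^j` -/
def GK (φ ψ : ℝ → ℝ) (z : ℂ) (b p j : ℕ) : ℂ :=
  ∑ x ∈ (pr (2 ^ (b + j)) p).filter (fun x => Ip p x.1 ∧ Ip p x.2),
    ((φ (kk x.1 x.2 / 4 ^ j) * ψ (nm x.1 / kk x.1 x.2) / kk x.1 x.2 : ℝ) : ℂ) * aa z x.1 * aa z x.2

/-- the average of the sums at the scales `Y / u`, `1/2 ≤ u ≤ 1` -/
def MK (a : ℕ) (φ ψ : ℝ → ℝ) (z : ℂ) (Y : ℝ) : ℂ := ∫ u in (1 / 2 : ℝ)..1, SK a φ ψ z (Y / u)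

/-- the nodes of the partition of unity on `[4/5, 1]` -/
def ul (M l : ℕ) : ℝ := 4 / 5 + l / (5 * M)

/-- the partition of unity -/
def tl (M l : ℕ) (u : ℝ) : ℝ := max 0 (1 - 5 * M * |u - ul M l|)

/-- the multiplier as a function of `mu1` -/
def gl (M l : ℕ) (u : ℝ) : ℝ := tl M l u * min 1 (max 0 u)

/-- the weights -/
def Whs (φ ψ : ℝ → ℝ) (S s : ℕ) (u x y : ℝ) : ℝ :=
  hh x * φ (4 ^ s * x * y / (4 ^ S * u)) * ψ (x / y) / (x * y)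

/-- a trapezoid, equal to one on `[2^(-a-1), 2^(a+1)]` -/
def tz (a : ℕ) (x : ℝ) : ℝ := max 0 (min 1 (min (2 ^ (a + 2) * x - 1) (2 - x / 2 ^ (a + 1))))

/-- negligible for almost all scales (uniformly on the blocks `[4^j, 4^(j+1)]`) -/
def Nl (F : ℝ → ℝ) : Prop := ∀ ε : ℝ, 0 < ε → ∃ A : ℕ → ℝ, (∀ j, 0 ≤ A j) ∧
  Filter.Tendsto (fun I : ℕ => (∑ j ∈ range I, A j) / (I : ℝ)) Filter.atTop (nhds 0) ∧
  ∀ j : ℕ, ∀ Y : ℝ, 4 ^ j ≤ Y → Y ≤ 4 ^ (j + 1) → F Y ≤ A j + ε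

/-- the average of the summatory function over the scales `Y / u`, `1/2 ≤ u ≤ 1` -/
def QQ (ψ : ℝ → ℝ) (z : ℂ) (Y : ℝ) : ℂ := ∫ u in (1 / 2 : ℝ)..1, Sm ψ z (Y / u) * ((u / Y : ℝ) : ℂ)

/-- the average of the summatory function over the scales `Y / u`, `0 ≤ u ≤ 1` -/
def RR (ψ : ℝ → ℝ) (z : ℂ) (Y : ℝ) : ℂ := ∫ u in (0 : ℝ)..1, Sm ψ z (Y / u) * ((u / Y : ℝ) : ℂ)

open Classical in
/-- logarithmic density zero -/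
def LN (P : ℕ → Prop) : Prop :=
  Filter.Tendsto (fun N : ℕ => (∑ X ∈ (Icc 1 N).filter P, (1 : ℝ) / X) / Real.log N) Filter.atTop (nhds 0)

end

end Pool.Agent.Lib.MP_d57abb_nt.AS
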