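import Pool.Agent.Lib.MP_d57abb_nt.AS.Defs

/-!
# JOB NlA: the calculus of negligible functions (about 120 lines)

All from the definition of `Nl`; `0 ≤ A j`; averages of sequences.
* `mono`: blocks start at `4^0 = 1`.
* `add`: `ε / 2` each, `A = A₁ + A₂`.  `smul` (`c ≥ 0`): use `ε / (c + 1)`, `A' = c A`.
* `scale` (`1 ≤ t ≤ 4`): `Y ∈ [4^j, 4^(j+1)]` gives `t Y ∈ [4^j, 4^(j+2)]`: in block `j` or `j + 1`, `A' j = A j + A (j + 1)`; `(∑_{j<I} A (j+1)) / I ≤ ((∑_{j < I+1} A j) / (I + 1)) (I + 1) / I → 0`.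
* `lim`: for `ε` take `G` with `F ≤ G + ε / 2`.
* `sum`: induction.
-/

namespace Pool.Agent.Lib.MP_d57abb_nt.AS

open Finset

theorem Nl.mono {F G : ℝ → ℝ} (hG : Nl G) (h : ∀ Y, 1 ≤ Y → F Y ≤ G Y) : Nl F := by
  intro ε hε
  obtain ⟨A, h0, ht, hb⟩ := hG ε hε
  refine ⟨A, h0, ht, fun j Y h1 h2 => (h Y ?_).trans (hb j Y h1 h2)⟩
  exact (one_le_pow₀ (by norm_num : (1 : ℝ) ≤ 4)).trans h1

theorem Nl.add {F G : ℝ → ℝ} (hF : Nl F) (hG : Nl G) : Nl (fun Y => F Y + G Y) := by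
  intro ε hε
  obtain ⟨A, h0, ht, hb⟩ := hF (ε / 2) (by positivity)
  obtain ⟨A', h0', ht', hb'⟩ := hG (ε / 2) (by positivity)
  refine ⟨fun j => A j + A' j, fun j => add_nonneg (h0 j) (h0' j), ?_, fun j Y h1 h2 => ?_⟩
  · have h3 := ht.add ht'
    rw [add_zero] at h3
    refine h3.congr fun I => ?_
    rw [Finset.sum_add_distrib, add_div]
  · have h3 := hb j Y h1 h2
    have h4 := hb' j Y h1 h2
    show F Y + G Y ≤ A j + A' j + ε
    linarith

theorem Nl.smul {F : ℝ → ℝ} (hF : Nl F) {c : ℝ} (hc : 0 ≤ c) : Nl (fun Y => c * F Y) := by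
  intro ε hε
  have hc1 : 0 < c + 1 := by linarith
  obtain ⟨A, h0, ht, hb⟩ := hF (ε / (c + 1)) (by positivity)
  refine ⟨fun j => c * A j, fun j => mul_nonneg hc (h0 j), ?_, fun j Y h1 h2 => ?_⟩
  · have h3 := ht.const_mul c
    rw [mul_zero] at h3
    refine h3.congr fun I => ?_
    rw [← Finset.mul_sum, mul_div_assoc]
  · have h3 := mul_le_mul_of_nonneg_left (hb j Y h1 h2) hc
    have h4 : c * (ε / (c + 1)) ≤ ε := by
      rw [← mul_div_assoc, div_le_iff₀ hc1]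
      nlinarith
    show c * F Y ≤ c * A j + ε
    linarith

theorem Nl.scale {F : ℝ → ℝ} (hF : Nl F) {t : ℝ} (h1 : 1 ≤ t) (h4 : t ≤ 4) : Nl (fun Y => F (t * Y)) := by
  intro ε hε
  obtain ⟨A, h0, ht, hb⟩ := hF ε hε
  refine ⟨fun j => A j + A (j + 1), fun j => add_nonneg (h0 j) (h0 (j + 1)), ?_,
    fun j Y k1 k2 => ?_⟩
  · have h2 : Filter.Tendsto (fun I : ℕ => (∑ j ∈ range I, A (j + 1)) / (I : ℝ)) Filter.atTop
        (nhds 0) := by
      have h3 := (ht.comp (Filter.tendsto_add_atTop_nat 1)).const_mul 2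
      rw [mul_zero] at h3
      refine squeeze_zero (fun I => ?_) (fun I => ?_) h3
      · exact div_nonneg (Finset.sum_nonneg fun j _ => h0 _) (Nat.cast_nonneg _)
      · show (∑ j ∈ range I, A (j + 1)) / (I : ℝ) ≤
          2 * ((∑ j ∈ range (I + 1), A j) / ((I + 1 : ℕ) : ℝ))
        have h4 : ∑ j ∈ range I, A (j + 1) ≤ ∑ j ∈ range (I + 1), A j := by
          rw [Finset.sum_range_succ']
          linarith [h0 0]
        have h5 : 0 ≤ ∑ j ∈ range (I + 1), A j := Finset.sum_nonneg fun j _ => h0 _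
        rcases Nat.eq_zero_or_pos I with rfl | hI
        · rw [Nat.cast_zero, div_zero]
          positivity
        · have hI' : (1 : ℝ) ≤ I := by exact_mod_cast hI
          have hI0 : (0 : ℝ) < I := by linarith
          push_cast
          rw [← mul_div_assoc, div_le_div_iff₀ hI0 (by linarith)]
          have h6 : (I : ℝ) + 1 ≤ 2 * I := by linarith
          calc (∑ j ∈ range I, A (j + 1)) * ((I : ℝ) + 1)
              ≤ (∑ j ∈ range (I + 1), A j) * (2 * I) :=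
                mul_le_mul h4 h6 (by linarith) h5
            _ = 2 * (∑ j ∈ range (I + 1), A j) * I := by ring
    have h3 := ht.add h2
    rw [add_zero] at h3
    refine h3.congr fun I => ?_
    rw [Finset.sum_add_distrib, add_div]
  · have hY : (0 : ℝ) < Y := lt_of_lt_of_le (by positivity) k1
    have k3 : (4 : ℝ) ^ j ≤ t * Y := by nlinarith
    have k4 : t * Y ≤ 4 ^ (j + 1 + 1) := by
      calc t * Y ≤ 4 * 4 ^ (j + 1) := mul_le_mul h4 k2 hY.le (by norm_num)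
        _ = 4 ^ (j + 1 + 1) := by ring
    show F (t * Y) ≤ A j + A (j + 1) + ε
    rcases le_total (t * Y) (4 ^ (j + 1)) with k5 | k5
    · have := hb j (t * Y) k3 k5
      linarith [h0 (j + 1)]
    · have := hb (j + 1) (t * Y) k5 k4
      linarith [h0 j]

theorem Nl.lim {F : ℝ → ℝ} (h : ∀ ε : ℝ, 0 < ε → ∃ G : ℝ → ℝ, Nl G ∧ ∀ Y, 1 ≤ Y → F Y ≤ G Y + ε) : Nl F := by
  intro ε hε
  obtain ⟨G, hG, hFG⟩ := h (ε / 2) (by positivity)
  obtain ⟨A, h0, ht, hb⟩ := hG (ε / 2) (by positivity)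
  refine ⟨A, h0, ht, fun j Y h1 h2 => ?_⟩
  have h3 := hFG Y ((one_le_pow₀ (by norm_num : (1 : ℝ) ≤ 4)).trans h1)
  have h4 := hb j Y h1 h2
  linarith

theorem Nl.sum {ι : Type*} (S : Finset ι) {F : ι → ℝ → ℝ} (h : ∀ i ∈ S, Nl (F i)) : Nl (fun Y => ∑ i ∈ S, F i Y) := by
  classical
  induction S using Finset.induction_on with
  | empty =>
    intro ε hε
    refine ⟨fun _ => 0, fun _ => le_rfl, ?_, fun j Y _ _ => ?_⟩
    · simp
    · simp only [Finset.sum_empty]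
      linarith
  | insert a S ha ih =>
    have h1 : Nl (fun Y => F a Y + ∑ i ∈ S, F i Y) :=
      (h a (Finset.mem_insert_self a S)).add (ih fun i hi => h i (Finset.mem_insert_of_mem hi))
    have h2 : (fun Y => ∑ i ∈ insert a S, F i Y) = fun Y => F a Y + ∑ i ∈ S, F i Y := by
      funext Y
      rw [Finset.sum_insert ha]
    rw [h2]
    exact h1

end Pool.Agent.Lib.MP_d57abb_nt.AS
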