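import Pool.Agent.Lib.MP_d57abb_nt.AS.Mass
import Pool.Agent.Lib.MP_d57abb_nt.AS.NlA

/-!
# JOB Dens: logarithmic density (about 250 lines)

* `LN.mono`, `LN.union`: sums of nonnegative terms.  `LN_of_lim`: if for every `κ > 0` there is `C` with `∑_{X ≤ N, P X} 1/X ≤ κ log N + C` for all `N ≥ 1`, then `LN P`.
* `LN_Nl`: `Nl F`, `ε > 0`: `LN {X | ε < F X}`.  Take `A` for `ε / 2`: `ε < F X`, `X ∈ [4^j, 4^(j+1))` gives `A j > ε / 2`; the block contributes at most `∑_{4^j ≤ X < 4^(j+1)} 1/X ≤ 1 + log 4 ≤ 3` hence at most `3 · (2/ε) A j`.  `N ∈ [4^(I-1), 4^I)`: `∑_{X ≤ N} ≤ (6/ε) ∑_{j < I} A j = o(I)`, and `log N ≥ (I - 1) log 4`.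
* `dens`: for `0 < η ≤ 1`: `ε < G X` implies `ε / 2 < F X` or `ε / 2 < (TT ((1 + η) X) - TT X) / X`.  The first set has density zero.  The second: `∑_{X ≤ N, ..} 1/X ≤ (2/ε) ∑_{X ≤ N} (1/X²) ∑_{X < k ≤ (1+η) X} tp k ≤ (2/ε) ∑_{k ≤ 2 N} tp k ∑_{k/(1+η) ≤ X < k} 1/X²` and, for `k ≥ 2`,
  `∑_{k/(1+η) ≤ X < k} 1/X² ≤ (number of such X) (1 + η)² / k² ≤ 4 (η k + 1) / k²` (in fact the number of integers `X` in `[k/(1+η), k)` is `≤ η k + 1`, and it is `0` when `η k < 1`..: `X ≤ k - 1` and `(1 + η) X ≥ k` give `η k ≥ 1`): so it is `≤ 8 η / k`.  Hence `≤ (16 η / ε) ∑_{k ≤ 2N} tp k / k ≤ (16 η / ε) C (2 + log (2 N))`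
  (Abel summation from `TT_le`: `∑_{k ≤ K} tp k / k = TT K / K + ∑_{k < K} TT k (1/k - 1/(k+1)) ≤ C + C ∑ 1/(k+1)`, or dyadic blocks).  `η` is arbitrary: `LN_of_lim`.
-/

namespace Pool.Agent.Lib.MP_d57abb_nt.AS

open Finset Pool.Agent.Lib.MP_d57abb_nt Pool.Agent.Lib.MP_d57abb_nt.TA Pool.Agent.Lib.MP_d57abb_nt.TZ

open Classical in
private theorem Dens_nn (P : ℕ → Prop) (N : ℕ) : 0 ≤ ∑ X ∈ (Icc 1 N).filter P, (1 : ℝ) / X :=
  sum_nonneg fun _ _ => by positivity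

open Classical in
private theorem Dens_mono (P : ℕ → Prop) {M N : ℕ} (h : M ≤ N) :
    ∑ X ∈ (Icc 1 M).filter P, (1 : ℝ) / X ≤ ∑ X ∈ (Icc 1 N).filter P, (1 : ℝ) / X := by
  refine sum_le_sum_of_subset_of_nonneg ?_ fun _ _ _ => by positivity
  exact filter_subset_filter _ (Icc_subset_Icc_right h)

open Classical in
private theorem Dens_iff (P : ℕ → Prop) : LN P ↔ ∀ κ : ℝ, 0 < κ → ∃ C : ℝ, ∀ N : ℕ, 1 ≤ N →
    ∑ X ∈ (Icc 1 N).filter P, (1 : ℝ) / X ≤ κ * Real.log N + C := by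
  constructor
  · intro h κ hκ
    have h1 := (tendsto_order.mp h).2 κ hκ
    obtain ⟨N0, hN0⟩ := Filter.eventually_atTop.mp h1
    refine ⟨∑ X ∈ (Icc 1 (max N0 2)).filter P, (1 : ℝ) / X, fun N hN => ?_⟩
    have hl0 : 0 ≤ Real.log N := Real.log_natCast_nonneg N
    by_cases hc : max N0 2 ≤ N
    · have h2 := hN0 N (le_trans (le_max_left _ _) hc)
      have hlog : 0 < Real.log N :=
        Real.log_pos (by exact_mod_cast (le_trans (le_max_right N0 2) hc))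
      rw [div_lt_iff₀ hlog] at h2
      have h3 := Dens_nn P (max N0 2)
      linarith
    · have h3 := Dens_mono P (M := N) (N := max N0 2) (by omega)
      have h4 := mul_nonneg hκ.le hl0
      linarith
  · intro h
    refine Metric.tendsto_atTop.mpr fun ε hε => ?_
    obtain ⟨C, hC⟩ := h (ε / 2) (by linarith)
    have h1 : Filter.Tendsto (fun N : ℕ => Real.log N) Filter.atTop Filter.atTop :=
      Real.tendsto_log_atTop.comp tendsto_natCast_atTop_atTop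
    obtain ⟨N0, hN0⟩ := Filter.eventually_atTop.mp
      (h1.eventually_gt_atTop (max 1 (2 * C / ε)))
    refine ⟨max 1 N0, fun N hN => ?_⟩
    have h2 := hN0 N (le_trans (le_max_right _ _) hN)
    have h3 : 1 < Real.log N := lt_of_le_of_lt (le_max_left _ _) h2
    have h4 : 2 * C / ε < Real.log N := lt_of_le_of_lt (le_max_right _ _) h2
    have hlog : 0 < Real.log N := by linarith
    rw [Real.dist_eq, sub_zero, abs_of_nonneg (div_nonneg (Dens_nn P N) hlog.le),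
      div_lt_iff₀ hlog]
    have h5 := hC N (le_trans (le_max_left _ _) hN)
    rw [div_lt_iff₀ hε] at h4
    nlinarith

private theorem Dens_log4 {N : ℕ} (hN : 1 ≤ N) : (Nat.log 4 N : ℝ) ≤ Real.log N := by
  have h1 : 4 ^ Nat.log 4 N ≤ N := Nat.pow_log_le_self 4 (by omega)
  have h2 : ((4 : ℝ)) ^ Nat.log 4 N ≤ N := by exact_mod_cast h1
  have h3 := Real.log_le_log (by positivity) h2
  rw [Real.log_pow] at h3
  have h4 : 1 < Real.log 4 := by
    rw [Real.lt_log_iff_exp_lt (by norm_num)]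
    linarith [Real.exp_one_lt_d9]
  have h5 : (0 : ℝ) ≤ (Nat.log 4 N : ℝ) := Nat.cast_nonneg _
  nlinarith

private theorem Dens_block {A : ℕ → ℝ} (hA : ∀ j, 0 ≤ A j) (I : ℕ) :
    ∑ X ∈ Ico 1 (4 ^ I), A (Nat.log 4 X) / (X : ℝ) ≤ 3 * ∑ j ∈ range I, A j := by
  induction I with
  | zero => simp
  | succ I ih =>
    have h1 : 1 ≤ 4 ^ I := Nat.one_le_pow _ _ (by norm_num)
    have h2 : 4 ^ I ≤ 4 ^ (I + 1) := Nat.pow_le_pow_right (by norm_num) (by omega)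
    rw [← sum_Ico_consecutive _ h1 h2, sum_range_succ, mul_add]
    refine add_le_add ih ?_
    have h3 : ∀ X ∈ Ico (4 ^ I) (4 ^ (I + 1)), A (Nat.log 4 X) / (X : ℝ) ≤ A I / 4 ^ I := by
      intro X hX
      rw [mem_Ico] at hX
      have h4 : Nat.log 4 X = I := (Nat.log_eq_iff (Or.inr ⟨by norm_num, by omega⟩)).mpr hX
      rw [h4]
      have h5 : ((4 : ℝ)) ^ I ≤ X := by exact_mod_cast hX.1
      exact div_le_div_of_nonneg_left (hA I) (by positivity) h5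
    refine (sum_le_card_nsmul _ _ _ h3).trans (le_of_eq ?_)
    rw [Nat.card_Ico, nsmul_eq_mul, Nat.cast_sub h2]
    push_cast
    rw [pow_succ]
    field_simp
    ring

private theorem Dens_abel (t : ℕ → ℝ) {K : ℕ} (hK : 1 ≤ K) :
    ∑ k ∈ Icc 1 K, t k / k = (∑ k ∈ Icc 1 K, t k) / K +
      ∑ m ∈ Ico 1 K, (∑ k ∈ Icc 1 m, t k) / ((m : ℝ) * (m + 1)) := by
  induction K, hK using Nat.le_induction with
  | base => simp
  | succ K hK ih =>
    have hK0 : (K : ℝ) ≠ 0 := by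
      have : K ≠ 0 := by omega
      exact_mod_cast this
    have hK1 : (K : ℝ) + 1 ≠ 0 := by positivity
    rw [sum_Icc_succ_top (by omega), sum_Icc_succ_top (by omega), sum_Ico_succ_top hK, ih]
    push_cast
    field_simp
    ring

private theorem Dens_logsum {t : ℕ → ℝ} {C : ℝ} (hC : 0 ≤ C)
    (h : ∀ m : ℕ, ∑ k ∈ Icc 1 m, t k ≤ C * m) {K : ℕ} (hK : 1 ≤ K) :
    ∑ k ∈ Icc 1 K, t k / k ≤ C * (2 + Real.log K) := by
  rw [Dens_abel t hK]
  have hKp : (0 : ℝ) < K := by exact_mod_cast hK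
  have h1 : (∑ k ∈ Icc 1 K, t k) / K ≤ C := by
    rw [div_le_iff₀ hKp]
    exact h K
  have h2 : ∑ m ∈ Ico 1 K, (∑ k ∈ Icc 1 m, t k) / ((m : ℝ) * (m + 1)) ≤
      C * ((harmonic K : ℚ) : ℝ) := by
    have h3 : ∑ m ∈ Ico 1 K, (∑ k ∈ Icc 1 m, t k) / ((m : ℝ) * (m + 1)) ≤
        ∑ m ∈ Ico 1 K, C * ((m : ℝ) + 1)⁻¹ := by
      refine sum_le_sum fun m hm => ?_
      have hm1 : (0 : ℝ) < m := by exact_mod_cast (mem_Ico.mp hm).1
      rw [div_le_iff₀ (by positivity)]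
      refine (h m).trans (le_of_eq ?_)
      field_simp
    refine h3.trans ?_
    rw [← mul_sum]
    refine mul_le_mul_of_nonneg_left ?_ hC
    unfold harmonic
    push_cast
    refine sum_le_sum_of_subset_of_nonneg ?_ fun _ _ _ => by positivity
    intro m hm
    exact mem_range.mpr (mem_Ico.mp hm).2
  have h4 : ((harmonic K : ℚ) : ℝ) ≤ 1 + Real.log K := harmonic_le_one_add_log K
  have h5 := mul_le_mul_of_nonneg_left h4 hC
  nlinarith

private theorem Dens_inner {η : ℝ} (h0 : 0 < η) (h1 : η ≤ 1) (N k : ℕ) (hk : 1 ≤ k) :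
    ∑ X ∈ (Icc 1 N).filter (fun X : ℕ => X < k ∧ (k : ℝ) ≤ (1 + η) * X), 1 / (X : ℝ) ^ 2 ≤
      4 * η / k := by
  have hkp : (0 : ℝ) < k := by exact_mod_cast hk
  have h2 : ∀ X ∈ (Icc 1 N).filter (fun X : ℕ => X < k ∧ (k : ℝ) ≤ (1 + η) * X),
      1 / (X : ℝ) ^ 2 ≤ 4 / (k : ℝ) ^ 2 := by
    intro X hX
    obtain ⟨hX1, _, hX3⟩ := mem_filter.mp hX
    have hXp : (0 : ℝ) < X := by exact_mod_cast (mem_Icc.mp hX1).1
    have h3 : (k : ℝ) ≤ 2 * X := by nlinarith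
    rw [div_le_div_iff₀ (by positivity) (by positivity)]
    nlinarith
  refine (sum_le_card_nsmul _ _ _ h2).trans ?_
  have h3 : (((Icc 1 N).filter (fun X : ℕ => X < k ∧ (k : ℝ) ≤ (1 + η) * X)).card : ℝ) ≤
      η * k := by
    have h4 : (Icc 1 N).filter (fun X : ℕ => X < k ∧ (k : ℝ) ≤ (1 + η) * X) ⊆
        Ico ⌈(k : ℝ) / (1 + η)⌉₊ k := by
      intro X hX
      obtain ⟨_, hX2, hX3⟩ := mem_filter.mp hX
      rw [mem_Ico]
      refine ⟨Nat.ceil_le.mpr ?_, hX2⟩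
      rw [div_le_iff₀ (by linarith)]
      linarith
    have h5 := card_le_card h4
    rw [Nat.card_Ico] at h5
    have h6 : (k : ℝ) / (1 + η) ≤ (⌈(k : ℝ) / (1 + η)⌉₊ : ℝ) := Nat.le_ceil _
    have h7 : ⌈(k : ℝ) / (1 + η)⌉₊ ≤ k := by
      refine Nat.ceil_le.mpr ?_
      rw [div_le_iff₀ (by linarith)]
      nlinarith
    have h8 : (((Icc 1 N).filter (fun X : ℕ => X < k ∧ (k : ℝ) ≤ (1 + η) * X)).card : ℝ) ≤
        ((k - ⌈(k : ℝ) / (1 + η)⌉₊ : ℕ) : ℝ) := by exact_mod_cast h5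
    rw [Nat.cast_sub h7] at h8
    have h9 : (k : ℝ) - (k : ℝ) / (1 + η) ≤ η * k := by
      have h10 : (k : ℝ) - (k : ℝ) / (1 + η) = η * k / (1 + η) := by
        field_simp
        ring
      rw [h10, div_le_iff₀ (by linarith)]
      nlinarith [mul_pos h0 hkp]
    linarith
  rw [nsmul_eq_mul]
  calc (((Icc 1 N).filter (fun X : ℕ => X < k ∧ (k : ℝ) ≤ (1 + η) * X)).card : ℝ) *
        (4 / (k : ℝ) ^ 2) ≤ (η * k) * (4 / (k : ℝ) ^ 2) :=
        mul_le_mul_of_nonneg_right h3 (by positivity)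
    _ = 4 * η / k := by field_simp

open Classical in
private theorem Dens_H {ψ : ℝ → ℝ} {k : ℕ} {L : ℝ} (hψ : PW ψ k L) {C : ℝ} (hC0 : 0 ≤ C)
    (hC : ∀ Y : ℝ, 0 ≤ Y → TT ψ Y ≤ C * Y) {η ε : ℝ} (h0 : 0 < η) (h1 : η ≤ 1) (hε : 0 < ε)
    {N : ℕ} (hN : 1 ≤ N) :
    ∑ X ∈ (Icc 1 N).filter (fun X : ℕ => ε < (TT ψ ((1 + η) * X) - TT ψ X) / X), (1 : ℝ) / X ≤
      4 * η * C / ε * (2 + Real.log 2 + Real.log N) := by
  have htp := tp_nonneg hψ
  have hdiff : ∀ X : ℕ, TT ψ ((1 + η) * X) - TT ψ X =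
      ∑ k ∈ Ioc X ⌊(1 + η) * (X : ℝ)⌋₊, tp ψ k := by
    intro X
    have h2 : X ≤ ⌊(1 + η) * (X : ℝ)⌋₊ := by
      refine Nat.le_floor ?_
      have : (0 : ℝ) ≤ X := Nat.cast_nonneg _
      nlinarith
    unfold TT
    rw [Nat.floor_natCast]
    have h3 : Icc 1 ⌊(1 + η) * (X : ℝ)⌋₊ = Ioc 0 ⌊(1 + η) * (X : ℝ)⌋₊ := rfl
    have h4 : Icc 1 X = Ioc 0 X := rfl
    rw [h3, h4, ← sum_Ioc_consecutive _ (Nat.zero_le X) h2]
    ring
  have hstep : ∑ X ∈ (Icc 1 N).filter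
      (fun X : ℕ => ε < (TT ψ ((1 + η) * X) - TT ψ X) / X), (1 : ℝ) / X ≤
      (1 / ε) * ∑ X ∈ Icc 1 N, ∑ k ∈ Icc 1 (2 * N),
        (if X < k ∧ (k : ℝ) ≤ (1 + η) * X then tp ψ k * (1 / (X : ℝ) ^ 2) else 0) := by
    rw [mul_sum]
    refine le_trans (sum_le_sum (g := fun X : ℕ => (1 / ε) * ∑ k ∈ Icc 1 (2 * N),
        (if X < k ∧ (k : ℝ) ≤ (1 + η) * X then tp ψ k * (1 / (X : ℝ) ^ 2) else 0)) ?_) ?_
    · intro X hX
      obtain ⟨hX1, hX2⟩ := mem_filter.mp hX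
      have hXp : (0 : ℝ) < X := by exact_mod_cast (mem_Icc.mp hX1).1
      have hXN : (X : ℝ) ≤ N := by exact_mod_cast (mem_Icc.mp hX1).2
      rw [hdiff, lt_div_iff₀ hXp] at hX2
      have h5 : ∑ k ∈ Icc 1 (2 * N),
          (if X < k ∧ (k : ℝ) ≤ (1 + η) * X then tp ψ k * (1 / (X : ℝ) ^ 2) else 0) =
          (∑ k ∈ Ioc X ⌊(1 + η) * (X : ℝ)⌋₊, tp ψ k) * (1 / (X : ℝ) ^ 2) := by
        rw [← sum_filter, sum_mul]
        refine sum_congr ?_ fun _ _ => rfl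
        ext m
        rw [mem_filter, mem_Icc, mem_Ioc, Nat.le_floor_iff (by positivity)]
        constructor
        · rintro ⟨_, h6, h7⟩
          exact ⟨h6, h7⟩
        · rintro ⟨h6, h7⟩
          refine ⟨⟨by omega, ?_⟩, h6, h7⟩
          have h8 : (m : ℝ) ≤ 2 * N := by nlinarith
          exact_mod_cast h8
      show (1 : ℝ) / X ≤ (1 / ε) * _
      rw [h5]
      rw [div_mul_eq_mul_div, one_mul, div_le_div_iff₀ hXp hε, one_mul]
      calc ε = ε * X * (1 / X) := by field_simp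
        _ ≤ (∑ k ∈ Ioc X ⌊(1 + η) * (X : ℝ)⌋₊, tp ψ k) * (1 / X) :=
            mul_le_mul_of_nonneg_right hX2.le (by positivity)
        _ = (∑ k ∈ Ioc X ⌊(1 + η) * (X : ℝ)⌋₊, tp ψ k) * (1 / (X : ℝ) ^ 2) * X := by
            field_simp
    · refine sum_le_sum_of_subset_of_nonneg (filter_subset _ _) fun X _ _ => ?_
      refine mul_nonneg (by positivity) (sum_nonneg fun m _ => ?_)
      split_ifs
      · exact mul_nonneg (htp m) (by positivity)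
      · exact le_rfl
  refine hstep.trans ?_
  rw [sum_comm]
  have h6 : ∀ m ∈ Icc 1 (2 * N), ∑ X ∈ Icc 1 N,
      (if X < m ∧ (m : ℝ) ≤ (1 + η) * X then tp ψ m * (1 / (X : ℝ) ^ 2) else 0) ≤
      4 * η * (tp ψ m / m) := by
    intro m hm
    rw [← sum_filter, ← mul_sum]
    have h7 := Dens_inner h0 h1 N m (mem_Icc.mp hm).1
    calc tp ψ m * ∑ X ∈ (Icc 1 N).filter
          (fun X : ℕ => X < m ∧ (m : ℝ) ≤ (1 + η) * X), 1 / (X : ℝ) ^ 2 ≤
          tp ψ m * (4 * η / m) := mul_le_mul_of_nonneg_left h7 (htp m)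
      _ = 4 * η * (tp ψ m / m) := by ring
  have h8 : ∑ m ∈ Icc 1 (2 * N), tp ψ m / m ≤ C * (2 + Real.log ((2 * N : ℕ) : ℝ)) := by
    refine Dens_logsum hC0 (fun m => ?_) (by omega)
    have h9 := hC (m : ℝ) (Nat.cast_nonneg _)
    unfold TT at h9
    rw [Nat.floor_natCast] at h9
    exact h9
  have h10 : Real.log ((2 * N : ℕ) : ℝ) = Real.log 2 + Real.log N := by
    push_cast
    rw [Real.log_mul (by norm_num)]
    have : N ≠ 0 := by omega
    exact_mod_cast this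
  rw [h10] at h8
  calc 1 / ε * ∑ m ∈ Icc 1 (2 * N), ∑ X ∈ Icc 1 N,
        (if X < m ∧ (m : ℝ) ≤ (1 + η) * X then tp ψ m * (1 / (X : ℝ) ^ 2) else 0) ≤
        1 / ε * ∑ m ∈ Icc 1 (2 * N), 4 * η * (tp ψ m / m) :=
        mul_le_mul_of_nonneg_left (sum_le_sum h6) (by positivity)
    _ = 1 / ε * (4 * η) * ∑ m ∈ Icc 1 (2 * N), tp ψ m / m := by rw [← mul_sum]; ring
    _ ≤ 1 / ε * (4 * η) * (C * (2 + (Real.log 2 + Real.log N))) :=
        mul_le_mul_of_nonneg_left h8 (by positivity)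
    _ = 4 * η * C / ε * (2 + Real.log 2 + Real.log N) := by ring

theorem LN.mono {P Q : ℕ → Prop} (hQ : LN Q) (h : ∀ X, 1 ≤ X → P X → Q X) : LN P := by
  classical
  rw [Dens_iff] at hQ ⊢
  intro κ hκ
  obtain ⟨C, hC⟩ := hQ κ hκ
  refine ⟨C, fun N hN => le_trans ?_ (hC N hN)⟩
  refine sum_le_sum_of_subset_of_nonneg ?_ fun _ _ _ => by positivity
  intro X hX
  obtain ⟨h1, h2⟩ := mem_filter.mp hX
  exact mem_filter.mpr ⟨h1, h X (mem_Icc.mp h1).1 h2⟩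

theorem LN.union {P Q : ℕ → Prop} (hP : LN P) (hQ : LN Q) : LN (fun X => P X ∨ Q X) := by
  classical
  rw [Dens_iff] at hP hQ ⊢
  intro κ hκ
  obtain ⟨C, hC⟩ := hP (κ / 2) (by linarith)
  obtain ⟨D, hD⟩ := hQ (κ / 2) (by linarith)
  refine ⟨C + D, fun N hN => ?_⟩
  have h1 : ∑ X ∈ (Icc 1 N).filter P ∪ (Icc 1 N).filter Q, (1 : ℝ) / X ≤
      ∑ X ∈ (Icc 1 N).filter P, (1 : ℝ) / X + ∑ X ∈ (Icc 1 N).filter Q, (1 : ℝ) / X := by
    rw [← sum_union_inter]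
    have h2 : 0 ≤ ∑ X ∈ (Icc 1 N).filter P ∩ (Icc 1 N).filter Q, (1 : ℝ) / X :=
      sum_nonneg fun _ _ => by positivity
    linarith
  have h3 := hC N hN
  have h4 := hD N hN
  refine le_trans ?_ (h1.trans (le_trans (add_le_add h3 h4) (le_of_eq (by ring))))
  refine le_of_eq (sum_congr ?_ fun _ _ => rfl)
  ext X
  refine (@mem_filter ℕ (fun X => P X ∨ Q X) (fun a => Classical.propDecidable (P a ∨ Q a))
    (Icc 1 N) X).trans ?_
  rw [mem_union, mem_filter, mem_filter]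
  tauto

theorem LN_of_finite {P : ℕ → Prop} (X₀ : ℕ) (h : ∀ X, X₀ ≤ X → ¬ P X) : LN P := by
  classical
  rw [Dens_iff]
  intro κ hκ
  refine ⟨X₀, fun N hN => ?_⟩
  have h1 : ∑ X ∈ (Icc 1 N).filter P, (1 : ℝ) / X ≤ ((range X₀).card : ℝ) * 1 := by
    rw [← nsmul_eq_mul]
    refine le_trans (sum_le_card_nsmul _ _ 1 fun X hX => ?_) ?_
    · have hXp : (1 : ℝ) ≤ X := by exact_mod_cast (mem_Icc.mp (mem_filter.mp hX).1).1
      rw [div_le_one (by linarith)]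
      exact hXp
    · rw [nsmul_eq_mul, nsmul_eq_mul]
      refine mul_le_mul_of_nonneg_right ?_ zero_le_one
      have h2 : (Icc 1 N).filter P ⊆ range X₀ := by
        intro X hX
        by_contra hc
        rw [mem_range, not_lt] at hc
        exact h X hc (mem_filter.mp hX).2
      exact_mod_cast card_le_card h2
  rw [card_range, mul_one] at h1
  have h3 := mul_nonneg hκ.le (Real.log_natCast_nonneg N)
  linarith

theorem LN_Nl {F : ℝ → ℝ} (hF : Nl F) {ε : ℝ} (hε : 0 < ε) : LN (fun X => ε < F X) := by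
  classical
  rw [Dens_iff]
  intro κ hκ
  obtain ⟨A, hA0, hAlim, hAF⟩ := hF (ε / 2) (by linarith)
  have hκ' : 0 < κ * ε / 6 := by positivity
  have h1 := (tendsto_order.mp hAlim).2 _ hκ'
  obtain ⟨I0, hI0⟩ := Filter.eventually_atTop.mp h1
  have hAsum : ∀ I : ℕ, ∑ j ∈ range I, A j ≤
      κ * ε / 6 * I + ∑ j ∈ range (max I0 1), A j := by
    intro I
    have hnn : 0 ≤ ∑ j ∈ range (max I0 1), A j := sum_nonneg fun j _ => hA0 j
    by_cases hc : max I0 1 ≤ I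
    · have h2 := hI0 I (le_trans (le_max_left _ _) hc)
      have hIp : (0 : ℝ) < I := by exact_mod_cast (le_trans (le_max_right I0 1) hc)
      rw [div_lt_iff₀ hIp] at h2
      linarith
    · have h2 : ∑ j ∈ range I, A j ≤ ∑ j ∈ range (max I0 1), A j :=
        sum_le_sum_of_subset_of_nonneg (range_subset_range.mpr (by omega)) fun j _ _ => hA0 j
      have h3 : 0 ≤ κ * ε / 6 * (I : ℝ) := mul_nonneg hκ'.le (Nat.cast_nonneg _)
      linarith
  refine ⟨κ + 6 / ε * ∑ j ∈ range (max I0 1), A j, fun N hN => ?_⟩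
  have h4 : ∑ X ∈ (Icc 1 N).filter (fun X : ℕ => ε < F X), (1 : ℝ) / X ≤
      ∑ X ∈ Ico 1 (4 ^ (Nat.log 4 N + 1)), 2 / ε * (A (Nat.log 4 X) / (X : ℝ)) := by
    refine le_trans (sum_le_sum (g := fun X : ℕ => 2 / ε * (A (Nat.log 4 X) / (X : ℝ))) ?_) ?_
    · intro X hX
      obtain ⟨hX1, hX2⟩ := mem_filter.mp hX
      have hX0 : X ≠ 0 := by
        have := (mem_Icc.mp hX1).1
        omega
      have hXp : (0 : ℝ) < X := by exact_mod_cast (mem_Icc.mp hX1).1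
      have h5 : ((4 : ℝ)) ^ Nat.log 4 X ≤ X := by exact_mod_cast Nat.pow_log_le_self 4 hX0
      have h6 : (X : ℝ) ≤ 4 ^ (Nat.log 4 X + 1) := by
        exact_mod_cast (Nat.lt_pow_succ_log_self (by norm_num) X).le
      have h7 := hAF _ _ h5 h6
      have h8 : ε / 2 < A (Nat.log 4 X) := by linarith
      show (1 : ℝ) / X ≤ 2 / ε * (A (Nat.log 4 X) / (X : ℝ))
      rw [← mul_div_assoc]
      refine div_le_div_of_nonneg_right ?_ hXp.le
      rw [div_mul_eq_mul_div, le_div_iff₀ hε]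
      linarith
    · refine sum_le_sum_of_subset_of_nonneg ?_ fun X _ _ => ?_
      · intro X hX
        obtain ⟨hX1, hX2⟩ := mem_filter.mp hX
        rw [mem_Ico]
        have h9 := mem_Icc.mp hX1
        exact ⟨h9.1, lt_of_le_of_lt h9.2 (Nat.lt_pow_succ_log_self (by norm_num) N)⟩
      · exact mul_nonneg (by positivity) (div_nonneg (hA0 _) (Nat.cast_nonneg _))
  rw [← mul_sum] at h4
  have h10 := Dens_block hA0 (Nat.log 4 N + 1)
  have h11 := hAsum (Nat.log 4 N + 1)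
  have h12 := Dens_log4 hN
  push_cast at h11
  have h13 : (0 : ℝ) < 2 / ε := by positivity
  calc ∑ X ∈ (Icc 1 N).filter (fun X : ℕ => ε < F X), (1 : ℝ) / X ≤
        2 / ε * ∑ X ∈ Ico 1 (4 ^ (Nat.log 4 N + 1)), A (Nat.log 4 X) / (X : ℝ) := h4
    _ ≤ 2 / ε * (3 * (κ * ε / 6 * (Real.log N + 1) + ∑ j ∈ range (max I0 1), A j)) := by
        refine mul_le_mul_of_nonneg_left ?_ h13.le
        refine h10.trans (mul_le_mul_of_nonneg_left (h11.trans ?_) (by norm_num))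
        have h14 := mul_le_mul_of_nonneg_left h12 hκ'.le
        linarith
    _ = κ * Real.log N + (κ + 6 / ε * ∑ j ∈ range (max I0 1), A j) := by
        field_simp
        ring

theorem dens {ψ : ℝ → ℝ} {k : ℕ} {L : ℝ} (hψ : PW ψ k L) {G : ℝ → ℝ}
    (h : ∀ η : ℝ, 0 < η → η ≤ 1 → ∃ F : ℝ → ℝ, Nl F ∧ ∀ Y : ℝ, 1 ≤ Y →
      G Y ≤ F Y + (TT ψ ((1 + η) * Y) - TT ψ Y) / Y) {ε : ℝ} (hε : 0 < ε) :
    LN (fun X => ε < G X) := by
  classical
  obtain ⟨C, hC0, hC⟩ := TT_le hψ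
  rw [Dens_iff]
  intro κ hκ
  have hη0 : 0 < min 1 (κ * ε / (16 * (C + 1))) := by positivity
  have hη1 : min 1 (κ * ε / (16 * (C + 1))) ≤ 1 := min_le_left _ _
  have hη2 : min 1 (κ * ε / (16 * (C + 1))) ≤ κ * ε / (16 * (C + 1)) := min_le_right _ _
  generalize min 1 (κ * ε / (16 * (C + 1))) = η at hη0 hη1 hη2
  obtain ⟨F, hF, hG⟩ := h η hη0 hη1
  have h1 := (Dens_iff _).mp (LN_Nl hF (ε := ε / 2) (by linarith)) (κ / 2) (by linarith)
  obtain ⟨D, hD⟩ := h1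
  refine ⟨D + κ / 2 * (2 + Real.log 2), fun N hN => ?_⟩
  have h2 : ∑ X ∈ (Icc 1 N).filter (fun X : ℕ => ε < G X), (1 : ℝ) / X ≤
      ∑ X ∈ (Icc 1 N).filter (fun X : ℕ => ε / 2 < F X), (1 : ℝ) / X +
      ∑ X ∈ (Icc 1 N).filter
        (fun X : ℕ => ε / 2 < (TT ψ ((1 + η) * X) - TT ψ X) / X), (1 : ℝ) / X := by
    rw [← sum_union_inter, ← filter_or]
    have h3 : 0 ≤ ∑ X ∈ (Icc 1 N).filter (fun X : ℕ => ε / 2 < F X) ∩ (Icc 1 N).filter
        (fun X : ℕ => ε / 2 < (TT ψ ((1 + η) * X) - TT ψ X) / X), (1 : ℝ) / X :=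
      sum_nonneg fun _ _ => by positivity
    refine le_trans (sum_le_sum_of_subset_of_nonneg ?_ fun _ _ _ => by positivity)
      (le_add_of_nonneg_right h3)
    intro X hX
    obtain ⟨h4, h5⟩ := mem_filter.mp hX
    refine mem_filter.mpr ⟨h4, ?_⟩
    have h6 := hG X (by exact_mod_cast (mem_Icc.mp h4).1)
    by_contra hc
    rw [not_or, not_lt, not_lt] at hc
    linarith [hc.1, hc.2]
  have h7 := hD N hN
  have h8 := Dens_H hψ hC0 hC hη0 hη1 (ε := ε / 2) (by linarith) hN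
  have h9 : 4 * η * C / (ε / 2) ≤ κ / 2 := by
    rw [div_le_iff₀ (by linarith)]
    rw [le_div_iff₀ (by positivity)] at hη2
    nlinarith [mul_nonneg hη0.le hC0]
  have h10 : 0 ≤ 2 + Real.log 2 + Real.log N := by
    have h11 := Real.log_natCast_nonneg N
    have h12 := Real.log_nonneg (x := 2) (by norm_num)
    linarith
  have h13 := mul_le_mul_of_nonneg_right h9 h10
  linarith

end Pool.Agent.Lib.MP_d57abb_nt.AS
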