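import Pool.Agent.Lib.MP_d57abb_nt.AS.Defs

/-!
# JOB PowN (about 130 lines): from almost all scales to a power of `N` for all `N`

We may take `δ ≤ 1`.  `LN E`: for large `N`, `∑_{X ≤ N, X ∈ E} 1/X ≤ (δ/4) log N`.  Let `M = ⌈N^(1 - δ/2)⌉₊`.  If all `X` with `M ≤ X ≤ N` were in `E`: `∑_{M ≤ X ≤ N} 1/X ≥ log ((N + 1) / M)` (harmonic sum, e.g. by
`log (X + 1) - log X ≤ 1/X` and telescoping) `≥ log N - log (2 N^(1 - δ/2)) = (δ/2) log N - log 2 > (δ/4) log N` for large `N`: contradiction.  So there is `X ∉ E`, `M ≤ X ≤ N`, `X ≥ X0`, `X ≥ 3`, and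
`# {k ≤ N, P k} ≥ # {k ≤ X, P k} ≥ κ X / (log X)² ≥ κ N^(1 - δ/2) / (log N)² ≥ N^(1 - δ)` for large `N` (`(log N)² = o(N^(δ/2))`, `isLittleO_log_rpow_atTop` or similar).
For `δ > 1`, `N^(1 - δ) ≤ 1 ≤ N^(1-1/2)`: use `δ = 1/2`.
-/

namespace Pool.Agent.Lib.MP_d57abb_nt.AS

open Finset Filter Topology

private theorem PowN_harm (M : ℕ) (hM : 1 ≤ M) (N : ℕ) :
    Real.log (((N : ℝ) + 1) / M) ≤ ∑ X ∈ Icc M N, (1 : ℝ) / X := by
  have hM0 : (0 : ℝ) < M := by exact_mod_cast hM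
  induction N with
  | zero =>
    have h1 : Icc M 0 = ∅ := Finset.Icc_eq_empty (by omega)
    rw [h1, sum_empty]
    apply Real.log_nonpos
    · positivity
    · rw [div_le_one hM0]
      have : (1 : ℝ) ≤ M := by exact_mod_cast hM
      push_cast
      linarith
  | succ n ih =>
    by_cases h : M ≤ n + 1
    · rw [Finset.sum_Icc_succ_top h]
      have hn : (0 : ℝ) < (n : ℝ) + 1 := by positivity
      have e : (((n + 1 : ℕ) : ℝ) + 1) / M = (((n : ℝ) + 1) / M) * (1 + 1 / ((n : ℝ) + 1)) := by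
        push_cast
        field_simp
      rw [e, Real.log_mul (by positivity) (by positivity)]
      have h2 : Real.log (1 + 1 / ((n : ℝ) + 1)) ≤ 1 / ((n : ℝ) + 1) := by
        have := Real.log_le_sub_one_of_pos (x := 1 + 1 / ((n : ℝ) + 1)) (by positivity)
        linarith
      have h3 : (1 : ℝ) / ((n + 1 : ℕ) : ℝ) = 1 / ((n : ℝ) + 1) := by push_cast; rfl
      rw [h3]
      linarith
    · have h1 : Icc M (n + 1) = ∅ := Finset.Icc_eq_empty (by omega)
      rw [h1, sum_empty]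
      apply Real.log_nonpos
      · positivity
      · rw [div_le_one hM0]
        have : ((n + 1 + 1 : ℕ) : ℝ) ≤ M := by exact_mod_cast (by omega : n + 1 + 1 ≤ M)
        push_cast at this ⊢
        linarith

private theorem PowN_small {E : Set ℕ} (hE : LN (fun X => X ∈ E)) (P : ℕ → Prop) [DecidablePred P]
    {κ : ℝ} (hκ : 0 < κ) {X0 : ℕ} (h : ∀ X : ℕ, X0 ≤ X → X ∉ E →
      κ * X / (Real.log X) ^ 2 ≤ (((Icc 1 X).filter P).card : ℝ)) {δ : ℝ} (hδ : 0 < δ) (hδ1 : δ ≤ 1) :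
    ∃ N0 : ℕ, ∀ N : ℕ, N0 ≤ N → (N : ℝ) ^ (1 - δ) ≤ (((Icc 1 N).filter P).card : ℝ) := by
  classical
  have hlogT : Tendsto (fun N : ℕ => Real.log (N : ℝ)) atTop atTop :=
    Real.tendsto_log_atTop.comp tendsto_natCast_atTop_atTop
  have e1 : ∀ᶠ N : ℕ in atTop, (∑ X ∈ (Icc 1 N).filter (fun X => X ∈ E), (1 : ℝ) / X) / Real.log N < δ / 4 := by
    have h1 := hE
    unfold LN at h1
    have h2 := h1.eventually (gt_mem_nhds (show (0 : ℝ) < δ / 4 by positivity))
    filter_upwards [h2] with N hN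
    refine lt_of_le_of_lt (le_of_eq ?_) hN
    congr 1
  have e2 : ∀ᶠ N : ℕ in atTop, Real.log 2 / (δ / 4) < Real.log (N : ℝ) :=
    hlogT.eventually (eventually_gt_atTop _)
  have e3 : ∀ᶠ N : ℕ in atTop, max (X0 : ℝ) 3 ≤ (N : ℝ) ^ (1 - δ / 2) := by
    have : Tendsto (fun N : ℕ => (N : ℝ) ^ (1 - δ / 2)) atTop atTop :=
      (tendsto_rpow_atTop (show 0 < 1 - δ / 2 by linarith)).comp tendsto_natCast_atTop_atTop
    exact this.eventually (eventually_ge_atTop _)
  have e4 : ∀ᶠ N : ℕ in atTop, (Real.log (N : ℝ)) ^ 2 ≤ κ * (N : ℝ) ^ (δ / 2) := by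
    have h1 := isLittleO_log_rpow_atTop (show 0 < δ / 4 by positivity)
    have h2 := h1.def (show 0 < Real.sqrt κ from Real.sqrt_pos.mpr hκ)
    have h3 := (tendsto_natCast_atTop_atTop (R := ℝ)).eventually h2
    filter_upwards [h3, eventually_ge_atTop 1] with N hN hN1
    have hN1' : (1 : ℝ) ≤ N := by exact_mod_cast hN1
    have hl : 0 ≤ Real.log (N : ℝ) := Real.log_nonneg hN1'
    rw [Real.norm_of_nonneg hl, Real.norm_of_nonneg (Real.rpow_nonneg (by positivity) _)] at hN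
    have h4 : (Real.log (N : ℝ)) ^ 2 ≤ (Real.sqrt κ * (N : ℝ) ^ (δ / 4)) ^ 2 := by
      exact pow_le_pow_left₀ hl hN 2
    rw [mul_pow, Real.sq_sqrt hκ.le, ← Real.rpow_natCast ((N : ℝ) ^ (δ / 4)) 2, ← Real.rpow_mul (by positivity)] at h4
    have h5 : δ / 4 * ((2 : ℕ) : ℝ) = δ / 2 := by push_cast; ring
    rwa [h5] at h4
  obtain ⟨N0, hN0⟩ := Filter.eventually_atTop.mp (e1.and (e2.and (e3.and (e4.and (eventually_ge_atTop 2)))))
  refine ⟨N0, fun N hN => ?_⟩
  obtain ⟨g1, g2, g3, g4, g5⟩ := hN0 N hN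
  have hN2 : (2 : ℝ) ≤ N := by exact_mod_cast g5
  have hNpos : (0 : ℝ) < N := by linarith
  have hlogN : 0 < Real.log (N : ℝ) := Real.log_pos (by linarith)
  rw [div_lt_iff₀ hlogN] at g1
  rw [div_lt_iff₀ (by positivity)] at g2
  set A : ℝ := (N : ℝ) ^ (1 - δ / 2) with hA
  have hA3 : 3 ≤ A := le_trans (le_max_right _ _) g3
  have hAX : (X0 : ℝ) ≤ A := le_trans (le_max_left _ _) g3
  set M : ℕ := ⌈A⌉₊ with hM
  have hMA : A ≤ M := Nat.le_ceil _
  have hM2 : (M : ℝ) ≤ 2 * A := by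
    have := Nat.ceil_lt_add_one (show 0 ≤ A by linarith)
    rw [← hM] at this
    linarith
  have hM3 : 3 ≤ M := by
    have : (3 : ℝ) ≤ M := by linarith
    exact_mod_cast this
  have hMX : X0 ≤ M := by
    have : (X0 : ℝ) ≤ M := by linarith
    exact_mod_cast this
  have key : ∃ X ∈ Icc M N, X ∉ E := by
    by_contra hcon
    push Not at hcon
    have hsub : Icc M N ⊆ (Icc 1 N).filter (fun X => X ∈ E) := by
      intro X hX
      have h1 := Finset.mem_Icc.mp hX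
      exact Finset.mem_filter.mpr ⟨Finset.mem_Icc.mpr ⟨by omega, h1.2⟩, hcon X hX⟩
    have h2 : ∑ X ∈ Icc M N, (1 : ℝ) / X ≤ ∑ X ∈ (Icc 1 N).filter (fun X => X ∈ E), (1 : ℝ) / X :=
      Finset.sum_le_sum_of_subset_of_nonneg hsub (fun _ _ _ => by positivity)
    have h3 := PowN_harm M (by omega) N
    have hMpos : (0 : ℝ) < M := by linarith
    have h4 : Real.log ((N : ℝ) / (2 * A)) ≤ Real.log (((N : ℝ) + 1) / M) := by
      apply Real.log_le_log (by positivity)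
      rw [div_le_div_iff₀ (by positivity) hMpos]
      nlinarith
    have h5 : Real.log ((N : ℝ) / (2 * A)) = δ / 2 * Real.log N - Real.log 2 := by
      rw [Real.log_div (by positivity) (by positivity), Real.log_mul (by norm_num) (by positivity), hA,
        Real.log_rpow hNpos]
      ring
    linarith
  obtain ⟨X, hX, hXE⟩ := key
  obtain ⟨hX1, hX2⟩ := Finset.mem_Icc.mp hX
  have hX3 : 3 ≤ X := by omega
  have hXr : (3 : ℝ) ≤ X := by exact_mod_cast hX3
  have hlogX : 0 < Real.log (X : ℝ) := Real.log_pos (by linarith)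
  have hXN : (X : ℝ) ≤ N := by exact_mod_cast hX2
  have hlogXN : Real.log (X : ℝ) ≤ Real.log (N : ℝ) := Real.log_le_log (by linarith) hXN
  have hAX' : A ≤ X := by
    have : (M : ℝ) ≤ X := by exact_mod_cast hX1
    linarith
  have c1 := h X (by omega) hXE
  have c2 : (((Icc 1 X).filter P).card : ℝ) ≤ (((Icc 1 N).filter P).card : ℝ) := by
    have : ((Icc 1 X).filter P).card ≤ ((Icc 1 N).filter P).card := by
      apply Finset.card_le_card
      apply Finset.filter_subset_filter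
      exact Finset.Icc_subset_Icc_right hX2
    exact_mod_cast this
  have c3 : κ * A / (Real.log N) ^ 2 ≤ κ * X / (Real.log X) ^ 2 := by
    apply div_le_div₀
    · positivity
    · exact mul_le_mul_of_nonneg_left hAX' hκ.le
    · positivity
    · exact pow_le_pow_left₀ hlogX.le hlogXN 2
  have c4 : (N : ℝ) ^ (1 - δ) ≤ κ * A / (Real.log N) ^ 2 := by
    rw [le_div_iff₀ (by positivity)]
    have h6 : (N : ℝ) ^ (1 - δ) * (κ * (N : ℝ) ^ (δ / 2)) = κ * A := by
      have : A = (N : ℝ) ^ (1 - δ) * (N : ℝ) ^ (δ / 2) := by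
        rw [hA, ← Real.rpow_add hNpos]
        congr 1
        ring
      rw [this]
      ring
    rw [← h6]
    exact mul_le_mul_of_nonneg_left g4 (Real.rpow_nonneg hNpos.le _)
  linarith

theorem powN {E : Set ℕ} (hE : LN (fun X => X ∈ E)) (P : ℕ → Prop) [DecidablePred P] {κ : ℝ} (hκ : 0 < κ)
    {X0 : ℕ} (h : ∀ X : ℕ, X0 ≤ X → X ∉ E →
      κ * X / (Real.log X) ^ 2 ≤ (((Icc 1 X).filter P).card : ℝ)) {δ : ℝ} (hδ : 0 < δ) :
    ∃ N0 : ℕ, ∀ N : ℕ, N0 ≤ N → (N : ℝ) ^ (1 - δ) ≤ (((Icc 1 N).filter P).card : ℝ) := by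
  obtain ⟨N0, hN0⟩ := PowN_small hE P hκ h (δ := min δ 1) (lt_min hδ one_pos) (min_le_right _ _)
  refine ⟨max N0 1, fun N hN => ?_⟩
  have h1 : N0 ≤ N := le_trans (le_max_left _ _) hN
  have h2 : 1 ≤ N := le_trans (le_max_right _ _) hN
  refine le_trans ?_ (hN0 N h1)
  apply Real.rpow_le_rpow_of_exponent_le
  · exact_mod_cast h2
  · have := min_le_left δ 1
    linarith

end Pool.Agent.Lib.MP_d57abb_nt.AS
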