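import Pool.Agent.Lib.MP_d57abb_nt.AS.ShN
import Pool.Agent.Lib.MP_d57abb_nt.AS.Diag
import Pool.Agent.Lib.MP_d57abb_nt.AS.RealC
import Pool.Agent.Lib.MP_d57abb_nt.AS.ClsN
import Pool.Agent.Lib.MP_d57abb_nt.AS.PowN
import Pool.Agent.Lib.MP_d57abb_nt.TS.MassG
import Pool.Agent.Lib.MP_d57abb_nt.TS.Cnt

/-!
# Assembly of the natural-scale theorem
-/

namespace Pool.Agent.Lib.MP_d57abb_nt.AS

open Finset Filter Topology Pool.Agent.Lib.MP_d57abb_nt Pool.Agent.Lib.MP_d57abb_nt.TA Pool.Agent.Lib.MP_d57abb_nt.TZ Pool.Agent.Lib.MP_d57abb_nt.TS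

private noncomputable def FinN_z (m l : ℕ) : ℂ := Complex.exp (2 * Real.pi * Complex.I / m) ^ l

private noncomputable def FinN_S (c : ℝ) (z : ℂ) (X : ℕ) : ℝ :=
  ‖∑ k ∈ Icc 1 X, (tc c k : ℂ) * z ^ om k‖ / X

private theorem FinN_pow {m : ℕ} (hm : 1 ≤ m) (l : ℕ) : FinN_z m l ^ m = 1 := by
  have hζ := Complex.isPrimitiveRoot_exp m (by omega)
  unfold FinN_z
  rw [← pow_mul, Nat.mul_comm, pow_mul, hζ.pow_eq_one, one_pow]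

private def FinN_P (i : ℚ × ℕ × ℕ × ℕ) (X : ℕ) : Prop :=
  (1 < (i.1 : ℝ) ∧ 1 ≤ i.2.1 ∧ FinN_z i.2.1 i.2.2.1 ≠ 1) ∧
    1 / ((i.2.2.2 : ℝ) + 1) < FinN_S i.1 (FinN_z i.2.1 i.2.2.1) X

private theorem FinN_LN (i : ℚ × ℕ × ℕ × ℕ) : LN (FinN_P i) := by
  by_cases h : 1 < (i.1 : ℝ) ∧ 1 ≤ i.2.1 ∧ FinN_z i.2.1 i.2.2.1 ≠ 1
  · obtain ⟨h1, h2, h3⟩ := h
    have hε : (0 : ℝ) < 1 / ((i.2.2.2 : ℝ) + 1) := by positivity
    exact LN.mono (shN h2 (FinN_pow h2 _) h3 h1 hε) fun X _ hX => hX.2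
  · exact LN_of_finite 0 fun X _ hX => h hX.1

theorem exists_E : ∃ E : Set ℕ, LN (fun X => X ∈ E) ∧
    ∀ c : ℝ, 1 < c → ∀ m : ℕ, 1 ≤ m → ∀ z : ℂ, z ^ m = 1 → z ≠ 1 →
      Tendsto (fun X : ℕ => ‖∑ k ∈ Icc 1 X, (tc c k : ℂ) * z ^ om k‖ / X)
        (atTop ⊓ 𝓟 Eᶜ) (𝓝 0) := by
  obtain ⟨e, he⟩ := exists_surjective_nat (ℚ × ℕ × ℕ × ℕ)
  obtain ⟨E, hE, hN⟩ := diag (fun i => FinN_P (e i)) (fun i => FinN_LN (e i))
  refine ⟨E, hE, ?_⟩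
  intro c hc m hm z hz hz1
  have hn : ‖z‖ = 1 := Complex.norm_eq_one_of_pow_eq_one hz (by omega)
  have : NeZero m := ⟨by omega⟩
  obtain ⟨l, -, hl⟩ := (Complex.isPrimitiveRoot_exp m (by omega)).eq_pow_of_pow_eq_one hz
  refine realC inf_le_left hn ?_ c hc
  intro q hq
  rw [Metric.tendsto_nhds]
  intro ε hε
  obtain ⟨n, hn1⟩ := exists_nat_one_div_lt hε
  obtain ⟨i, hi⟩ := he (q, m, l, n)
  obtain ⟨N, hN1⟩ := hN i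
  rw [eventually_inf_principal]
  filter_upwards [eventually_ge_atTop N] with X hX hXE
  have h1 : ¬ FinN_P (e i) X := fun h => hXE (hN1 X hX h)
  rw [hi] at h1
  have h2 : FinN_z m l = z := hl
  have h3 : FinN_S (q : ℝ) z X ≤ 1 / ((n : ℝ) + 1) := by
    by_contra h4
    refine h1 ⟨⟨hq, hm, ?_⟩, ?_⟩
    · show FinN_z m l ≠ 1
      rw [h2]
      exact hz1
    · show 1 / ((n : ℝ) + 1) < FinN_S (q : ℝ) (FinN_z m l) X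
      rw [h2]
      exact not_le.1 h4
  have h5 : 0 ≤ FinN_S (q : ℝ) z X := div_nonneg (norm_nonneg _) (Nat.cast_nonneg _)
  rw [Real.dist_0_eq_abs]
  show |FinN_S (q : ℝ) z X| < ε
  rw [abs_of_nonneg h5]
  exact lt_of_le_of_lt h3 hn1

theorem finN : ∃ E : Set ℕ, LN (fun X => X ∈ E) ∧
    (∀ c : ℝ, 1 < c → ∀ m r : ℕ, r < m → Tendsto (fun X : ℕ =>
      (∑ k ∈ (Icc 1 X).filter (fun k => om k % m = r), (tc c k : ℝ)) /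
        (∑ k ∈ Icc 1 X, (tc c k : ℝ))) (atTop ⊓ 𝓟 Eᶜ) (𝓝 (1 / (m : ℝ)))) ∧
    (∀ m r : ℕ, r < m → ∃ κ : ℝ, 0 < κ ∧ ∃ X0 : ℕ, ∀ X : ℕ, X0 ≤ X → X ∉ E →
      κ * X / (Real.log X) ^ 2 ≤ (((Icc 1 X).filter (fun k => om k % m = r)).card : ℝ)) ∧
    (∀ m r : ℕ, r < m → ∀ δ : ℝ, 0 < δ → ∃ N0 : ℕ, ∀ N : ℕ, N0 ≤ N →
      (N : ℝ) ^ (1 - δ) ≤ (((Icc 1 N).filter (fun k => om k % m = r)).card : ℝ)) := by
  obtain ⟨E, hE, hS⟩ := exists_E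
  have h1 : ∀ c : ℝ, 1 < c → ∀ m r : ℕ, r < m → Tendsto (fun X : ℕ =>
      (∑ k ∈ (Icc 1 X).filter (fun k => om k % m = r), (tc c k : ℝ)) /
        (∑ k ∈ Icc 1 X, (tc c k : ℝ))) (atTop ⊓ 𝓟 Eᶜ) (𝓝 (1 / (m : ℝ))) := by
    intro c hc m r hr
    refine clsN inf_le_left (fun k => (tc c k : ℝ)) om (mass_ge c hc) m r hr ?_
    intro z hz hz1
    have h2 := hS c hc m (by omega) z hz hz1
    simp only [Complex.ofReal_natCast]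
    exact h2
  have h2 : ∀ m r : ℕ, r < m → ∃ κ : ℝ, 0 < κ ∧ ∃ X0 : ℕ, ∀ X : ℕ, X0 ≤ X → X ∉ E →
      κ * X / (Real.log X) ^ 2 ≤ (((Icc 1 X).filter (fun k => om k % m = r)).card : ℝ) := by
    intro m r hr
    have hm : (0 : ℝ) < (m : ℝ) := by exact_mod_cast (by omega : 0 < m)
    obtain ⟨c0, hc0, N0, hN0⟩ := mass_ge 2 (by norm_num)
    obtain ⟨κ, hκ, hcount⟩ := count 2 (by norm_num) (c0 * (1 / (2 * m))) (by positivity)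
    have h3 := (h1 2 (by norm_num) m r hr).eventually (lt_mem_nhds (show 1 / (2 * (m : ℝ)) < 1 / m by
      rw [div_lt_div_iff₀ (by positivity) hm]
      linarith))
    rw [eventually_inf_principal, eventually_atTop] at h3
    obtain ⟨X1, hX1⟩ := h3
    refine ⟨κ, hκ, X1 + N0 + 3, ?_⟩
    intro X hX hXE
    have h4 := hX1 X (by omega) hXE
    have h5 := hN0 X (by omega)
    have hXp : (0 : ℝ) < X := by exact_mod_cast (by omega : 0 < X)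
    have h6 : 0 < ∑ k ∈ Icc 1 X, (tc 2 k : ℝ) := lt_of_lt_of_le (mul_pos hc0 hXp) h5
    refine hcount X (by omega) (fun k => om k % m = r) ?_
    rw [lt_div_iff₀ h6] at h4
    have h7 : 1 / (2 * (m : ℝ)) * (c0 * X) ≤ 1 / (2 * (m : ℝ)) * ∑ k ∈ Icc 1 X, (tc 2 k : ℝ) :=
      mul_le_mul_of_nonneg_left h5 (by positivity)
    linarith
  refine ⟨E, hE, h1, h2, ?_⟩
  intro m r hr δ hδ
  obtain ⟨κ, hκ, X0, hX0⟩ := h2 m r hr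
  exact powN hE (fun k => om k % m = r) hκ hX0 hδ

end Pool.Agent.Lib.MP_d57abb_nt.AS
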