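import Pool.Agent.Lib.MP_d57abb_nt.AS.Defs
import Pool.Agent.Lib.MP_d57abb_nt.All.SW
import Pool.Agent.Lib.MP_d57abb_nt.TA.PLB

/-!
# JOB PNT: averages of Lipschitz functions over the primes `± 1` modulo `5` of `(P/2, P]` (about 180 lines)

(1) `ct`: for every `η > 0` and large `P`, for all `1/2 ≤ α ≤ β ≤ 1`: `| #{p ∈ PS P : α P < p ≤ β P} - (β - α) P / (2 log P) | ≤ η P / log P`.  `All.sw 1 1` with modulus `5`, residues `1` and `4` (`lp n = log n` for `n` prime, `0` otherwise, see `All/SW`, `All/Defs` or its imports): for `y ≥ y₀`: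
`|∑_{n ≤ y, n ≡ ± 1 (5)} lp n - y / 2| ≤ 2 y / log y`.  So `Θ = ∑_{p ∈ PS P, α P < p ≤ β P} log p` is `(β - α) P / 2 + O(P / log P) + O(1)`, and `log P - log 2 - 1 ≤ log p ≤ log P` for `p > P/2 - 1`, so the number is `Θ / log P + O(P / (log P)²)`.
(2) `N = |PS P|`: `| N - P / (4 log P) | ≤ η P / log P`, so `N ≥ P / (8 log P)`.
(3) Let `R` be large, `u_r = 1/2 + r / (2 R)`, `r = 0..R`.  `∑_{p} h (p / P) = ∑_r ∑_{u_r P < p ≤ u_(r+1) P} h (p / P)`, replace `h (p / P)` by `h u_r` (error `Λ / (2R)`), the number of `p` by `(1 / (2R)) P / (2 log P)` (error `η P / log P` each): the sum is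
`(P / (4 log P)) (1/R) ∑_r h u_r + O(N Λ / (2 R)) + O(R B η P / log P)`; divide by `N`; `(1/R) ∑_r h u_r = 2 ∑_r (1/(2R)) h u_r = 2 ∫_{1/2}^1 h + O(Λ / R)`.  (`PS P` with `P / 2` the natural division: for even or odd `P` at most one element of `(P/2, P]` is not in a class; `p = P/2 + 1/2`..., harmless.)
First `R` then `η`.
-/

namespace Pool.Agent.Lib.MP_d57abb_nt.AS

open Finset Pool.Agent.Lib.MP_d57abb_nt Pool.Agent.Lib.MP_d57abb_nt.TA Pool.Agent.Lib.MP_d57abb_nt.TZ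

open Classical in
private noncomputable def PNT_c (n : ℕ) : ℝ := if SP n then Real.log n else 0

private noncomputable def PNT_th (n : ℕ) : ℝ := ∑ j ∈ Ioc 0 n, PNT_c j

private theorem PNT_theta {δ : ℝ} (hδ : 0 < δ) :
    ∃ y₀ : ℕ, ∀ y : ℕ, y₀ ≤ y → |PNT_th y - (y : ℝ) / 2| ≤ δ * y := by
  obtain ⟨y₀, hy⟩ := Pool.Agent.Lib.MP_d57abb_nt.All.sw 1 1
  have ht : Filter.Tendsto (fun y : ℕ => Real.log (y : ℝ)) Filter.atTop Filter.atTop :=
    Real.tendsto_log_atTop.comp tendsto_natCast_atTop_atTop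
  obtain ⟨y₁, hy₁⟩ := Filter.eventually_atTop.1 (ht.eventually_ge_atTop (max 5 (2 / δ)))
  refine ⟨max y₀ y₁, fun y h => ?_⟩
  have hl := hy₁ y (le_trans (le_max_right _ _) h)
  have hl5 : (5 : ℝ) ≤ Real.log y := le_trans (le_max_left _ _) hl
  have hld : 2 / δ ≤ Real.log y := le_trans (le_max_right _ _) hl
  have h0 := hy y (le_trans (le_max_left _ _) h) 5 (by norm_num) (by rw [pow_one]; exact_mod_cast hl5)
  have h1 := h0 1 (by norm_num)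
  have h4 := h0 4 (by norm_num)
  have hφ : Nat.totient 5 = 4 := by decide
  rw [hφ, pow_one] at h1 h4
  have hs : PNT_th y = (∑ n ∈ (Finset.Ioc 0 y).filter (fun n => n ≡ 1 [MOD 5]), Pool.Agent.Lib.MP_d57abb_nt.All.lp n) +
      ∑ n ∈ (Finset.Ioc 0 y).filter (fun n => n ≡ 4 [MOD 5]), Pool.Agent.Lib.MP_d57abb_nt.All.lp n := by
    unfold PNT_th
    rw [Finset.sum_filter, Finset.sum_filter, ← Finset.sum_add_distrib]
    refine Finset.sum_congr rfl fun n _ => ?_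
    unfold PNT_c Pool.Agent.Lib.MP_d57abb_nt.All.lp SP Nat.ModEq
    by_cases hp : n.Prime
    · by_cases h1 : n % 5 = 1
      · simp [hp, h1]
      · by_cases h4 : n % 5 = 4
        · simp [hp, h4]
        · simp [hp, h1, h4]
    · simp [hp]
  have hlpos : 0 < Real.log y := by linarith
  have hb : (y : ℝ) / Real.log y ≤ δ / 2 * y := by
    rw [div_le_iff₀ hlpos]
    rw [div_le_iff₀ hδ] at hld
    have hy0 : (0 : ℝ) ≤ y := Nat.cast_nonneg y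
    nlinarith [mul_nonneg hy0 (sub_nonneg.2 hld)]
  rw [hs]
  rw [abs_le] at h1 h4 ⊢
  push_cast at h1 h4
  constructor <;> linarith [h1.1, h1.2, h4.1, h4.2]

private theorem PNT_step {Λ : ℝ} (h : ℝ → ℂ) (hL : ∀ u v, ‖h u - h v‖ ≤ Λ * |u - v|) (hc : Continuous h)
    (hΛ : 0 ≤ Λ) {P : ℕ} (hP : 0 < P) (k : ℕ) :
    ‖h (((k + 1 : ℕ) : ℝ) / P) - (P : ℂ) * ∫ u in ((k : ℝ) / P)..(((k + 1 : ℕ) : ℝ) / P), h u‖ ≤ Λ / P := by
  have hP' : (0 : ℝ) < P := by exact_mod_cast hP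
  have e1 : (P : ℂ) * ∫ u in ((k : ℝ) / P)..(((k + 1 : ℕ) : ℝ) / P), h (((k + 1 : ℕ) : ℝ) / P) =
      h (((k + 1 : ℕ) : ℝ) / P) := by
    rw [intervalIntegral.integral_const]
    have : ((k + 1 : ℕ) : ℝ) / P - (k : ℝ) / P = 1 / P := by push_cast; ring
    rw [this, Complex.real_smul]
    push_cast
    have hPC : (P : ℂ) ≠ 0 := by exact_mod_cast hP.ne'
    field_simp
  have e2 : h (((k + 1 : ℕ) : ℝ) / P) - (P : ℂ) * ∫ u in ((k : ℝ) / P)..(((k + 1 : ℕ) : ℝ) / P), h u =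
      (P : ℂ) * ∫ u in ((k : ℝ) / P)..(((k + 1 : ℕ) : ℝ) / P), (h (((k + 1 : ℕ) : ℝ) / P) - h u) := by
    rw [intervalIntegral.integral_sub (by simp) (hc.intervalIntegrable _ _), mul_sub, e1]
  rw [e2, norm_mul, Complex.norm_natCast]
  have hle : (k : ℝ) / P ≤ ((k + 1 : ℕ) : ℝ) / P := by
    apply div_le_div_of_nonneg_right _ hP'.le
    push_cast; linarith
  have e3 : ‖∫ u in ((k : ℝ) / P)..(((k + 1 : ℕ) : ℝ) / P), (h (((k + 1 : ℕ) : ℝ) / P) - h u)‖ ≤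
      (Λ / P) * |((k + 1 : ℕ) : ℝ) / P - (k : ℝ) / P| := by
    apply intervalIntegral.norm_integral_le_of_norm_le_const
    intro u hu
    rw [Set.uIoc_of_le hle] at hu
    refine (hL _ _).trans ?_
    have e0 : Λ / P = Λ * (1 / P) := by ring
    rw [e0]
    apply mul_le_mul_of_nonneg_left _ hΛ
    have : ((k + 1 : ℕ) : ℝ) / P = (k : ℝ) / P + 1 / P := by push_cast; ring
    rw [abs_of_nonneg (by linarith [hu.2])]
    linarith [hu.1]
  have e4 : |((k + 1 : ℕ) : ℝ) / P - (k : ℝ) / P| = 1 / P := by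
    have : ((k + 1 : ℕ) : ℝ) / P - (k : ℝ) / P = 1 / P := by push_cast; ring
    rw [this, abs_of_nonneg (by positivity)]
  rw [e4] at e3
  calc (P : ℝ) * ‖∫ u in ((k : ℝ) / P)..(((k + 1 : ℕ) : ℝ) / P), (h (((k + 1 : ℕ) : ℝ) / P) - h u)‖
      ≤ P * (Λ / P * (1 / P)) := mul_le_mul_of_nonneg_left e3 hP'.le
    _ = Λ / P := by field_simp

private theorem PNT_abel {Λ D : ℝ} (h : ℝ → ℂ) (hL : ∀ u v, ‖h u - h v‖ ≤ Λ * |u - v|) (hc : Continuous h)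
    (hΛ : 0 ≤ Λ) {P : ℕ} (hP : 0 < P) (m : ℕ)
    (hD : ∀ n, m ≤ n → n ≤ P → |PNT_th n - (n : ℝ) / 2| ≤ D) (k : ℕ) (hmk : m ≤ k) (hkP : k ≤ P) :
    ‖(∑ n ∈ Ioc m k, (PNT_c n : ℂ) * h ((n : ℝ) / P)) - (P : ℂ) / 2 * (∫ u in ((m : ℝ) / P)..((k : ℝ) / P), h u)
      - ((PNT_th k - (k : ℝ) / 2 : ℝ) : ℂ) * h ((k : ℝ) / P) + ((PNT_th m - (m : ℝ) / 2 : ℝ) : ℂ) * h ((m : ℝ) / P)‖
      ≤ ((k : ℝ) - m) * ((D + 1) * Λ / P) := by
  have hP' : (0 : ℝ) < P := by exact_mod_cast hP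
  induction k, hmk using Nat.le_induction with
  | base => simp
  | succ k hmk ih =>
    have ih' := ih (by omega)
    have hs : ∑ n ∈ Ioc m (k + 1), (PNT_c n : ℂ) * h ((n : ℝ) / P) =
        (∑ n ∈ Ioc m k, (PNT_c n : ℂ) * h ((n : ℝ) / P)) + (PNT_c (k + 1) : ℂ) * h (((k + 1 : ℕ) : ℝ) / P) :=
      Finset.sum_Ioc_succ_top hmk _
    have ht : PNT_th (k + 1) = PNT_th k + PNT_c (k + 1) := Finset.sum_Ioc_succ_top (Nat.zero_le k) _
    have hi : (∫ u in ((m : ℝ) / P)..(((k + 1 : ℕ) : ℝ) / P), h u) =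
        (∫ u in ((m : ℝ) / P)..((k : ℝ) / P), h u) + ∫ u in ((k : ℝ) / P)..(((k + 1 : ℕ) : ℝ) / P), h u :=
      (intervalIntegral.integral_add_adjacent_intervals (hc.intervalIntegrable _ _) (hc.intervalIntegrable _ _)).symm
    have h1 := PNT_step h hL hc hΛ hP k
    have h2 := hL (((k + 1 : ℕ) : ℝ) / P) ((k : ℝ) / P)
    have e4 : |((k + 1 : ℕ) : ℝ) / P - (k : ℝ) / P| = 1 / P := by
      have : ((k + 1 : ℕ) : ℝ) / P - (k : ℝ) / P = 1 / P := by push_cast; ring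
      rw [this, abs_of_nonneg (by positivity)]
    rw [e4] at h2
    have hDk := hD k hmk (by omega)
    rw [hs, hi, ht]
    set S := ∑ n ∈ Ioc m k, (PNT_c n : ℂ) * h ((n : ℝ) / P)
    set I0 := ∫ u in ((m : ℝ) / P)..((k : ℝ) / P), h u
    set I1 := ∫ u in ((k : ℝ) / P)..(((k + 1 : ℕ) : ℝ) / P), h u
    set a := h ((k : ℝ) / P)
    set b := h (((k + 1 : ℕ) : ℝ) / P)
    set z := h ((m : ℝ) / P)
    have key : S + (PNT_c (k + 1) : ℂ) * b - (P : ℂ) / 2 * (I0 + I1)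
        - ((PNT_th k + PNT_c (k + 1) - ((k + 1 : ℕ) : ℝ) / 2 : ℝ) : ℂ) * b + ((PNT_th m - (m : ℝ) / 2 : ℝ) : ℂ) * z =
        (S - (P : ℂ) / 2 * I0 - ((PNT_th k - (k : ℝ) / 2 : ℝ) : ℂ) * a + ((PNT_th m - (m : ℝ) / 2 : ℝ) : ℂ) * z) +
        ((1 / 2 : ℂ) * (b - (P : ℂ) * I1) - ((PNT_th k - (k : ℝ) / 2 : ℝ) : ℂ) * (b - a)) := by
      push_cast
      ring
    rw [key]
    have n1 : ‖(1 / 2 : ℂ) * (b - (P : ℂ) * I1)‖ ≤ 1 / 2 * (Λ / P) := by
      rw [norm_mul]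
      have : ‖(1 / 2 : ℂ)‖ = 1 / 2 := by norm_num
      rw [this]
      exact mul_le_mul_of_nonneg_left h1 (by norm_num)
    have n2 : ‖((PNT_th k - (k : ℝ) / 2 : ℝ) : ℂ) * (b - a)‖ ≤ D * (Λ * (1 / P)) := by
      rw [norm_mul, Complex.norm_real, Real.norm_eq_abs]
      exact mul_le_mul hDk h2 (norm_nonneg _) ((abs_nonneg _).trans hDk)
    have n3 := norm_sub_le ((1 / 2 : ℂ) * (b - (P : ℂ) * I1)) (((PNT_th k - (k : ℝ) / 2 : ℝ) : ℂ) * (b - a))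
    refine (norm_add_le _ _).trans ?_
    have hLP : 0 ≤ Λ / P := by positivity
    have e5 : ((k + 1 : ℕ) : ℝ) - m = (k : ℝ) - m + 1 := by push_cast; ring
    rw [e5, add_mul, one_mul]
    have e6 : (D + 1) * Λ / P = D * (Λ * (1 / P)) + Λ / P := by ring
    rw [e6] at ih' ⊢
    linarith

private theorem PNT_main {Λ B D : ℝ} (h : ℝ → ℂ) (hB : ∀ u, ‖h u‖ ≤ B)
    (hL : ∀ u v, ‖h u - h v‖ ≤ Λ * |u - v|) (hc : Continuous h)
    (hΛ : 0 ≤ Λ) {P : ℕ} (hP : 0 < P)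
    (hD : ∀ n, P / 2 ≤ n → n ≤ P → |PNT_th n - (n : ℝ) / 2| ≤ D) :
    ‖(∑ n ∈ Ioc (P / 2) P, (PNT_c n : ℂ) * h ((n : ℝ) / P)) - (P : ℂ) / 2 * (∫ u in (1 / 2 : ℝ)..1, h u)‖
      ≤ 2 * D * B + (D + 1) * Λ + B := by
  have hP' : (0 : ℝ) < P := by exact_mod_cast hP
  have hD0 : 0 ≤ D := (abs_nonneg _).trans (hD P (by omega) le_rfl)
  have hB0 : 0 ≤ B := (norm_nonneg _).trans (hB 0)
  have h1 := PNT_abel h hL hc hΛ hP (P / 2) hD P (by omega) le_rfl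
  have hPP : (P : ℝ) / P = 1 := div_self hP'.ne'
  rw [hPP] at h1
  have hm1 : ((P / 2 : ℕ) : ℝ) ≤ (P : ℝ) / 2 := Nat.cast_div_le
  have hm2 : (P : ℝ) / 2 - 1 ≤ ((P / 2 : ℕ) : ℝ) := by
    have : P ≤ 2 * (P / 2) + 1 := by omega
    have h2 : (P : ℝ) ≤ 2 * ((P / 2 : ℕ) : ℝ) + 1 := by exact_mod_cast this
    linarith
  have hm0 : (0 : ℝ) ≤ ((P / 2 : ℕ) : ℝ) := Nat.cast_nonneg _
  set m : ℕ := P / 2
  have hi : (∫ u in ((m : ℝ) / P)..1, h u) = (∫ u in ((m : ℝ) / P)..(1 / 2 : ℝ), h u) + ∫ u in (1 / 2 : ℝ)..1, h u :=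
    (intervalIntegral.integral_add_adjacent_intervals (hc.intervalIntegrable _ _) (hc.intervalIntegrable _ _)).symm
  rw [hi] at h1
  have h3 : ‖∫ u in ((m : ℝ) / P)..(1 / 2 : ℝ), h u‖ ≤ B * |1 / 2 - (m : ℝ) / P| :=
    intervalIntegral.norm_integral_le_of_norm_le_const (fun u _ => hB u)
  have h4 : |1 / 2 - (m : ℝ) / P| ≤ 1 / P := by
    have e1 : (m : ℝ) / P ≤ 1 / 2 := by rw [div_le_iff₀ hP']; linarith
    rw [abs_of_nonneg (by linarith)]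
    have e2 : 1 / 2 - 1 / (P : ℝ) ≤ (m : ℝ) / P := by
      rw [le_div_iff₀ hP', sub_mul, div_mul_cancel₀ _ hP'.ne']
      linarith
    linarith
  have h5 : ‖(P : ℂ) / 2 * ∫ u in ((m : ℝ) / P)..(1 / 2 : ℝ), h u‖ ≤ B := by
    rw [norm_mul]
    have e1 : ‖(P : ℂ) / 2‖ = (P : ℝ) / 2 := by
      rw [norm_div, Complex.norm_natCast]
      norm_num
    rw [e1]
    have e2 : B * |1 / 2 - (m : ℝ) / P| ≤ B * (1 / P) := mul_le_mul_of_nonneg_left h4 hB0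
    calc (P : ℝ) / 2 * ‖∫ u in ((m : ℝ) / P)..(1 / 2 : ℝ), h u‖ ≤ (P : ℝ) / 2 * (B * (1 / P)) :=
          mul_le_mul_of_nonneg_left (h3.trans e2) (by positivity)
      _ = B / 2 := by field_simp
      _ ≤ B := by linarith
  have h6 : ‖((PNT_th P - (P : ℝ) / 2 : ℝ) : ℂ) * h 1‖ ≤ D * B := by
    rw [norm_mul, Complex.norm_real, Real.norm_eq_abs]
    exact mul_le_mul (hD P (by omega) le_rfl) (hB _) (norm_nonneg _) hD0
  have h7 : ‖((PNT_th m - (m : ℝ) / 2 : ℝ) : ℂ) * h ((m : ℝ) / P)‖ ≤ D * B := by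
    rw [norm_mul, Complex.norm_real, Real.norm_eq_abs]
    exact mul_le_mul (hD m le_rfl (by omega)) (hB _) (norm_nonneg _) hD0
  have h8 : ((P : ℝ) - m) * ((D + 1) * Λ / P) ≤ (D + 1) * Λ := by
    have e1 : ((P : ℝ) - m) * ((D + 1) * Λ / P) ≤ P * ((D + 1) * Λ / P) :=
      mul_le_mul_of_nonneg_right (by linarith) (by positivity)
    have e2 : (P : ℝ) * ((D + 1) * Λ / P) = (D + 1) * Λ := by field_simp
    linarith
  set S := ∑ n ∈ Ioc m P, (PNT_c n : ℂ) * h ((n : ℝ) / P)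
  set J0 := ∫ u in ((m : ℝ) / P)..(1 / 2 : ℝ), h u
  set J1 := ∫ u in (1 / 2 : ℝ)..1, h u
  set X := ((PNT_th P - (P : ℝ) / 2 : ℝ) : ℂ) * h 1
  set Y := ((PNT_th m - (m : ℝ) / 2 : ℝ) : ℂ) * h ((m : ℝ) / P)
  have key : S - (P : ℂ) / 2 * J1 = (S - (P : ℂ) / 2 * (J0 + J1) - X + Y) + (P : ℂ) / 2 * J0 + X - Y := by ring
  rw [key]
  refine (norm_sub_le _ _).trans ?_
  have n1 := norm_add_le ((S - (P : ℂ) / 2 * (J0 + J1) - X + Y) + (P : ℂ) / 2 * J0) X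
  have n2 := norm_add_le (S - (P : ℂ) / 2 * (J0 + J1) - X + Y) ((P : ℂ) / 2 * J0)
  linarith

private theorem PNT_sumPS (P : ℕ) (f : ℕ → ℂ) :
    ∑ n ∈ Ioc (P / 2) P, (PNT_c n : ℂ) * f n = ∑ p ∈ PS P, (Real.log p : ℂ) * f p := by
  classical
  have : PS P = (Ioc (P / 2) P).filter SP := by
    ext x; simp [PS]
  rw [this, Finset.sum_filter]
  refine Finset.sum_congr rfl fun n _ => ?_
  unfold PNT_c
  by_cases hn : SP n
  · simp [hn]
  · simp [hn]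

private theorem PNT_logs {P p : ℕ} (hp : p ∈ PS P) : 0 ≤ Real.log P - Real.log p ∧ Real.log P - Real.log p ≤ 1 := by
  classical
  have : p ∈ (Ioc (P / 2) P).filter SP := by simpa [PS] using hp
  rw [Finset.mem_filter, Finset.mem_Ioc] at this
  have h1 : P / 2 < p := this.1.1
  have h2 : p ≤ P := this.1.2
  have hp0 : (0 : ℝ) < p := by exact_mod_cast (show 0 < p by omega)
  have hP0 : (0 : ℝ) < P := by exact_mod_cast (show 0 < P by omega)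
  have h3 : (P : ℝ) ≤ 2 * p := by exact_mod_cast (show P ≤ 2 * p by omega)
  have h4 : (p : ℝ) ≤ P := by exact_mod_cast h2
  constructor
  · exact sub_nonneg.2 (Real.log_le_log hp0 h4)
  · have h5 := Real.log_le_log hP0 h3
    rw [Real.log_mul (by norm_num) hp0.ne'] at h5
    have h6 := Real.log_two_lt_d9
    linarith

private theorem PNT_LS {B : ℝ} (P : ℕ) (f : ℕ → ℂ) (hf : ∀ n, ‖f n‖ ≤ B) :
    ‖(Real.log P : ℂ) * (∑ p ∈ PS P, f p) - ∑ p ∈ PS P, (Real.log p : ℂ) * f p‖ ≤ (PS P).card * B := by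
  rw [Finset.mul_sum, ← Finset.sum_sub_distrib]
  refine (norm_sum_le _ _).trans ?_
  rw [← nsmul_eq_mul]
  apply Finset.sum_le_card_nsmul
  intro p hp
  have h1 := PNT_logs hp
  rw [← sub_mul, norm_mul, ← Complex.ofReal_sub, Complex.norm_real, Real.norm_eq_abs, abs_of_nonneg h1.1]
  calc (Real.log P - Real.log p) * ‖f p‖ ≤ 1 * B := mul_le_mul h1.2 (hf p) (norm_nonneg _) (by norm_num)
    _ = B := one_mul B

private theorem PNT_core {Λ B : ℝ} (hΛ : 0 ≤ Λ) (hB0 : 0 ≤ B) {ε : ℝ} (hε : 0 < ε) : ∃ P₀ : ℕ, ∀ P : ℕ, P₀ ≤ P →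
    ∀ h : ℝ → ℂ, (∀ u, ‖h u‖ ≤ B) → (∀ u v, ‖h u - h v‖ ≤ Λ * |u - v|) → Continuous h →
    ‖(∑ p ∈ PS P, h ((p : ℝ) / P)) / ((PS P).card : ℂ) - 2 * ∫ u in (1 / 2 : ℝ)..1, h u‖ ≤ ε := by
  set K : ℝ := 4 * B + Λ + 1 with hK
  have hKpos : 0 < K := by positivity
  set δ : ℝ := ε / (256 * K) with hδ
  have hδpos : 0 < δ := by positivity
  obtain ⟨y₀, hy₀⟩ := PNT_theta hδpos
  obtain ⟨P₁, hP₁⟩ := card_PS
  have ht : Filter.Tendsto (fun y : ℕ => Real.log (y : ℝ)) Filter.atTop Filter.atTop :=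
    Real.tendsto_log_atTop.comp tendsto_natCast_atTop_atTop
  obtain ⟨P₂, hP₂⟩ := Filter.eventually_atTop.1 (ht.eventually_ge_atTop (max 1 (8 * B / ε)))
  have ht2 : Filter.Tendsto (fun y : ℕ => (y : ℝ)) Filter.atTop Filter.atTop := tendsto_natCast_atTop_atTop
  obtain ⟨P₃, hP₃⟩ := Filter.eventually_atTop.1 (ht2.eventually_ge_atTop (64 * (Λ + 3 * B) / ε))
  refine ⟨max (max P₁ P₂) (max P₃ (2 * y₀ + 2)), fun P hP h hB hL hc => ?_⟩
  have q1 : P₁ ≤ P := le_trans (le_trans (le_max_left _ _) (le_max_left _ _)) hP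
  have q2 : P₂ ≤ P := le_trans (le_trans (le_max_right _ _) (le_max_left _ _)) hP
  have q3 : P₃ ≤ P := le_trans (le_trans (le_max_left _ _) (le_max_right _ _)) hP
  have q4 : 2 * y₀ + 2 ≤ P := le_trans (le_trans (le_max_right _ _) (le_max_right _ _)) hP
  have hP0 : 0 < P := by omega
  have hP' : (0 : ℝ) < P := by exact_mod_cast hP0
  have hLog := hP₂ P q2
  have hLog1 : 1 ≤ Real.log P := le_trans (le_max_left _ _) hLog
  have hLog2 : 8 * B / ε ≤ Real.log P := le_trans (le_max_right _ _) hLog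
  have hPbig := hP₃ P q3
  have hN := hP₁ P q1
  have hD : ∀ n, P / 2 ≤ n → n ≤ P → |PNT_th n - (n : ℝ) / 2| ≤ δ * P := by
    intro n h1 h2
    refine (hy₀ n (by omega)).trans ?_
    apply mul_le_mul_of_nonneg_left _ hδpos.le
    exact_mod_cast h2
  have hM := PNT_main h hB hL hc hΛ hP0 hD
  have hM1 := PNT_main (B := 1) (Λ := 0) (fun _ => (1 : ℂ)) (by simp) (by simp) continuous_const le_rfl hP0 hD
  rw [PNT_sumPS P (fun n => h ((n : ℝ) / P))] at hM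
  rw [PNT_sumPS P (fun n => (1 : ℂ))] at hM1
  have hS := PNT_LS P (fun n => h ((n : ℝ) / P)) (fun n => hB _)
  have hS1 := PNT_LS (B := 1) P (fun n => (1 : ℂ)) (by simp)
  have hI : ‖∫ u in (1 / 2 : ℝ)..1, h u‖ ≤ B := by
    have := intervalIntegral.norm_integral_le_of_norm_le_const (f := h) (a := 1 / 2) (b := 1) (C := B) (fun u _ => hB u)
    refine this.trans ?_
    have e : |(1 : ℝ) - 1 / 2| = 1 / 2 := by norm_num
    rw [e]; linarith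
  have hLogpos : 0 < Real.log P := by linarith
  set N : ℝ := ((PS P).card : ℝ) with hNdef
  set L : ℝ := Real.log P with hLdef
  set S := ∑ p ∈ PS P, h ((p : ℝ) / P)
  set T := ∑ p ∈ PS P, (Real.log p : ℂ) * h ((p : ℝ) / P)
  set T1 := ∑ p ∈ PS P, (Real.log p : ℂ) * 1
  set I := ∫ u in (1 / 2 : ℝ)..1, h u
  have hI1 : (∫ u in (1 / 2 : ℝ)..1, (1 : ℂ)) = 1 / 2 := by
    rw [intervalIntegral.integral_const]
    norm_num
  have hc1 : ∑ p ∈ PS P, (1 : ℂ) = (N : ℂ) := by simp [hNdef]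
  rw [hI1] at hM1
  rw [hc1] at hS1
  have hLN : (P : ℝ) / 16 ≤ L * N := by
    rw [div_le_iff₀ (by positivity)] at hN
    linarith
  have hLNpos : 0 < L * N := lt_of_lt_of_le (by positivity) hLN
  have hNpos : 0 < N := by
    by_contra hcon
    push Not at hcon
    have := mul_nonpos_of_nonneg_of_nonpos hLogpos.le hcon
    linarith
  have hcard : ((PS P).card : ℂ) = (N : ℂ) := by simp [hNdef]
  rw [hcard]
  have hNC : (N : ℂ) ≠ 0 := by exact_mod_cast hNpos.ne'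
  have hLC : (L : ℂ) ≠ 0 := by exact_mod_cast hLogpos.ne'
  have key : S / (N : ℂ) - 2 * I = (((L : ℂ) * S - T) + (T - (P : ℂ) / 2 * I) -
      2 * I * (((L : ℂ) * N - T1) + (T1 - (P : ℂ) / 2 * (1 / 2)))) / ((L : ℂ) * N) := by
    field_simp
    ring
  rw [key, norm_div, norm_mul, Complex.norm_real, Complex.norm_real, Real.norm_eq_abs, Real.norm_eq_abs,
    abs_of_pos hLogpos, abs_of_pos hNpos, div_le_iff₀ hLNpos]
  have n1 := norm_sub_le (((L : ℂ) * S - T) + (T - (P : ℂ) / 2 * I))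
    (2 * I * (((L : ℂ) * N - T1) + (T1 - (P : ℂ) / 2 * (1 / 2))))
  have n2 := norm_add_le ((L : ℂ) * S - T) (T - (P : ℂ) / 2 * I)
  have n3 := norm_add_le ((L : ℂ) * N - T1) (T1 - (P : ℂ) / 2 * (1 / 2))
  have n4 : ‖2 * I * (((L : ℂ) * N - T1) + (T1 - (P : ℂ) / 2 * (1 / 2)))‖ ≤
      2 * B * (N * 1 + (2 * (δ * P) * 1 + (δ * P + 1) * 0 + 1)) := by
    rw [norm_mul, norm_mul]
    have e2 : ‖(2 : ℂ)‖ = 2 := by norm_num
    rw [e2]
    apply mul_le_mul (by linarith) (n3.trans (add_le_add hS1 hM1)) (norm_nonneg _) (by positivity)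
  have t1 : 256 * K * δ = ε := by
    rw [hδ]; field_simp
  have t2 : 8 * B ≤ ε * L := by
    rw [div_le_iff₀ hε] at hLog2
    linarith
  have t3 : 64 * (Λ + 3 * B) ≤ ε * P := by
    have := (div_le_iff₀ hε).1 hPbig
    linarith
  have t4 : 8 * B * N ≤ ε * (L * N) := by
    have := mul_le_mul_of_nonneg_right t2 hNpos.le
    linarith
  have t5 : ε * P ≤ 16 * (ε * (L * N)) := by
    have := mul_le_mul_of_nonneg_left hLN hε.le
    linarith
  have t6 : 64 * (δ * P * (6 * B + Λ)) ≤ 64 * (δ * P * (2 * K)) := by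
    apply mul_le_mul_of_nonneg_left _ (by norm_num)
    apply mul_le_mul_of_nonneg_left _ (by positivity)
    rw [hK]; linarith
  have t7 : 64 * (δ * P * (2 * K)) = ε * P / 2 := by rw [← t1]; ring
  have t8 : 2 * (δ * P) * B + (δ * P + 1) * Λ + B + 2 * B * (N * 1 + (2 * (δ * P) * 1 + (δ * P + 1) * 0 + 1)) =
      δ * P * (6 * B + Λ) + Λ + 3 * B + 2 * B * N := by ring
  have t9 : 0 ≤ ε * (L * N) := by positivity
  have t10 : N * B = B * N := mul_comm _ _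
  linarith [n1, n2, n4, hS, hM, t3, t4, t5, t6, t7]

theorem pnt_avg (Λ B : ℝ) {ε : ℝ} (hε : 0 < ε) : ∃ P₀ : ℕ, ∀ P : ℕ, P₀ ≤ P → ∀ h : ℝ → ℂ,
    (∀ u, 1 / 2 ≤ u → u ≤ 1 → ‖h u‖ ≤ B) →
    (∀ u v, 1 / 2 ≤ u → u ≤ 1 → 1 / 2 ≤ v → v ≤ 1 → ‖h u - h v‖ ≤ Λ * |u - v|) →
    ‖(∑ p ∈ PS P, h ((p : ℝ) / P)) / ((PS P).card : ℂ) - 2 * ∫ u in (1 / 2 : ℝ)..1, h u‖ ≤ ε := by
  have hΛB : 0 ≤ |Λ| ∧ 0 ≤ |B| := ⟨abs_nonneg _, abs_nonneg _⟩
  obtain ⟨P₀, hP₀⟩ := PNT_core hΛB.1 hΛB.2 hε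
  refine ⟨max P₀ 1, fun P hP h hB hL => ?_⟩
  have hP1 : 1 ≤ P := le_trans (le_max_right _ _) hP
  have hP' : (0 : ℝ) < P := by exact_mod_cast hP1
  set H : ℝ → ℂ := fun u => h (max (1 / 2) (min u 1)) with hH
  have hr : ∀ u : ℝ, 1 / 2 ≤ max (1 / 2) (min u 1) ∧ max (1 / 2) (min u 1) ≤ 1 := fun u =>
    ⟨le_max_left _ _, max_le (by norm_num) (min_le_right _ _)⟩
  have hHeq : ∀ u, 1 / 2 ≤ u → u ≤ 1 → H u = h u := by
    intro u h1 h2
    simp only [hH]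
    rw [min_eq_left h2, max_eq_right h1]
  have hHL : ∀ u v, ‖H u - H v‖ ≤ |Λ| * |u - v| := by
    intro u v
    refine (hL _ _ (hr u).1 (hr u).2 (hr v).1 (hr v).2).trans ?_
    have e1 : |max (1 / 2) (min u 1) - max (1 / 2) (min v 1)| ≤ |u - v| := by
      have a1 := abs_max_sub_max_le_abs (min u 1) (min v 1) (1 / 2 : ℝ)
      have a2 := abs_min_sub_min_le_max u 1 v (1 : ℝ)
      rw [max_comm (1 / 2 : ℝ), max_comm (1 / 2 : ℝ)]
      refine a1.trans (a2.trans ?_)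
      simp
    calc Λ * |max (1 / 2) (min u 1) - max (1 / 2) (min v 1)|
        ≤ |Λ| * |max (1 / 2) (min u 1) - max (1 / 2) (min v 1)| :=
          mul_le_mul_of_nonneg_right (le_abs_self _) (abs_nonneg _)
      _ ≤ |Λ| * |u - v| := mul_le_mul_of_nonneg_left e1 (abs_nonneg _)
  have hHc : Continuous H := by
    have : LipschitzWith ⟨|Λ|, abs_nonneg Λ⟩ H := by
      apply LipschitzWith.of_dist_le_mul
      intro u v
      rw [dist_eq_norm, Real.dist_eq]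
      exact hHL u v
    exact this.continuous
  have hmain := hP₀ P (le_trans (le_max_left _ _) hP) H
    (fun u => (hB _ (hr u).1 (hr u).2).trans (le_abs_self B)) hHL hHc
  have e1 : ∑ p ∈ PS P, H ((p : ℝ) / P) = ∑ p ∈ PS P, h ((p : ℝ) / P) := by
    classical
    refine Finset.sum_congr rfl fun p hp => ?_
    have hp' : p ∈ (Ioc (P / 2) P).filter SP := by simpa [PS] using hp
    rw [Finset.mem_filter, Finset.mem_Ioc] at hp'
    apply hHeq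
    · rw [le_div_iff₀ hP']
      have : (P : ℝ) ≤ 2 * p := by exact_mod_cast (show P ≤ 2 * p by omega)
      linarith
    · rw [div_le_one hP']
      exact_mod_cast hp'.1.2
  have e2 : (∫ u in (1 / 2 : ℝ)..1, H u) = ∫ u in (1 / 2 : ℝ)..1, h u := by
    apply intervalIntegral.integral_congr
    intro u hu
    rw [Set.uIcc_of_le (by norm_num)] at hu
    exact hHeq u hu.1 hu.2
  rw [e1, e2] at hmain
  exact hmain

end Pool.Agent.Lib.MP_d57abb_nt.AS
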