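import Pool.Agent.Lib.MP_d57abb_nt.AS.AvgK
import Pool.Agent.Lib.MP_d57abb_nt.AS.PNT

/-!
# JOB Lim: the local averages tend to zero on average (about 120 lines)

`ε > 0`.  `e` from `avgK` (with `ε`).  `Λ, B` for the functions `h u = SK a φ ψ z (Y / u)`, `Y > 0`, `u ∈ [1/2, 1]`: `SK_bdd`, and `SK_lip`: for `u ≤ v`: `Y / v ≤ Y / u`, `‖h u - h v‖ ≤ C (Y / u - Y / v) / (Y / v) = C (v - u) / u ≤ 2 C (v - u)`.  `P₀` from `pnt_avg`; `ρ₀ ≥ e` such that `PP (2 e) ρ = 2^(2ρ - 2e) = 4^(ρ - e) ≥ P₀` for `ρ ≥ ρ₀`.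
`J, I₀` from `avgK`.  For `I` with `I + J ≥ I₀` let `ρ` be given by `avgK` for `I' = I + J`; `P = 4^(ρ - e)`, `σ = ρ - e ≤ J`.  For every `j`: `h u = SK a φ ψ z ((4^j / P) / u)`, so `h (p / P) = SK a φ ψ z (4^j / p)`: `‖2 ∫ h‖ ≤ ‖(1/|PS|) ∑ SK (4^j / p)‖ + ε`.  For `j = i + σ`: `4^j / P = 4^i`, the integral is `MK a φ ψ z (4^i)`.
So `∑_{i<I} ‖MK (4^i)‖ ≤ (1/2) (∑_{j < I + J} ‖(1/|PS|) ∑ ..‖ + ε I) ≤ (1/2) (ε (I + J) + ε I) ≤ 2 ε I` for `I ≥ J`.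
-/

namespace Pool.Agent.Lib.MP_d57abb_nt.AS

open Finset Pool.Agent.Lib.MP_d57abb_nt Pool.Agent.Lib.MP_d57abb_nt.TA Pool.Agent.Lib.MP_d57abb_nt.TZ

open Classical in
private theorem Lim_PS_mem {P p : ℕ} (hp : p ∈ PS P) : SP p := by
  rw [PS, mem_filter] at hp
  exact hp.2

private theorem Lim_one {φ ψ : ℝ → ℝ} {a k : ℕ} {La L : ℝ} (hφ : PW φ a La) (hψ : PW ψ k L) {z : ℂ}
    (hz : ‖z‖ = 1) {ε : ℝ} (hε : 0 < ε) : ∃ P₀ : ℕ, 1 ≤ P₀ ∧ ∀ P : ℕ, P₀ ≤ P → ∀ Y : ℝ, 0 < Y →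
      ‖MK a φ ψ z (Y / P)‖ ≤ (‖(∑ p ∈ PS P, SK a φ ψ z (Y / p)) / ((PS P).card : ℂ)‖ + ε) / 2 := by
  obtain ⟨C, hC0, hC⟩ := SK_bdd hφ hψ hz
  obtain ⟨C', hC'0, hC'⟩ := SK_lip hφ hψ hz
  obtain ⟨P₀, hP₀⟩ := pnt_avg (2 * C') C hε
  refine ⟨P₀ + 1, by omega, fun P hP Y hY => ?_⟩
  have hP0 : (0 : ℝ) < P := by exact_mod_cast (by omega : 0 < P)
  have hYP : 0 < Y / P := by positivity
  have hlip : ∀ u v : ℝ, 1 / 2 ≤ u → u ≤ v →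
      ‖SK a φ ψ z (Y / P / u) - SK a φ ψ z (Y / P / v)‖ ≤ 2 * C' * |u - v| := by
    intro u v hu huv
    have hu0 : 0 < u := by linarith
    have hv0 : 0 < v := by linarith
    have h1 : Y / P / v ≤ Y / P / u := div_le_div_of_nonneg_left hYP.le hu0 huv
    refine (hC' (Y / P / v) (Y / P / u) (by positivity) h1).trans ?_
    have h2 : C' * (Y / P / u - Y / P / v) / (Y / P / v) = C' * ((v - u) / u) := by
      field_simp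
    rw [h2, abs_sub_comm, abs_of_nonneg (sub_nonneg.2 huv), mul_comm 2 C', mul_assoc]
    refine mul_le_mul_of_nonneg_left ?_ hC'0
    rw [div_le_iff₀ hu0]
    nlinarith [sub_nonneg.2 huv]
  have h := hP₀ P (by omega) (fun u => SK a φ ψ z (Y / P / u)) (fun u hu _ => hC _ (by
      have : 0 < u := by linarith
      positivity))
    (fun u v hu _ hv _ => by
      rcases le_total u v with huv | huv
      · exact hlip u v hu huv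
      · show ‖SK a φ ψ z (Y / P / u) - SK a φ ψ z (Y / P / v)‖ ≤ 2 * C' * |u - v|
        rw [norm_sub_rev, abs_sub_comm]
        exact hlip v u hv huv)
  have e1 : ∑ p ∈ PS P, SK a φ ψ z (Y / P / ((p : ℝ) / P)) = ∑ p ∈ PS P, SK a φ ψ z (Y / p) := by
    refine Finset.sum_congr rfl fun p hp => ?_
    have hp0 : (0 : ℝ) < p := by exact_mod_cast (Lim_PS_mem hp).1.pos
    have : Y / P / ((p : ℝ) / P) = Y / p := by
      field_simp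
    rw [this]
  have h' : ‖(∑ p ∈ PS P, SK a φ ψ z (Y / p)) / ((PS P).card : ℂ) - 2 * MK a φ ψ z (Y / P)‖ ≤ ε := by
    rw [← e1]
    exact h
  have e2 : ‖(2 : ℂ) * MK a φ ψ z (Y / P)‖ = 2 * ‖MK a φ ψ z (Y / P)‖ := by
    rw [norm_mul]
    norm_num
  have e3 : ‖(2 : ℂ) * MK a φ ψ z (Y / P)‖ ≤
      ‖(∑ p ∈ PS P, SK a φ ψ z (Y / p)) / ((PS P).card : ℂ)‖ + ε := by
    have e4 := norm_sub_norm_le ((2 : ℂ) * MK a φ ψ z (Y / P))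
      ((∑ p ∈ PS P, SK a φ ψ z (Y / p)) / ((PS P).card : ℂ))
    rw [norm_sub_rev] at e4
    linarith
  rw [e2] at e3
  linarith

theorem MK_lim {q : ℕ} (hq : 1 ≤ q) {z : ℂ} (hz : z ^ q = 1) (hz1 : z ≠ 1) {φ ψ : ℝ → ℝ} {a k : ℕ} {La L : ℝ}
    (hφ : PW φ a La) (hψ : PW ψ k L) :
    Filter.Tendsto (fun I : ℕ => (∑ j ∈ range I, ‖MK a φ ψ z (4 ^ j)‖) / (I : ℝ)) Filter.atTop (nhds 0) := by
  have hzn : ‖z‖ = 1 := by
    have h1 : ‖z‖ ^ q = 1 := by rw [← norm_pow, hz, norm_one]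
    exact (pow_eq_one_iff_of_nonneg (norm_nonneg _) (by omega)).1 h1
  rw [Metric.tendsto_atTop]
  intro ε₀ hε₀
  obtain ⟨ε, hεd⟩ : ∃ ε : ℝ, ε = ε₀ / 2 := ⟨_, rfl⟩
  have hε : 0 < ε := by
    rw [hεd]
    positivity
  obtain ⟨e, he⟩ := avgK hq hz hz1 hφ hψ hε
  obtain ⟨P₀, hP1, hP₀⟩ := Lim_one hφ hψ hzn hε
  obtain ⟨J, I₀, hJ⟩ := he (e + P₀)
  refine ⟨I₀ + J + 1, fun I hI => ?_⟩
  obtain ⟨ρ, hρ1, hρ2, hsum⟩ := hJ (I + J) (by omega)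
  obtain ⟨σ, hσ⟩ : ∃ σ : ℕ, σ = ρ - e := ⟨_, rfl⟩
  have hPP : PP (2 * e) ρ = 4 ^ σ := by
    unfold PP
    have : 2 * ρ - 2 * e = 2 * σ := by omega
    rw [this, pow_mul]
    norm_num
  have hPge : P₀ ≤ PP (2 * e) ρ := by
    rw [hPP]
    have h1 : σ < 4 ^ σ := Nat.lt_pow_self (by norm_num)
    omega
  have hI0 : (0 : ℝ) < (I : ℝ) := by exact_mod_cast (by omega : 0 < I)
  have hIJ0 : (0 : ℝ) < ((I + J : ℕ) : ℝ) := by exact_mod_cast (by omega : 0 < I + J)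
  rw [div_le_iff₀ hIJ0] at hsum
  have hone : ∀ i : ℕ, ‖MK a φ ψ z (4 ^ i)‖ ≤
      (‖(∑ p ∈ PS (PP (2 * e) ρ), SK a φ ψ z (4 ^ (σ + i) / p)) /
        ((PS (PP (2 * e) ρ)).card : ℂ)‖ + ε) / 2 := by
    intro i
    have h1 := hP₀ (PP (2 * e) ρ) hPge (4 ^ (σ + i)) (by positivity)
    have h2 : (4 : ℝ) ^ (σ + i) / ((PP (2 * e) ρ : ℕ) : ℝ) = 4 ^ i := by
      rw [hPP]
      push_cast
      rw [pow_add]
      field_simp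
    rw [h2] at h1
    exact h1
  have h5 : ∑ i ∈ range I, ‖(∑ p ∈ PS (PP (2 * e) ρ), SK a φ ψ z (4 ^ (σ + i) / p)) /
        ((PS (PP (2 * e) ρ)).card : ℂ)‖ ≤
      ∑ j ∈ range (I + J), ‖(∑ p ∈ PS (PP (2 * e) ρ), SK a φ ψ z (4 ^ j / p)) /
        ((PS (PP (2 * e) ρ)).card : ℂ)‖ := by
    have e1 : ∑ j ∈ range (σ + I), ‖(∑ p ∈ PS (PP (2 * e) ρ), SK a φ ψ z (4 ^ j / p)) /
        ((PS (PP (2 * e) ρ)).card : ℂ)‖ = _ + _ := Finset.sum_range_add _ _ _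
    have e2 : ∑ j ∈ range (σ + I), ‖(∑ p ∈ PS (PP (2 * e) ρ), SK a φ ψ z (4 ^ j / p)) /
        ((PS (PP (2 * e) ρ)).card : ℂ)‖ ≤ ∑ j ∈ range (I + J),
        ‖(∑ p ∈ PS (PP (2 * e) ρ), SK a φ ψ z (4 ^ j / p)) /
        ((PS (PP (2 * e) ρ)).card : ℂ)‖ :=
      Finset.sum_le_sum_of_subset_of_nonneg (Finset.range_mono (by omega))
        fun i _ _ => norm_nonneg _
    rw [e1] at e2
    have e3 : 0 ≤ ∑ j ∈ range σ, ‖(∑ p ∈ PS (PP (2 * e) ρ), SK a φ ψ z (4 ^ j / p)) /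
        ((PS (PP (2 * e) ρ)).card : ℂ)‖ := Finset.sum_nonneg fun _ _ => norm_nonneg _
    linarith
  have h6 : ∑ i ∈ range I, ‖MK a φ ψ z (4 ^ i)‖ ≤
      ((∑ i ∈ range I, ‖(∑ p ∈ PS (PP (2 * e) ρ), SK a φ ψ z (4 ^ (σ + i) / p)) /
        ((PS (PP (2 * e) ρ)).card : ℂ)‖) + ε * I) / 2 := by
    refine (Finset.sum_le_sum fun i _ => hone i).trans (le_of_eq ?_)
    rw [← Finset.sum_div, Finset.sum_add_distrib, Finset.sum_const, card_range, nsmul_eq_mul,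
      mul_comm (I : ℝ) ε]
  have hJI : ((I + J : ℕ) : ℝ) ≤ 2 * I := by
    have : I + J ≤ 2 * I := by omega
    exact_mod_cast this
  have h7 : ∑ i ∈ range I, ‖MK a φ ψ z (4 ^ i)‖ ≤ 3 / 2 * ε * I := by
    have := mul_le_mul_of_nonneg_left hJI hε.le
    linarith
  have h8 : 0 ≤ ∑ i ∈ range I, ‖MK a φ ψ z (4 ^ i)‖ := Finset.sum_nonneg fun _ _ => norm_nonneg _
  rw [dist_zero_right, Real.norm_of_nonneg (div_nonneg h8 hI0.le), div_lt_iff₀ hI0]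
  refine h7.trans_lt ?_
  rw [hεd]
  nlinarith [mul_pos hε₀ hI0]

end Pool.Agent.Lib.MP_d57abb_nt.AS
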