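import Pool.Agent.Lib.MP_d57abb_nt.AS.FinN

/-!
# The natural-scale theorem with the polynomial, the weights and the logarithmic density written out
-/

namespace Pool.Agent.Lib.MP_d57abb_nt.AS

open Finset Filter Topology Pool.Agent.Lib.MP_d57abb_nt Pool.Agent.Lib.MP_d57abb_nt.TA Pool.Agent.Lib.MP_d57abb_nt.TZ Pool.Agent.Lib.MP_d57abb_nt.TS

open Classical in
theorem mainN : ∃ E : Set ℕ,
    Tendsto (fun N : ℕ => (∑ X ∈ (Icc 1 N).filter (fun X => X ∈ E), (1 : ℝ) / X) / Real.log N)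
      atTop (𝓝 0) ∧
    (∀ (c : ℝ) (T : ℕ → ℕ), 1 < c → (∀ k : ℕ, T k =
        ((k ^ 2 + 3 * k + 1).divisors.filter
          (fun d : ℕ => (k : ℝ) ≤ c * d ∧ (d : ℝ) ≤ c * k)).card) →
      (∃ c₀ : ℝ, 0 < c₀ ∧ ∃ N₀ : ℕ, ∀ N : ℕ, N₀ ≤ N →
        c₀ * N ≤ ∑ k ∈ Icc 1 N, (T k : ℝ) ∧ ∑ k ∈ Icc 1 N, (T k : ℝ) ≤ 3 * c * N) ∧
      ∀ m r : ℕ, r < m → Tendsto (fun X : ℕ =>
        (∑ k ∈ (Icc 1 X).filter
          (fun k => ArithmeticFunction.cardFactors (k ^ 2 + 3 * k + 1) % m = r), (T k : ℝ)) /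
        (∑ k ∈ Icc 1 X, (T k : ℝ))) (atTop ⊓ 𝓟 Eᶜ) (𝓝 (1 / (m : ℝ)))) ∧
    ∀ m r : ℕ, r < m →
      (∃ κ : ℝ, 0 < κ ∧ ∃ X₀ : ℕ, ∀ X : ℕ, X₀ ≤ X → X ∉ E →
        κ * X / (Real.log X) ^ 2 ≤ (((Icc 1 X).filter
          (fun k => ArithmeticFunction.cardFactors (k ^ 2 + 3 * k + 1) % m = r)).card : ℝ)) ∧
      ∀ δ : ℝ, 0 < δ → ∃ N₀ : ℕ, ∀ N : ℕ, N₀ ≤ N →
        (N : ℝ) ^ (1 - δ) ≤ (((Icc 1 N).filter
          (fun k => ArithmeticFunction.cardFactors (k ^ 2 + 3 * k + 1) % m = r)).card : ℝ) := by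
  obtain ⟨E, hE, h1, h2, h3⟩ := finN
  refine ⟨E, hE, ?_, ?_⟩
  · intro c T hc hT
    have hT' : T = tc c := funext hT
    subst hT'
    refine ⟨?_, fun m r hr => ?_⟩
    · obtain ⟨c0, hc0, N0, hN0⟩ := mass_ge c hc
      exact ⟨c0, hc0, N0, fun N hN => ⟨hN0 N hN, mass_le c hc.le N⟩⟩
    · exact h1 c hc m r hr
  · intro m r hr
    exact ⟨h2 m r hr, h3 m r hr⟩

end Pool.Agent.Lib.MP_d57abb_nt.AS
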