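import Pool.Agent.Lib.MP_d57abb_nt.AS.WK
import Pool.Agent.Lib.MP_d57abb_nt.AS.MSg
import Pool.Agent.Lib.MP_d57abb_nt.TA.Ker
import Pool.Agent.Lib.MP_d57abb_nt.TA.MCell
import Pool.Agent.Lib.MP_d57abb_nt.TA.Decouple
import Pool.Agent.Lib.MP_d57abb_nt.TA.PLB

/-!
# JOB Single: one product weight at one scale (about 150 lines; model: `Avg_fixed` in the finished file `TA/Avg`, steps (d) - (g) of its header)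

`μ v = g (mu1 v)`, `GM μ` (`GM_comp`), `γ = γ₀ + 4`, `j = i + (ρ - γ)`, `s = |PS (PP e ρ)|`, `NN = KT.NN W (PP e ρ)`, `W = primorial w`.  Put `ε₁ = ε / 4`.
`e₀`: the maximum of the `e₀` of `decouple` and of `model_cells` (with `ε₁`; `n` the maximum of the `n₀`, `n ≥ 1`; `GW.mono` gives `GW Wh (2^γ) B L` for `model_cells`, `ker_app`).  For `e ≥ e₀`: `δ, ρ₀` from `decouple`; `w ≥ 5` from `ker_app` (`5 ∣ primorial w`, `0 < primorial w`); `ρ₀` the maximum of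
all (`model_small_g` with `W = primorial w`).  For `i` large:
`(1/s) ∑_p p GP p = (1/s) ∑_p (p GP p - TC p) + [(1/s) ∑_p TC p - (1/|NN|) ∑_m TC m] + (1/|NN|) ∑_m (TC m - Bm m) + (1/|NN|) ∑_m Bm m`; the four terms are at most `ε₁ (1 + MI ρ / (δ 4^ρ))`, `ε₁`, `ε₁`, `ε₁` (if `s = 0` or `|NN| = 0` the corresponding terms vanish).  `MI ≥ 0` (`MI_nonneg`).
-/

namespace Pool.Agent.Lib.MP_d57abb_nt.AS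

open Finset Pool.Agent.Lib.MP_d57abb_nt Pool.Agent.Lib.MP_d57abb_nt.TA Pool.Agent.Lib.MP_d57abb_nt.TZ

private theorem Single_mean {ι : Type*} (S : Finset ι) (f : ι → ℂ) {ε : ℝ} (hε : 0 ≤ ε)
    (h : ‖∑ p ∈ S, f p‖ ≤ ε * S.card) : ‖(∑ p ∈ S, f p) / (S.card : ℂ)‖ ≤ ε := by
  rw [norm_div, Complex.norm_natCast]
  rcases Nat.eq_zero_or_pos S.card with h0 | h0
  · rw [h0, Nat.cast_zero, div_zero]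
    exact hε
  · rw [div_le_iff₀ (by exact_mod_cast h0)]
    exact h

private theorem Single_mean' {ι : Type*} (S : Finset ι) (f : ι → ℂ) {ε : ℝ} (hε : 0 ≤ ε)
    (h : ∀ p ∈ S, ‖f p‖ ≤ ε) : ‖(∑ p ∈ S, f p) / (S.card : ℂ)‖ ≤ ε := by
  refine Single_mean S f hε ?_
  refine (norm_sum_le _ _).trans ?_
  refine (Finset.sum_le_sum h).trans ?_
  rw [Finset.sum_const, nsmul_eq_mul, mul_comm]

private theorem Single_four {S NN : Finset ℕ} {F T Bb : ℕ → ℂ} {ε₁ M : ℝ}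
    (h1 : ‖(∑ p ∈ S, (F p - T p)) / (S.card : ℂ)‖ ≤ ε₁ * M)
    (h2 : ‖(∑ p ∈ S, T p) / (S.card : ℂ) - (∑ m ∈ NN, T m) / (NN.card : ℂ)‖ ≤ ε₁)
    (h3 : ‖(∑ m ∈ NN, (T m - Bb m)) / (NN.card : ℂ)‖ ≤ ε₁)
    (h4 : ‖(∑ m ∈ NN, Bb m) / (NN.card : ℂ)‖ ≤ ε₁) :
    ‖(∑ p ∈ S, F p) / (S.card : ℂ)‖ ≤ ε₁ * M + 3 * ε₁ := by
  have e : (∑ p ∈ S, F p) / (S.card : ℂ) = (∑ p ∈ S, (F p - T p)) / (S.card : ℂ) +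
      (((∑ p ∈ S, T p) / (S.card : ℂ) - (∑ m ∈ NN, T m) / (NN.card : ℂ)) +
      ((∑ m ∈ NN, (T m - Bb m)) / (NN.card : ℂ) + (∑ m ∈ NN, Bb m) / (NN.card : ℂ))) := by
    rw [Finset.sum_sub_distrib, Finset.sum_sub_distrib, sub_div, sub_div]
    ring
  rw [e]
  have m1 := norm_add_le ((∑ p ∈ S, (F p - T p)) / (S.card : ℂ))
    (((∑ p ∈ S, T p) / (S.card : ℂ) - (∑ m ∈ NN, T m) / (NN.card : ℂ)) +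
      ((∑ m ∈ NN, (T m - Bb m)) / (NN.card : ℂ) + (∑ m ∈ NN, Bb m) / (NN.card : ℂ)))
  have m2 := norm_add_le ((∑ p ∈ S, T p) / (S.card : ℂ) - (∑ m ∈ NN, T m) / (NN.card : ℂ))
    ((∑ m ∈ NN, (T m - Bb m)) / (NN.card : ℂ) + (∑ m ∈ NN, Bb m) / (NN.card : ℂ))
  have m3 := norm_add_le ((∑ m ∈ NN, (T m - Bb m)) / (NN.card : ℂ))
    ((∑ m ∈ NN, Bb m) / (NN.card : ℂ))
  linarith

theorem single {q : ℕ} (hq : 1 ≤ q) {z : ℂ} (hz : z ^ q = 1) (hz1 : z ≠ 1) {g : ℝ → ℝ} {Lg : ℝ}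
    (hg0 : ∀ x, 0 ≤ g x ∧ g x ≤ 1) (hgl : ∀ x y, |g x - g y| ≤ Lg * |x - y|)
    {Wh : ℝ → ℝ → ℝ} {γ₀ : ℕ} {B L : ℝ} (hB : 0 ≤ B) (hL : 0 ≤ L) (hW : GW Wh (2 ^ γ₀) B L)
    (hx : ∀ x y, Wh x y ≠ 0 → 1 / 2 ≤ x ∧ x ≤ 2) (hy : ∀ x y, Wh x y ≠ 0 → 1 / 2 ^ γ₀ ≤ y)
    {ε : ℝ} (hε : 0 < ε) :
    ∃ e₀ : ℕ, ∀ e : ℕ, e₀ ≤ e → ∃ δ : ℝ, 0 < δ ∧ ∃ ρ₀ : ℕ, ∀ ρ : ℕ, ρ₀ ≤ ρ → ∃ i₀ : ℕ, ∀ i : ℕ, i₀ ≤ i →
      ‖(∑ p ∈ PS (PP e ρ), (p : ℂ) * GP (fun v => g (mu1 v)) Wh z (γ₀ + 4) p (i + (ρ - (γ₀ + 4)))) /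
          ((PS (PP e ρ)).card : ℂ)‖ ≤ ε * (1 + MI q e ρ (2 ^ i) * ρ / (δ * 4 ^ ρ)) := by
  have hε₁ : 0 < ε / 4 := by positivity
  have hμ : GM (fun v => g (mu1 v)) := GM_comp hg0 hgl
  have hWγ : GW Wh (2 ^ (γ₀ + 4)) B L := hW.mono (pow_le_pow_right₀ (by norm_num) (by omega))
  obtain ⟨n₀, e₀, hdec⟩ := decouple hq hz hμ hB hL hW hx hε₁
  obtain ⟨n₁, e₁, hmod⟩ := model_cells hq hz hμ (γ := γ₀ + 4) (by omega) hB hL hWγ hε₁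
  obtain ⟨n, hn⟩ : ∃ n, n = n₀ + n₁ + 1 := ⟨_, rfl⟩
  refine ⟨e₀ + e₁, fun e he => ?_⟩
  obtain ⟨δ, hδ, ρ₀, hρ₀⟩ := hdec n (by omega) e (by omega)
  obtain ⟨ρ₁, hρ₁⟩ := hmod n (by omega) e (by omega)
  obtain ⟨w₀, hw₀⟩ := ker_app hq hz hμ hB hL hWγ (n := n) (by omega) e hε₁
  obtain ⟨ρ₂, hρ₂⟩ := hw₀ (w₀ + 5) (by omega)
  have h5 : 5 ∣ primorial (w₀ + 5) := KT.five_dvd_primorial _ (by omega)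
  obtain ⟨ρ₃, hρ₃⟩ := model_small_g hq hz hz1 hg0 hgl hB hL hW hx hy (γ := γ₀ + 4) le_rfl
    (primorial_pos (w₀ + 5)) h5 e hε₁
  refine ⟨δ, hδ, ρ₀ + ρ₁ + ρ₂ + ρ₃, fun ρ hρ => ?_⟩
  obtain ⟨i₀, hi₀⟩ := hρ₀ ρ (by omega)
  obtain ⟨i₁, hi₁⟩ := hρ₁ ρ (by omega)
  have hker := hρ₂ ρ (by omega)
  obtain ⟨j₁, hj₁⟩ := hρ₃ ρ (by omega)
  refine ⟨i₀ + i₁ + j₁, fun i hi => ?_⟩
  have hM := MI_nonneg q e ρ (2 ^ i)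
  have hM' : 0 ≤ MI q e ρ (2 ^ i) * ρ / (δ * 4 ^ ρ) := by positivity
  have h1 := Single_mean (PS (PP e ρ)) (fun p => (p : ℂ) * GP (fun v => g (mu1 v)) Wh z (γ₀ + 4) p
    (i + (ρ - (γ₀ + 4))) - TC (fun v => g (mu1 v)) Wh z n (n * 2 ^ ρ) (2 ^ i)
      (i + (ρ - (γ₀ + 4))) p) (ε := ε / 4 * (1 + MI q e ρ (2 ^ i) * ρ / (δ * 4 ^ ρ)))
    (by positivity) (hi₀ i (by omega))
  have h3 := Single_mean' (KT.NN (primorial (w₀ + 5)) (PP e ρ)) (fun m =>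
    TC (fun v => g (mu1 v)) Wh z n (n * 2 ^ ρ) (2 ^ i) (i + (ρ - (γ₀ + 4))) m -
      Bm (fun v => g (mu1 v)) Wh z (γ₀ + 4) (i + (ρ - (γ₀ + 4))) m) hε₁.le (by
    intro m hm
    have hm' : 1 ≤ m ∧ m ≤ PP e ρ := by
      rw [KT.NN, mem_filter, mem_Ioc] at hm
      exact ⟨by omega, hm.1.2⟩
    exact hi₁ i (by omega) m hm'.1 hm'.2)
  have h4 := Single_mean (KT.NN (primorial (w₀ + 5)) (PP e ρ)) (fun m =>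
    Bm (fun v => g (mu1 v)) Wh z (γ₀ + 4) (i + (ρ - (γ₀ + 4))) m) hε₁.le
    (hj₁ _ (by omega))
  have h6 := Single_four h1 (hker i) h3 h4
  refine h6.trans ?_
  have h7 : ε / 4 * (1 + MI q e ρ (2 ^ i) * ρ / (δ * 4 ^ ρ)) + 3 * (ε / 4) =
      ε * (1 + MI q e ρ (2 ^ i) * ρ / (δ * 4 ^ ρ)) -
        3 / 4 * (ε * (MI q e ρ (2 ^ i) * ρ / (δ * 4 ^ ρ))) := by ring
  rw [h7]
  have h8 : 0 ≤ ε * (MI q e ρ (2 ^ i) * ρ / (δ * 4 ^ ρ)) := mul_nonneg hε.le hM'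
  linarith

end Pool.Agent.Lib.MP_d57abb_nt.AS
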