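import Pool.Agent.Lib.MP_d57abb_nt.AS.Mass
import Pool.Agent.Lib.MP_d57abb_nt.AS.NlA

/-!
# JOB Tel: unfolding the local averages (about 250 lines)

Let `f Y u = Sm ψ z (Y / u) * (u / Y)`, `Y ≥ 1` (or `Y > 0`).  `‖f Y u‖ ≤ C` for `0 < u ≤ 1` (`norm_Sm`, `TT_le`); `f Y` is measurable (`Sm ψ z` is a measurable function: composition of `⌊ ⌋₊` with a function on `ℕ`; or monotone parts), so interval integrable on every interval contained in `[0, 1]`.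
(1) `int_scale`: for `λ > 0`: `∫ u in 0..1/λ, f Y u = (1/λ) RR ψ z (λ Y)`: substitution `u = v / λ` (`intervalIntegral.integral_comp_div` or `integral_comp_mul_left`): `f Y (v / λ) = Sm (λ Y / v) v / (λ Y) = f (λ Y) v`.
(2) `RR Y = QQ Y + (1/2) RR (2 Y)` (`∫_0^1 = ∫_0^{1/2} + ∫_{1/2}^1`, (1) with `λ = 2`).  `‖RR Y‖ ≤ C`.  By induction `‖RR Y‖ ≤ ∑_{n < m} 2^(-n) ‖QQ (2^n Y)‖ + 2^(-m) C`.  `Nl` of each term (`Nl.scale` with `t = 2` iterated), `Nl.sum`, `Nl.lim`: `Nl ‖RR‖`.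
(3) `0 < η ≤ 1`, `λ = 1 + η`: `∫ u in 1/λ..1, f Y u = RR Y - (1/λ) RR (λ Y)`.  For `1/λ ≤ u ≤ 1`: `‖Sm (Y / u) - Sm Y‖ ≤ TT (Y / u) - TT Y ≤ TT (λ Y) - TT Y` (`Sm_diff`, `TT_mono`).  With `I = ∫_{1/λ}^1 u du = (1 - 1/λ²) / 2 ≥ η / 4` (`1 - 1/λ² = η (2 + η)/(1 + η)² ≥ η/2`..):
`(‖Sm Y‖ / Y) I ≤ ‖RR Y‖ + ‖RR (λ Y)‖ + ((TT (λ Y) - TT Y) / Y) I`, so `‖Sm Y‖ / Y ≤ (4/η) (‖RR Y‖ + ‖RR (λ Y)‖) + (TT (λ Y) - TT Y) / Y`.
-/

namespace Pool.Agent.Lib.MP_d57abb_nt.AS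

open Finset Pool.Agent.Lib.MP_d57abb_nt Pool.Agent.Lib.MP_d57abb_nt.TA Pool.Agent.Lib.MP_d57abb_nt.TZ

private theorem Tel_meas (ψ : ℝ → ℝ) (z : ℂ) (Y : ℝ) :
    Measurable (fun u : ℝ => Sm ψ z (Y / u) * ((u / Y : ℝ) : ℂ)) := by
  have h1 : Measurable (Sm ψ z) := by
    have h2 : Sm ψ z = (fun n : ℕ => ∑ k ∈ Icc 1 n, (tp ψ k : ℂ) * z ^ om k) ∘ Nat.floor := rfl
    rw [h2]
    exact (measurable_from_nat).comp Nat.measurable_floor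
  refine Measurable.mul (h1.comp (measurable_const.div measurable_id)) ?_
  exact Complex.measurable_ofReal.comp (measurable_id.div_const Y)

private theorem Tel_bdd {ψ : ℝ → ℝ} {k : ℕ} {L : ℝ} (hψ : PW ψ k L) {z : ℂ} (hz : ‖z‖ = 1)
    {C : ℝ} (hC0 : 0 ≤ C) (hC : ∀ Y : ℝ, 0 ≤ Y → TT ψ Y ≤ C * Y) {Y u : ℝ} (hY : 0 < Y)
    (hu : 0 ≤ u) : ‖Sm ψ z (Y / u) * ((u / Y : ℝ) : ℂ)‖ ≤ C := by
  rw [norm_mul, Complex.norm_real, Real.norm_eq_abs, abs_of_nonneg (by positivity)]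
  rcases hu.eq_or_lt with h0 | h0
  · rw [← h0, zero_div, mul_zero]
    exact hC0
  · have h1 : ‖Sm ψ z (Y / u)‖ ≤ C * (Y / u) := (norm_Sm hψ hz _).trans (hC _ (by positivity))
    calc ‖Sm ψ z (Y / u)‖ * (u / Y) ≤ C * (Y / u) * (u / Y) :=
          mul_le_mul_of_nonneg_right h1 (by positivity)
      _ = C := by field_simp

private theorem Tel_int {ψ : ℝ → ℝ} {k : ℕ} {L : ℝ} (hψ : PW ψ k L) {z : ℂ} (hz : ‖z‖ = 1)
    {C : ℝ} (hC0 : 0 ≤ C) (hC : ∀ Y : ℝ, 0 ≤ Y → TT ψ Y ≤ C * Y) {Y a b : ℝ} (hY : 0 < Y)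
    (ha : 0 ≤ a) (hb : 0 ≤ b) : IntervalIntegrable
      (fun u : ℝ => Sm ψ z (Y / u) * ((u / Y : ℝ) : ℂ)) MeasureTheory.volume a b := by
  refine (intervalIntegrable_const (c := C)).mono_fun' (Tel_meas ψ z Y).aestronglyMeasurable ?_
  refine MeasureTheory.ae_restrict_of_forall_mem measurableSet_uIoc fun u hu => ?_
  refine Tel_bdd hψ hz hC0 hC hY ?_
  rw [Set.mem_uIoc] at hu
  rcases hu with h | h <;> linarith [h.1]

private theorem Tel_scale (ψ : ℝ → ℝ) (z : ℂ) {Y l : ℝ} (hl : 0 < l) :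
    ∫ u in (0 : ℝ)..1 / l, Sm ψ z (Y / u) * ((u / Y : ℝ) : ℂ) =
      ((1 / l : ℝ) : ℂ) * RR ψ z (l * Y) := by
  have h1 := intervalIntegral.integral_comp_div (a := 0) (b := 1)
    (fun u : ℝ => Sm ψ z (Y / u) * ((u / Y : ℝ) : ℂ)) hl.ne'
  have h2 : ∀ v : ℝ, Sm ψ z (Y / (v / l)) * ((v / l / Y : ℝ) : ℂ) =
      Sm ψ z (l * Y / v) * ((v / (l * Y) : ℝ) : ℂ) := by
    intro v
    rw [div_div_eq_mul_div, mul_comm Y l, div_div]
  rw [zero_div] at h1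
  have h3 : RR ψ z (l * Y) = l • ∫ u in (0 : ℝ)..1 / l, Sm ψ z (Y / u) * ((u / Y : ℝ) : ℂ) := by
    rw [← h1]
    unfold RR
    refine intervalIntegral.integral_congr fun v _ => ?_
    exact (h2 v).symm
  rw [h3, Complex.real_smul, ← mul_assoc, ← Complex.ofReal_mul]
  have h4 : 1 / l * l = 1 := by field_simp
  rw [h4, Complex.ofReal_one, one_mul]

private theorem Tel_RR_bdd {ψ : ℝ → ℝ} {k : ℕ} {L : ℝ} (hψ : PW ψ k L) {z : ℂ} (hz : ‖z‖ = 1)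
    {C : ℝ} (hC0 : 0 ≤ C) (hC : ∀ Y : ℝ, 0 ≤ Y → TT ψ Y ≤ C * Y) {Y : ℝ} (hY : 0 < Y) :
    ‖RR ψ z Y‖ ≤ C := by
  have h1 := intervalIntegral.norm_integral_le_of_norm_le_const (a := 0) (b := 1)
    (f := fun u : ℝ => Sm ψ z (Y / u) * ((u / Y : ℝ) : ℂ)) (C := C) (fun u hu => by
      rw [Set.uIoc_of_le zero_le_one] at hu
      exact Tel_bdd hψ hz hC0 hC hY hu.1.le)
  rw [sub_zero, abs_one, mul_one] at h1
  exact h1

private theorem Tel_split {ψ : ℝ → ℝ} {k : ℕ} {L : ℝ} (hψ : PW ψ k L) {z : ℂ} (hz : ‖z‖ = 1)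
    {C : ℝ} (hC0 : 0 ≤ C) (hC : ∀ Y : ℝ, 0 ≤ Y → TT ψ Y ≤ C * Y) {Y l : ℝ} (hY : 0 < Y)
    (hl : 0 < l) : ∫ u in (1 / l)..1, Sm ψ z (Y / u) * ((u / Y : ℝ) : ℂ) =
      RR ψ z Y - ((1 / l : ℝ) : ℂ) * RR ψ z (l * Y) := by
  rw [← Tel_scale ψ z hl, eq_sub_iff_add_eq, add_comm]
  exact intervalIntegral.integral_add_adjacent_intervals
    (Tel_int hψ hz hC0 hC hY le_rfl (by positivity))
    (Tel_int hψ hz hC0 hC hY (by positivity) zero_le_one)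

private theorem Tel_rec {ψ : ℝ → ℝ} {k : ℕ} {L : ℝ} (hψ : PW ψ k L) {z : ℂ} (hz : ‖z‖ = 1)
    {C : ℝ} (hC0 : 0 ≤ C) (hC : ∀ Y : ℝ, 0 ≤ Y → TT ψ Y ≤ C * Y) (m : ℕ) :
    ∀ Y : ℝ, 0 < Y → ‖RR ψ z Y‖ ≤ ∑ n ∈ range m, ‖QQ ψ z (2 ^ n * Y)‖ + C / 2 ^ m := by
  induction m with
  | zero =>
    intro Y hY
    rw [sum_range_zero, pow_zero, div_one, zero_add]
    exact Tel_RR_bdd hψ hz hC0 hC hY
  | succ m ih =>
    intro Y hY
    have h1 := Tel_split hψ hz hC0 hC hY (l := 2) two_pos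
    have h2 : RR ψ z Y = QQ ψ z Y + ((1 / 2 : ℝ) : ℂ) * RR ψ z (2 * Y) := by
      unfold QQ
      rw [h1]
      ring
    have h3 := ih (2 * Y) (by linarith)
    rw [h2, sum_range_succ']
    have h4 : ∀ n : ℕ, (2 : ℝ) ^ (n + 1) * Y = 2 ^ n * (2 * Y) := fun n => by ring
    rw [sum_congr rfl fun n _ => by rw [h4 n], pow_zero, one_mul]
    have h5 : ‖((1 / 2 : ℝ) : ℂ) * RR ψ z (2 * Y)‖ = 1 / 2 * ‖RR ψ z (2 * Y)‖ := by
      rw [norm_mul, Complex.norm_real, Real.norm_eq_abs, abs_of_nonneg (by norm_num)]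
    have h6 : 0 ≤ ∑ n ∈ range m, ‖QQ ψ z (2 ^ n * (2 * Y))‖ := sum_nonneg fun _ _ => norm_nonneg _
    have h7 : C / 2 ^ (m + 1) = 1 / 2 * (C / 2 ^ m) := by
      rw [pow_succ]
      field_simp
    rw [h7]
    have h8 := norm_add_le (QQ ψ z Y) (((1 / 2 : ℝ) : ℂ) * RR ψ z (2 * Y))
    rw [h5] at h8
    linarith

private theorem Tel_NlR {ψ : ℝ → ℝ} {k : ℕ} {L : ℝ} (hψ : PW ψ k L) {z : ℂ} (hz : ‖z‖ = 1)
    (hQ : Nl (fun Y => ‖QQ ψ z Y‖)) : Nl (fun Y => ‖RR ψ z Y‖) := by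
  obtain ⟨C, hC0, hC⟩ := TT_le hψ
  have h1 : ∀ n : ℕ, Nl (fun Y => ‖QQ ψ z (2 ^ n * Y)‖) := by
    intro n
    induction n with
    | zero => exact hQ.mono fun Y _ => by rw [pow_zero, one_mul]
    | succ n ih =>
      refine (ih.scale (t := 2) (by norm_num) (by norm_num)).mono fun Y _ => le_of_eq ?_
      show ‖QQ ψ z (2 ^ (n + 1) * Y)‖ = ‖QQ ψ z (2 ^ n * (2 * Y))‖
      rw [pow_succ, mul_assoc]
  refine Nl.lim fun ε hε => ?_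
  obtain ⟨m, hm⟩ : ∃ m : ℕ, C / 2 ^ m < ε := by
    obtain ⟨m, hm⟩ := pow_unbounded_of_one_lt (C / ε) (one_lt_two (α := ℝ))
    refine ⟨m, ?_⟩
    rw [div_lt_iff₀ hε] at hm
    rw [div_lt_iff₀ (by positivity)]
    linarith
  refine ⟨fun Y => ∑ n ∈ range m, ‖QQ ψ z (2 ^ n * Y)‖, Nl.sum _ fun n _ => h1 n, fun Y hY => ?_⟩
  have h2 := Tel_rec hψ hz hC0 hC m Y (by linarith)
  linarith

theorem tel {ψ : ℝ → ℝ} {k : ℕ} {L : ℝ} (hψ : PW ψ k L) {z : ℂ} (hz : ‖z‖ = 1)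
    (hQ : Nl (fun Y => ‖QQ ψ z Y‖)) {η : ℝ} (h0 : 0 < η) (h1 : η ≤ 1) :
    ∃ F : ℝ → ℝ, Nl F ∧ ∀ Y : ℝ, 1 ≤ Y → ‖Sm ψ z Y‖ / Y ≤ F Y + (TT ψ ((1 + η) * Y) - TT ψ Y) / Y := by
  obtain ⟨C, hC0, hC⟩ := TT_le hψ
  have hR := Tel_NlR hψ hz hQ
  have hl0 : (0 : ℝ) < 1 + η := by linarith
  refine ⟨fun Y => 4 / η * (‖RR ψ z Y‖ + ‖RR ψ z ((1 + η) * Y)‖),
    (hR.add (hR.scale (t := 1 + η) (by linarith) (by linarith))).smul (by positivity), ?_⟩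
  intro Y hY
  have hY0 : (0 : ℝ) < Y := by linarith
  have h2 := Tel_split hψ hz hC0 hC hY0 hl0
  have hl1 : 1 / (1 + η) ≤ 1 := by
    rw [div_le_one hl0]
    linarith
  have hlp : 0 < 1 / (1 + η) := by positivity
  -- the integral of `u`
  have hI : ∫ u in (1 / (1 + η))..1, u = (1 - (1 / (1 + η)) ^ 2) / 2 := by
    rw [integral_id]
    norm_num
  have hI' : η / 4 ≤ (1 - (1 / (1 + η)) ^ 2) / 2 := by
    have h3 : (1 - (1 / (1 + η)) ^ 2) / 2 = η * (2 + η) / (2 * (1 + η) ^ 2) := by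
      field_simp
      ring
    rw [h3, div_le_div_iff₀ (by norm_num) (by positivity)]
    nlinarith [mul_nonneg h0.le h0.le, mul_nonneg (mul_nonneg h0.le h0.le) h0.le,
      mul_nonneg h0.le (sub_nonneg.mpr h1), mul_nonneg (mul_nonneg h0.le h0.le) (sub_nonneg.mpr h1)]
  generalize hJ : (1 - (1 / (1 + η)) ^ 2) / 2 = J at hI hI'
  have hJ0 : 0 < J := by linarith
  have hint0 : IntervalIntegrable (fun u : ℝ => Sm ψ z Y * ((u / Y : ℝ) : ℂ))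
      MeasureTheory.volume (1 / (1 + η)) 1 := by
    refine Continuous.intervalIntegrable ?_ _ _
    exact continuous_const.mul (Complex.continuous_ofReal.comp (continuous_id.div_const Y))
  have hint1 := Tel_int hψ hz hC0 hC hY0 hlp.le (zero_le_one (α := ℝ))
  have h4 : ∫ u in (1 / (1 + η))..1, Sm ψ z Y * ((u / Y : ℝ) : ℂ) =
      Sm ψ z Y * ((J / Y : ℝ) : ℂ) := by
    rw [intervalIntegral.integral_const_mul]
    congr 1
    have h5 : ∫ u in (1 / (1 + η))..1, ((u / Y : ℝ) : ℂ) =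
        ((∫ u in (1 / (1 + η))..1, u / Y : ℝ) : ℂ) := intervalIntegral.integral_ofReal
    rw [h5, intervalIntegral.integral_div, hI]
  have h6 : ‖∫ u in (1 / (1 + η))..1, (Sm ψ z (Y / u) * ((u / Y : ℝ) : ℂ) -
      Sm ψ z Y * ((u / Y : ℝ) : ℂ))‖ ≤ (TT ψ ((1 + η) * Y) - TT ψ Y) * (J / Y) := by
    have h7 : (TT ψ ((1 + η) * Y) - TT ψ Y) * (J / Y) =
        ∫ u in (1 / (1 + η))..1, (TT ψ ((1 + η) * Y) - TT ψ Y) * (u / Y) := by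
      rw [intervalIntegral.integral_const_mul, intervalIntegral.integral_div, hI]
    rw [h7]
    refine intervalIntegral.norm_integral_le_of_norm_le hl1
      (Filter.Eventually.of_forall fun u hu => ?_) ?_
    · have hu0 : 0 < u := hlp.trans hu.1
      rw [← sub_mul, norm_mul, Complex.norm_real, Real.norm_eq_abs,
        abs_of_nonneg (by positivity)]
      refine mul_le_mul_of_nonneg_right ?_ (by positivity)
      have h8 : Y ≤ Y / u := by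
        rw [le_div_iff₀ hu0]
        nlinarith [hu.2]
      have h9 : Y / u ≤ (1 + η) * Y := by
        rw [div_le_iff₀ hu0]
        have h10 : 1 / (1 + η) ≤ u := hu.1.le
        rw [div_le_iff₀ hl0] at h10
        nlinarith
      have h11 := Sm_diff hψ hz h8
      have h12 := TT_mono hψ h9
      linarith
    · refine Continuous.intervalIntegrable ?_ _ _
      exact continuous_const.mul (continuous_id.div_const Y)
  rw [intervalIntegral.integral_sub hint1 hint0, h2, h4] at h6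
  have h13 : ‖Sm ψ z Y * ((J / Y : ℝ) : ℂ)‖ = ‖Sm ψ z Y‖ * (J / Y) := by
    rw [norm_mul, Complex.norm_real, Real.norm_eq_abs, abs_of_nonneg (by positivity)]
  have h14 : ‖((1 / (1 + η) : ℝ) : ℂ) * RR ψ z ((1 + η) * Y)‖ ≤ ‖RR ψ z ((1 + η) * Y)‖ := by
    rw [norm_mul, Complex.norm_real, Real.norm_eq_abs, abs_of_nonneg hlp.le]
    exact mul_le_of_le_one_left (norm_nonneg _) hl1
  have h15 : ‖Sm ψ z Y‖ * (J / Y) ≤ ‖RR ψ z Y‖ + ‖RR ψ z ((1 + η) * Y)‖ +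
      (TT ψ ((1 + η) * Y) - TT ψ Y) * (J / Y) := by
    rw [← h13]
    have h16 : Sm ψ z Y * ((J / Y : ℝ) : ℂ) =
        (RR ψ z Y - ((1 / (1 + η) : ℝ) : ℂ) * RR ψ z ((1 + η) * Y)) -
        (RR ψ z Y - ((1 / (1 + η) : ℝ) : ℂ) * RR ψ z ((1 + η) * Y) -
          Sm ψ z Y * ((J / Y : ℝ) : ℂ)) := by ring
    rw [h16]
    refine (norm_sub_le _ _).trans ?_
    have h17 := norm_sub_le (RR ψ z Y) (((1 / (1 + η) : ℝ) : ℂ) * RR ψ z ((1 + η) * Y))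
    linarith
  have hs : 0 ≤ ‖RR ψ z Y‖ + ‖RR ψ z ((1 + η) * Y)‖ := by positivity
  have h18 : ‖Sm ψ z Y‖ / Y * J ≤ (4 / η * (‖RR ψ z Y‖ + ‖RR ψ z ((1 + η) * Y)‖) +
      (TT ψ ((1 + η) * Y) - TT ψ Y) / Y) * J := by
    have h19 : ‖RR ψ z Y‖ + ‖RR ψ z ((1 + η) * Y)‖ ≤
        4 / η * (‖RR ψ z Y‖ + ‖RR ψ z ((1 + η) * Y)‖) * J := by
      have h20 : 1 ≤ 4 / η * J := by
        rw [div_mul_eq_mul_div, le_div_iff₀ h0]
        linarith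
      nlinarith
    calc ‖Sm ψ z Y‖ / Y * J = ‖Sm ψ z Y‖ * (J / Y) := by ring
      _ ≤ _ := h15
      _ ≤ 4 / η * (‖RR ψ z Y‖ + ‖RR ψ z ((1 + η) * Y)‖) * J +
          (TT ψ ((1 + η) * Y) - TT ψ Y) * (J / Y) := by linarith
      _ = _ := by ring
  exact le_of_mul_le_mul_right h18 hJ0

end Pool.Agent.Lib.MP_d57abb_nt.AS
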