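import Pool.Agent.Lib.MP_d57abb_nt.AS.Trap
import Pool.Agent.Lib.MP_d57abb_nt.AS.Tel
import Pool.Agent.Lib.MP_d57abb_nt.AS.Dens

/-!
# Almost all scales, smooth divisor weights
-/

namespace Pool.Agent.Lib.MP_d57abb_nt.AS

open Finset Pool.Agent.Lib.MP_d57abb_nt Pool.Agent.Lib.MP_d57abb_nt.TA Pool.Agent.Lib.MP_d57abb_nt.TZ

theorem smooth {q : ℕ} (hq : 1 ≤ q) {z : ℂ} (hz : z ^ q = 1) (hz1 : z ≠ 1) {ψ : ℝ → ℝ} {k : ℕ} {L : ℝ}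
    (hψ : PW ψ k L) {ε : ℝ} (hε : 0 < ε) : LN (fun X => ε < ‖Sm ψ z X‖ / X) := by
  have hn : ‖z‖ = 1 := Complex.norm_eq_one_of_pow_eq_one hz (by omega)
  exact dens hψ (G := fun Y => ‖Sm ψ z Y‖ / Y)
    (fun η h0 h1 => tel hψ hn (Nl_QQ hq hz hz1 hψ) h0 h1) hε

end Pool.Agent.Lib.MP_d57abb_nt.AS
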