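import Pool.Agent.Lib.MP_d57abb_nt.AS.Net

/-!
# JOB Trap: from smooth to natural averages (about 220 lines)

`0 < η ≤ 1/4`, `φ x = max 0 (min x (min (2 (x - η)) ((1 - x) / η)))`: `PW φ a (2 + 1/η)` with `2^(-a) ≤ η`; `φ x = x` on `[2 η, 1 - η]`, `φ = 0` for `x ≤ η` and for `x ≥ 1`, `0 ≤ φ x ≤ x` for `x ≥ 0`, `φ ≤ 1`.
(1) `ptw`: for `Y ≥ 1`: `‖SK a φ ψ z Y - Sm ψ z Y * (1 / Y)‖ ≤ TT ψ (2 η Y) / Y + (2 / Y) ∑_{k ≤ Y, k ≥ (1 - η) Y} tp ψ k`: the term of `k` is `(φ (k / Y) - [k ≤ Y] k / Y) (1/k) tp z^om`; it vanishes for `2 η Y ≤ k ≤ (1 - η) Y` and for `k > Y`; for `k ≤ 2 η Y` it is at most `tp / Y`, for `(1 - η) Y ≤ k ≤ Y` at most `tp / k ≤ 2 tp / Y`.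
(2) Integrate over `u ∈ [1/2, 1]` with `Y / u` in place of `Y`: `‖MK a φ ψ z Y - QQ ψ z Y‖ ≤ C η + (2 / Y) ∑_{k ≤ 2 Y} tp ψ k * |{u ∈ [1/2, 1] : (1 - η) Y / u ≤ k ≤ Y / u}|` (`TT_le`: `TT (2 η Y / u) u / Y ≤ 2 η C`); the set of `u` is contained in the interval `[(1 - η) Y / k, Y / k]`, of length `η Y / k`, and is empty unless
`k ≥ (1 - η) Y ≥ Y / 2`: so the length is at most `2 η`.  Total `≤ C η + (4 η / Y) TT (2 Y) ≤ C' η`, `C' = 9 C`.
(Integrability: everything is a finite sum over `k ≤ 2 Y` of functions `c [k ≤ Y / u] u` or continuous functions of `u`: `[k ≤ Y/u]` is the indicator of `u ≤ Y / k`; bounded and measurable on a bounded interval.)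
(3) `Nl.lim`: `‖QQ Y‖ ≤ ‖MK a φ ψ z Y‖ + C' η`, `Nl_MK`.
-/

namespace Pool.Agent.Lib.MP_d57abb_nt.AS

open Finset Pool.Agent.Lib.MP_d57abb_nt Pool.Agent.Lib.MP_d57abb_nt.TA Pool.Agent.Lib.MP_d57abb_nt.TZ

private theorem Trap_PW {η : ℝ} (h0 : 0 < η) {a : ℕ} (ha : 1 / 2 ^ a ≤ η) :
    PW (fun x => max 0 (min x (min (2 * (x - η)) ((1 - x) / η)))) a (2 + 1 / η) := by
  have hpos : ∀ x : ℝ, max 0 (min x (min (2 * (x - η)) ((1 - x) / η))) ≠ 0 → η < x ∧ x < 1 := by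
    intro x hx
    have h1 : 0 < min x (min (2 * (x - η)) ((1 - x) / η)) := by
      by_contra hc
      rw [not_lt] at hc
      exact hx (max_eq_left hc)
    have h2 := (lt_min_iff.mp h1).2
    obtain ⟨h3, h4⟩ := lt_min_iff.mp h2
    refine ⟨by linarith, ?_⟩
    by_contra hc
    rw [not_lt] at hc
    have h5 : (1 - x) / η ≤ 0 := div_nonpos_of_nonpos_of_nonneg (by linarith) h0.le
    linarith
  refine ⟨fun x => le_max_left _ _, ?_, ?_, ?_⟩
  · intro x
    by_cases hx : max 0 (min x (min (2 * (x - η)) ((1 - x) / η))) = 0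
    · show max 0 (min x (min (2 * (x - η)) ((1 - x) / η))) ≤ 1
      rw [hx]
      exact zero_le_one
    · obtain ⟨_, h2⟩ := hpos x hx
      exact max_le zero_le_one ((min_le_left _ _).trans h2.le)
  · intro x hx
    obtain ⟨h1, h2⟩ := hpos x hx
    exact ⟨by linarith, by linarith [one_le_pow₀ (M₀ := ℝ) (a := 2) (n := a) (by norm_num)]⟩
  · intro x y
    have hη : 0 ≤ 1 / η := by positivity
    have h1 := abs_max_sub_max_le_max 0 (min x (min (2 * (x - η)) ((1 - x) / η)))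
      0 (min y (min (2 * (y - η)) ((1 - y) / η)))
    have h2 := abs_min_sub_min_le_max x (min (2 * (x - η)) ((1 - x) / η))
      y (min (2 * (y - η)) ((1 - y) / η))
    have h3 := abs_min_sub_min_le_max (2 * (x - η)) ((1 - x) / η) (2 * (y - η)) ((1 - y) / η)
    have h4 : |2 * (x - η) - 2 * (y - η)| = 2 * |x - y| := by
      have h5 : 2 * (x - η) - 2 * (y - η) = 2 * (x - y) := by ring
      rw [h5, abs_mul, abs_of_nonneg (by norm_num : (0 : ℝ) ≤ 2)]
    have h6 : |(1 - x) / η - (1 - y) / η| = 1 / η * |x - y| := by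
      have h7 : (1 - x) / η - (1 - y) / η = -(1 / η * (x - y)) := by ring
      rw [h7, abs_neg, abs_mul, abs_of_nonneg hη]
    have hxy := abs_nonneg (x - y)
    have hm := mul_nonneg hη hxy
    rw [h4, h6] at h3
    rw [sub_self, abs_zero] at h1
    refine h1.trans (max_le (by nlinarith) (h2.trans (max_le (by nlinarith) (h3.trans
      (max_le (by nlinarith) (by nlinarith))))))

private theorem Trap_phi {η x : ℝ} (h0 : 0 < η) (hx : 0 ≤ x) :
    |max 0 (min x (min (2 * (x - η)) ((1 - x) / η))) - (if x ≤ 1 then x else 0)| ≤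
      (if x ≤ 2 * η then x else 0) + (if 1 - η ≤ x ∧ x ≤ 1 then 1 else 0) := by
  have hnn : (0 : ℝ) ≤ (if 1 - η ≤ x ∧ x ≤ 1 then 1 else 0) := by split_ifs <;> norm_num
  have hnn2 : (0 : ℝ) ≤ (if x ≤ 2 * η then x else 0) := by split_ifs <;> linarith
  have hm0 : 0 ≤ max 0 (min x (min (2 * (x - η)) ((1 - x) / η))) := le_max_left _ _
  have hmx : max 0 (min x (min (2 * (x - η)) ((1 - x) / η))) ≤ x :=
    max_le hx (min_le_left _ _)
  by_cases h1 : x ≤ 1
  · rw [if_pos h1]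
    by_cases h2 : x ≤ 2 * η
    · rw [if_pos h2, abs_le]
      constructor <;> linarith
    · by_cases h3 : 1 - η ≤ x
      · rw [if_pos (⟨h3, h1⟩ : 1 - η ≤ x ∧ x ≤ 1), abs_le]
        constructor <;> linarith
      · rw [not_le] at h2 h3
        have h4 : x ≤ 2 * (x - η) := by linarith
        have h5 : x ≤ (1 - x) / η := by
          rw [le_div_iff₀ h0]
          nlinarith
        rw [min_eq_left (le_min h4 h5), max_eq_right hx, sub_self, abs_zero]
        linarith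
  · rw [if_neg h1]
    rw [not_le] at h1
    have h5 : (1 - x) / η ≤ 0 := div_nonpos_of_nonpos_of_nonneg (by linarith) h0.le
    rw [max_eq_left ((min_le_right _ _).trans ((min_le_right _ _).trans h5)), sub_zero, abs_zero]
    linarith

private theorem Trap_meas (ψ : ℝ → ℝ) (z : ℂ) (Y : ℝ) :
    Measurable (fun u : ℝ => Sm ψ z (Y / u) * ((u / Y : ℝ) : ℂ)) := by
  have h1 : Measurable (Sm ψ z) := by
    have h2 : Sm ψ z = (fun n : ℕ => ∑ k ∈ Icc 1 n, (tp ψ k : ℂ) * z ^ om k) ∘ Nat.floor := rfl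
    rw [h2]
    exact (measurable_from_nat).comp Nat.measurable_floor
  refine Measurable.mul (h1.comp (measurable_const.div measurable_id)) ?_
  exact Complex.measurable_ofReal.comp (measurable_id.div_const Y)

private theorem Trap_intG {ψ : ℝ → ℝ} {k : ℕ} {L : ℝ} (hψ : PW ψ k L) {z : ℂ} (hz : ‖z‖ = 1)
    {C : ℝ} (hC : ∀ Y : ℝ, 0 ≤ Y → TT ψ Y ≤ C * Y) {Y : ℝ} (hY : 0 < Y) : IntervalIntegrable
      (fun u : ℝ => Sm ψ z (Y / u) * ((u / Y : ℝ) : ℂ)) MeasureTheory.volume (1 / 2) 1 := by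
  refine (intervalIntegrable_const (c := C)).mono_fun' (Trap_meas ψ z Y).aestronglyMeasurable ?_
  refine MeasureTheory.ae_restrict_of_forall_mem measurableSet_uIoc fun u hu => ?_
  rw [Set.uIoc_of_le (by norm_num)] at hu
  have hu0 : 0 < u := by linarith [hu.1]
  show ‖Sm ψ z (Y / u) * ((u / Y : ℝ) : ℂ)‖ ≤ C
  rw [norm_mul, Complex.norm_real, Real.norm_eq_abs, abs_of_nonneg (by positivity)]
  have h1 : ‖Sm ψ z (Y / u)‖ ≤ C * (Y / u) := (norm_Sm hψ hz _).trans (hC _ (by positivity))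
  calc ‖Sm ψ z (Y / u)‖ * (u / Y) ≤ C * (Y / u) * (u / Y) :=
        mul_le_mul_of_nonneg_right h1 (by positivity)
    _ = C := by field_simp

/-- the sum of the masses below a bound -/
private theorem Trap_TT {ψ : ℝ → ℝ} {k : ℕ} {L : ℝ} (hψ : PW ψ k L) (K : ℕ) {T : ℝ}
    (hT : 0 ≤ T) : ∑ n ∈ Icc 1 K, (if (n : ℝ) ≤ T then tp ψ n else 0) ≤ TT ψ T := by
  rw [← sum_filter]
  unfold TT
  refine sum_le_sum_of_subset_of_nonneg ?_ fun n _ _ => tp_nonneg hψ n
  intro n hn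
  obtain ⟨h1, h2⟩ := mem_filter.mp hn
  exact mem_Icc.mpr ⟨(mem_Icc.mp h1).1, Nat.le_floor h2⟩

private theorem Trap_ind (α β : ℝ) (h : α ≤ β) :
    ∫ u in (1 / 2 : ℝ)..1, (Set.Icc α β).indicator (fun _ => (1 : ℝ)) u ≤ β - α := by
  rw [intervalIntegral.integral_of_le (by norm_num)]
  have hI : MeasureTheory.Integrable ((Set.Icc α β).indicator (fun _ => (1 : ℝ))) :=
    (continuous_const.integrableOn_Icc).integrable_indicator measurableSet_Icc
  refine (MeasureTheory.setIntegral_le_integral hI (Filter.Eventually.of_forall fun u => ?_)).trans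
    ?_
  · exact Set.indicator_nonneg (fun _ _ => zero_le_one) u
  · rw [MeasureTheory.integral_indicator measurableSet_Icc, MeasureTheory.setIntegral_const,
      smul_eq_mul, mul_one, Real.volume_real_Icc_of_le h]

private theorem Trap_J {η Y : ℝ} (h0 : 0 < η) (h1 : η ≤ 1 / 4) (hY : 0 < Y) (n : ℕ)
    (hn : 1 ≤ n) : 1 / (n : ℝ) * ∫ u in (1 / 2 : ℝ)..1,
      (Set.Icc ((1 - η) * Y / n) (Y / n)).indicator (fun _ => (1 : ℝ)) u ≤
      (if (n : ℝ) ≤ 2 * Y then 2 * η / Y else 0) := by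
  have hnp : (0 : ℝ) < n := by exact_mod_cast hn
  have hz : (∀ u ∈ Set.uIcc (1 / 2 : ℝ) 1,
      (Set.Icc ((1 - η) * Y / n) (Y / n)).indicator (fun _ => (1 : ℝ)) u = 0) →
      ∫ u in (1 / 2 : ℝ)..1,
        (Set.Icc ((1 - η) * Y / n) (Y / n)).indicator (fun _ => (1 : ℝ)) u = 0 := by
    intro h
    rw [intervalIntegral.integral_congr (g := fun _ => (0 : ℝ)) h]
    simp
  by_cases h2 : (n : ℝ) ≤ 2 * Y
  · rw [if_pos h2]
    by_cases h3 : (1 - η) * Y ≤ n
    · have h4 := Trap_ind ((1 - η) * Y / n) (Y / n) (by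
        refine div_le_div_of_nonneg_right ?_ hnp.le
        nlinarith)
      calc 1 / (n : ℝ) * ∫ u in (1 / 2 : ℝ)..1,
            (Set.Icc ((1 - η) * Y / n) (Y / n)).indicator (fun _ => (1 : ℝ)) u ≤
            1 / (n : ℝ) * (Y / n - (1 - η) * Y / n) :=
            mul_le_mul_of_nonneg_left h4 (by positivity)
        _ = η * Y / (n : ℝ) ^ 2 := by
            field_simp
            ring
        _ ≤ 2 * η / Y := by
            rw [div_le_div_iff₀ (by positivity) hY]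
            have h5 : 3 / 4 * Y ≤ n := by nlinarith
            have h6 : (3 / 4 * Y) ^ 2 ≤ (n : ℝ) ^ 2 := pow_le_pow_left₀ (by positivity) h5 2
            nlinarith [mul_le_mul_of_nonneg_left h6 h0.le, mul_pos h0 (mul_pos hY hY)]
    · rw [hz, mul_zero]
      · positivity
      · intro u hu
        rw [Set.uIcc_of_le (by norm_num)] at hu
        refine Set.indicator_of_notMem ?_ _
        rintro ⟨h5, _⟩
        rw [div_le_iff₀ hnp] at h5
        nlinarith [hu.2]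
  · rw [if_neg h2, hz, mul_zero]
    intro u hu
    rw [Set.uIcc_of_le (by norm_num)] at hu
    refine Set.indicator_of_notMem ?_ _
    rintro ⟨_, h5⟩
    rw [le_div_iff₀ hnp] at h5
    rw [not_le] at h2
    nlinarith [hu.1]

private theorem Trap_F {φ ψ : ℝ → ℝ} {a : ℕ} {La : ℝ} (hφ : PW φ a La) (z : ℂ) {Y u : ℝ}
    (hY : 0 < Y) (hu : 1 / 2 ≤ u) : SK a φ ψ z (Y / u) =
      ∑ n ∈ Icc 1 ⌊2 ^ a * (2 * Y)⌋₊, ((φ (n * u / Y) * tp ψ n / n : ℝ) : ℂ) * z ^ om n := by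
  have hu0 : 0 < u := by linarith
  have hYu : 0 < Y / u := by positivity
  have hYu2 : Y / u ≤ 2 * Y := by
    rw [div_le_iff₀ hu0]
    nlinarith
  have hsub : Icc 1 ⌊2 ^ a * (Y / u)⌋₊ ⊆ Icc 1 ⌊2 ^ a * (2 * Y)⌋₊ :=
    Icc_subset_Icc_right (Nat.floor_mono (mul_le_mul_of_nonneg_left hYu2 (by positivity)))
  unfold SK
  rw [sum_subset hsub]
  · exact sum_congr rfl fun n _ => by rw [div_div_eq_mul_div]
  · intro n hn hn'
    have h1 : φ ((n : ℝ) / (Y / u)) = 0 := by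
      by_contra hne
      have h2 := (hφ.sp _ hne).2
      rw [div_le_iff₀ hYu] at h2
      exact hn' (mem_Icc.mpr ⟨(mem_Icc.mp hn).1, Nat.le_floor h2⟩)
    rw [h1, zero_mul, zero_div, Complex.ofReal_zero, zero_mul]

private theorem Trap_G {ψ : ℝ → ℝ} (z : ℂ) {Y u : ℝ} (a : ℕ) (hY : 0 < Y) (hu : 1 / 2 ≤ u) :
    Sm ψ z (Y / u) * ((u / Y : ℝ) : ℂ) = ∑ n ∈ Icc 1 ⌊2 ^ a * (2 * Y)⌋₊,
      ((tp ψ n * (if (n : ℝ) * u / Y ≤ 1 then u / Y else 0) : ℝ) : ℂ) * z ^ om n := by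
  have hu0 : 0 < u := by linarith
  have hYu : 0 < Y / u := by positivity
  have hYu2 : Y / u ≤ 2 ^ a * (2 * Y) := by
    have h1 : (1 : ℝ) ≤ 2 ^ a := one_le_pow₀ (by norm_num)
    rw [div_le_iff₀ hu0]
    have h2 : Y ≤ 2 * Y * u := by nlinarith
    have h3 : 2 * Y * u ≤ 2 ^ a * (2 * Y * u) := by
      have h4 : 0 ≤ 2 * Y * u := by positivity
      nlinarith
    nlinarith
  have hsub : Icc 1 ⌊Y / u⌋₊ ⊆ Icc 1 ⌊2 ^ a * (2 * Y)⌋₊ :=
    Icc_subset_Icc_right (Nat.floor_mono hYu2)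
  unfold Sm
  rw [sum_mul, ← sum_subset hsub]
  · refine sum_congr rfl fun n hn => ?_
    have h1 : (n : ℝ) ≤ Y / u := by
      rw [← Nat.le_floor_iff hYu.le]
      exact (mem_Icc.mp hn).2
    have h2 : (n : ℝ) * u / Y ≤ 1 := by
      rw [div_le_one hY]
      rw [le_div_iff₀ hu0] at h1
      exact h1
    rw [if_pos h2]
    push_cast
    ring
  · intro n hn hn'
    have h2 : ¬ (n : ℝ) * u / Y ≤ 1 := by
      intro hc
      rw [div_le_one hY, ← le_div_iff₀ hu0] at hc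
      exact hn' (mem_Icc.mpr ⟨(mem_Icc.mp hn).1, Nat.le_floor hc⟩)
    rw [if_neg h2, mul_zero, Complex.ofReal_zero, zero_mul]

private theorem Trap_pt {φ ψ : ℝ → ℝ} {k : ℕ} {L : ℝ} (hψ : PW ψ k L) {z : ℂ} (hz : ‖z‖ = 1)
    {η : ℝ} (h0 : 0 < η)
    (hphi : ∀ x : ℝ, 0 ≤ x → |φ x - (if x ≤ 1 then x else 0)| ≤
      (if x ≤ 2 * η then x else 0) + (if 1 - η ≤ x ∧ x ≤ 1 then 1 else 0)) {Y u : ℝ}
    (hY : 0 < Y) (hu : 1 / 2 ≤ u) (hu1 : u ≤ 1) (K : ℕ) :
    ‖(∑ n ∈ Icc 1 K, ((φ (n * u / Y) * tp ψ n / n : ℝ) : ℂ) * z ^ om n) -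
      ∑ n ∈ Icc 1 K, ((tp ψ n * (if (n : ℝ) * u / Y ≤ 1 then u / Y else 0) : ℝ) : ℂ) *
        z ^ om n‖ ≤
    ∑ n ∈ Icc 1 K, tp ψ n * ((if (n : ℝ) ≤ 4 * η * Y then 1 / Y else 0) +
      1 / n * (Set.Icc ((1 - η) * Y / n) (Y / n)).indicator (fun _ => (1 : ℝ)) u) := by
  rw [← sum_sub_distrib]
  refine (norm_sum_le _ _).trans (sum_le_sum fun n hn => ?_)
  have hnp : (0 : ℝ) < n := by exact_mod_cast (mem_Icc.mp hn).1
  have hu0 : 0 < u := by linarith
  rw [← sub_mul, norm_mul, norm_pow, hz, one_pow, mul_one, ← Complex.ofReal_sub,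
    Complex.norm_real, Real.norm_eq_abs]
  have hx : 0 ≤ (n : ℝ) * u / Y := by positivity
  have h1 := hphi _ hx
  have h2 : φ (n * u / Y) * tp ψ n / n - tp ψ n * (if (n : ℝ) * u / Y ≤ 1 then u / Y else 0) =
      tp ψ n * ((φ (n * u / Y) - (if (n : ℝ) * u / Y ≤ 1 then (n : ℝ) * u / Y else 0)) / n) := by
    split_ifs
    · field_simp
    · ring
  rw [h2, abs_mul, abs_of_nonneg (tp_nonneg hψ n)]
  refine mul_le_mul_of_nonneg_left ?_ (tp_nonneg hψ n)
  rw [abs_div, abs_of_pos hnp]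
  refine (div_le_div_of_nonneg_right h1 hnp.le).trans ?_
  rw [add_div]
  refine add_le_add ?_ ?_
  · by_cases h3 : (n : ℝ) * u / Y ≤ 2 * η
    · rw [if_pos h3]
      have h4 : (n : ℝ) ≤ 4 * η * Y := by
        rw [div_le_iff₀ hY] at h3
        nlinarith
      rw [if_pos h4]
      rw [div_le_div_iff₀ hnp hY]
      have h5 : (n : ℝ) * u / Y * Y = n * u := by field_simp
      rw [h5]
      nlinarith
    · rw [if_neg h3, zero_div]
      split_ifs <;> positivity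
  · by_cases h3 : 1 - η ≤ (n : ℝ) * u / Y ∧ (n : ℝ) * u / Y ≤ 1
    · rw [if_pos h3, Set.indicator_of_mem, mul_one]
      obtain ⟨h4, h5⟩ := h3
      rw [le_div_iff₀ hY] at h4
      rw [div_le_one hY] at h5
      refine ⟨?_, ?_⟩
      · rw [div_le_iff₀ hnp]
        linarith
      · rw [le_div_iff₀ hnp]
        linarith
    · rw [if_neg h3, zero_div]
      exact mul_nonneg (by positivity) (Set.indicator_nonneg (fun _ _ => zero_le_one) u)

private theorem Trap_main {φ ψ : ℝ → ℝ} {a k : ℕ} {La L : ℝ} (hφ : PW φ a La)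
    (hcont : Continuous φ) (hψ : PW ψ k L) {z : ℂ} (hz : ‖z‖ = 1)
    {C : ℝ} (hC : ∀ Y : ℝ, 0 ≤ Y → TT ψ Y ≤ C * Y)
    {η : ℝ} (h0 : 0 < η) (h1 : η ≤ 1 / 4)
    (hphi : ∀ x : ℝ, 0 ≤ x → |φ x - (if x ≤ 1 then x else 0)| ≤
      (if x ≤ 2 * η then x else 0) + (if 1 - η ≤ x ∧ x ≤ 1 then 1 else 0)) {Y : ℝ}
    (hY : 0 < Y) : ‖MK a φ ψ z Y - QQ ψ z Y‖ ≤ 6 * η * C := by
  generalize hK : ⌊(2 : ℝ) ^ a * (2 * Y)⌋₊ = K
  have hMK : MK a φ ψ z Y = ∫ u in (1 / 2 : ℝ)..1,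
      ∑ n ∈ Icc 1 K, ((φ (n * u / Y) * tp ψ n / n : ℝ) : ℂ) * z ^ om n := by
    unfold MK
    refine intervalIntegral.integral_congr fun u hu => ?_
    rw [Set.uIcc_of_le (by norm_num)] at hu
    show SK a φ ψ z (Y / u) = _
    rw [Trap_F hφ z hY hu.1, hK]
  have hintF : IntervalIntegrable (fun u : ℝ =>
      ∑ n ∈ Icc 1 K, ((φ (n * u / Y) * tp ψ n / n : ℝ) : ℂ) * z ^ om n)
      MeasureTheory.volume (1 / 2) 1 := by
    refine Continuous.intervalIntegrable ?_ _ _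
    refine continuous_finsetSum _ fun n _ => Continuous.mul ?_ continuous_const
    refine Complex.continuous_ofReal.comp (Continuous.div_const (Continuous.mul ?_ continuous_const) _)
    exact hcont.comp ((continuous_const.mul continuous_id).div_const Y)
  have hintI : ∀ n : ℕ, IntervalIntegrable (fun u : ℝ => tp ψ n *
      ((if (n : ℝ) ≤ 4 * η * Y then 1 / Y else 0) +
      1 / n * (Set.Icc ((1 - η) * Y / n) (Y / n)).indicator (fun _ => (1 : ℝ)) u))
      MeasureTheory.volume (1 / 2) 1 := by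
    intro n
    refine IntervalIntegrable.const_mul (IntervalIntegrable.add intervalIntegrable_const
      (IntervalIntegrable.const_mul ?_ _)) _
    exact ((continuous_const.integrableOn_Icc).integrable_indicator
      measurableSet_Icc).intervalIntegrable
  rw [hMK]
  unfold QQ
  rw [← intervalIntegral.integral_sub hintF (Trap_intG hψ hz hC hY)]
  have hle : ‖∫ u in (1 / 2 : ℝ)..1,
      ((∑ n ∈ Icc 1 K, ((φ (n * u / Y) * tp ψ n / n : ℝ) : ℂ) * z ^ om n) -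
        Sm ψ z (Y / u) * ((u / Y : ℝ) : ℂ))‖ ≤ ∫ u in (1 / 2 : ℝ)..1,
      ∑ n ∈ Icc 1 K, tp ψ n * ((if (n : ℝ) ≤ 4 * η * Y then 1 / Y else 0) +
      1 / n * (Set.Icc ((1 - η) * Y / n) (Y / n)).indicator (fun _ => (1 : ℝ)) u) := by
    refine intervalIntegral.norm_integral_le_of_norm_le (by norm_num)
      (Filter.Eventually.of_forall fun u hu => ?_) ?_
    · rw [Trap_G z a hY hu.1.le, hK]
      exact Trap_pt hψ hz h0 hphi hY hu.1.le hu.2 K
    · have h3 := IntervalIntegrable.sum (μ := MeasureTheory.volume) (a := (1 / 2 : ℝ)) (b := 1)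
        (Icc 1 K) (f := fun n u => tp ψ n *
          ((if (n : ℝ) ≤ 4 * η * Y then 1 / Y else 0) +
          1 / n * (Set.Icc ((1 - η) * Y / n) (Y / n)).indicator (fun _ => (1 : ℝ)) u))
        (fun n _ => hintI n)
      refine h3.congr fun u _ => ?_
      rw [Finset.sum_apply]
  refine hle.trans ?_
  rw [intervalIntegral.integral_finsetSum fun n _ => hintI n]
  have hterm : ∀ n ∈ Icc 1 K, ∫ u in (1 / 2 : ℝ)..1, tp ψ n *
      ((if (n : ℝ) ≤ 4 * η * Y then 1 / Y else 0) +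
      1 / n * (Set.Icc ((1 - η) * Y / n) (Y / n)).indicator (fun _ => (1 : ℝ)) u) ≤
      1 / (2 * Y) * (if (n : ℝ) ≤ 4 * η * Y then tp ψ n else 0) +
        2 * η / Y * (if (n : ℝ) ≤ 2 * Y then tp ψ n else 0) := by
    intro n hn
    have h4 := Trap_J h0 h1 hY n (mem_Icc.mp hn).1
    have h5 := tp_nonneg hψ n
    rw [intervalIntegral.integral_const_mul, intervalIntegral.integral_add
      intervalIntegrable_const (IntervalIntegrable.const_mul
        ((continuous_const.integrableOn_Icc).integrable_indicator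
          measurableSet_Icc).intervalIntegrable _),
      intervalIntegral.integral_const, intervalIntegral.integral_const_mul]
    have h6 := mul_le_mul_of_nonneg_left h4 h5
    rw [mul_add]
    refine add_le_add (le_of_eq ?_) (h6.trans (le_of_eq ?_))
    · split_ifs
      · rw [smul_eq_mul]
        field_simp
        ring
      · rw [smul_zero, mul_zero, mul_zero]
    · split_ifs
      · ring
      · ring
  refine (sum_le_sum hterm).trans ?_
  rw [sum_add_distrib, ← mul_sum, ← mul_sum]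
  have h7 := Trap_TT hψ K (T := 4 * η * Y) (by positivity)
  have h8 := Trap_TT hψ K (T := 2 * Y) (by positivity)
  have h9 := hC (4 * η * Y) (by positivity)
  have h10 := hC (2 * Y) (by positivity)
  calc 1 / (2 * Y) * ∑ n ∈ Icc 1 K, (if (n : ℝ) ≤ 4 * η * Y then tp ψ n else 0) +
        2 * η / Y * ∑ n ∈ Icc 1 K, (if (n : ℝ) ≤ 2 * Y then tp ψ n else 0) ≤
        1 / (2 * Y) * (C * (4 * η * Y)) + 2 * η / Y * (C * (2 * Y)) := by
        refine add_le_add (mul_le_mul_of_nonneg_left (h7.trans h9) (by positivity))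
          (mul_le_mul_of_nonneg_left (h8.trans h10) (by positivity))
    _ = 6 * η * C := by
        field_simp
        ring

theorem Nl_QQ {q : ℕ} (hq : 1 ≤ q) {z : ℂ} (hz : z ^ q = 1) (hz1 : z ≠ 1) {ψ : ℝ → ℝ} {k : ℕ} {L : ℝ}
    (hψ : PW ψ k L) : Nl (fun Y => ‖QQ ψ z Y‖) := by
  have hzn : ‖z‖ = 1 := by
    have h1 : ‖z‖ ^ q = 1 := by rw [← norm_pow, hz, norm_one]
    exact (pow_eq_one_iff_of_nonneg (norm_nonneg _) (by omega)).mp h1
  obtain ⟨C, hC0, hC⟩ := TT_le hψ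
  refine Nl.lim fun ε hε => ?_
  have hη0 : 0 < min (1 / 4) (ε / (6 * (C + 1))) := by positivity
  have hη1 : min (1 / 4) (ε / (6 * (C + 1))) ≤ 1 / 4 := min_le_left _ _
  have hη2 : min (1 / 4) (ε / (6 * (C + 1))) ≤ ε / (6 * (C + 1)) := min_le_right _ _
  generalize min (1 / 4) (ε / (6 * (C + 1))) = η at hη0 hη1 hη2
  obtain ⟨a, ha⟩ : ∃ a : ℕ, 1 / 2 ^ a ≤ η := by
    obtain ⟨a, ha⟩ := pow_unbounded_of_one_lt (1 / η) (one_lt_two (α := ℝ))
    refine ⟨a, ?_⟩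
    rw [div_le_iff₀ (by positivity)]
    rw [div_lt_iff₀ hη0] at ha
    linarith
  obtain ⟨φ, hφ, hcont, hphi⟩ : ∃ φ : ℝ → ℝ, PW φ a (2 + 1 / η) ∧ Continuous φ ∧
      ∀ x : ℝ, 0 ≤ x → |φ x - (if x ≤ 1 then x else 0)| ≤
        (if x ≤ 2 * η then x else 0) + (if 1 - η ≤ x ∧ x ≤ 1 then 1 else 0) := by
    refine ⟨fun x => max 0 (min x (min (2 * (x - η)) ((1 - x) / η))), Trap_PW hη0 ha, ?_,
      fun x hx => Trap_phi hη0 hx⟩
    refine continuous_const.max (continuous_id.min (Continuous.min ?_ ?_))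
    · exact continuous_const.mul (continuous_id.sub continuous_const)
    · exact (continuous_const.sub continuous_id).div_const η
  refine ⟨fun Y => ‖MK a φ ψ z Y‖, Nl_MK hq hz hz1 hφ hψ, fun Y hY => ?_⟩
  have h2 := Trap_main hφ hcont hψ hzn hC hη0 hη1 hphi (Y := Y) (by linarith)
  have h3 : 6 * η * C ≤ ε := by
    rw [le_div_iff₀ (by positivity)] at hη2
    nlinarith
  have h4 := norm_sub_norm_le (QQ ψ z Y) (MK a φ ψ z Y)
  rw [norm_sub_rev] at h4
  linarith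

end Pool.Agent.Lib.MP_d57abb_nt.AS
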